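import Pool.Agent.Q116.FF.Red
import Pool.Agent.TH499.TF.Minor
import Pool.Agent.TH497.PW.Main
import Pool.Agent.Q165.TI.TD

/-!
Nowhere-zero 4-flows and tree decompositions and path decompositions into sets of small
independence number or small clique cover number: the reduction to circuits of length at least five.
-/

set_option autoImplicit false
set_option linter.unusedSectionVars false

namespace Pool.Agent.Q163.FL

open Finset Pool.Agent.TH362.TF

variable {V E : Type} [Fintype V] [DecidableEq V] [Fintype E] [DecidableEq E]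

open Pool.Agent.TH499.TF (phi)

theorem mrg2 (a b x : V) : Q116.FF.mrg {a, b} a x = phi a b x := by
  unfold Q116.FF.mrg Pool.Agent.TH499.TF.phi
  by_cases h1 : x = b
  · rw [if_pos (by simp [h1]), if_pos h1]
  · rw [if_neg h1]
    by_cases h2 : x = a
    · rw [if_pos (by simp [h2]), h2]
    · rw [if_neg (by simp [h1, h2])]

theorem mrg3 {a b c : V} (x : V) :
    Q116.FF.mrg {a, b, c} a x = phi a c (phi a b x) := by
  rw [← mrg2 a b x, ← mrg2 a c]
  unfold Q116.FF.mrg
  by_cases h1 : x ∈ ({a, b} : Finset V)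
  · have h3 : x ∈ ({a, b, c} : Finset V) := by
      rw [mem_insert, mem_singleton] at h1
      rcases h1 with h | h <;> simp [h]
    rw [if_pos h3, if_pos h1, if_pos (by simp)]
  · rw [if_neg h1]
    rw [mem_insert, mem_singleton] at h1
    push Not at h1
    by_cases h2 : x = c
    · rw [if_pos (by simp [h2]), if_pos (by simp [h2])]
    · rw [if_neg (by simp [h1.1, h1.2, h2]), if_neg (by simp [h1.1, h2])]

theorem mrg4 {a b c d : V} (x : V) :
    Q116.FF.mrg {a, b, c, d} a x = phi a d (phi a c (phi a b x)) := by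
  rw [← mrg3 (a := a) (b := b) (c := c) x, ← mrg2 a d]
  unfold Q116.FF.mrg
  by_cases h1 : x ∈ ({a, b, c} : Finset V)
  · have h3 : x ∈ ({a, b, c, d} : Finset V) := by
      rw [mem_insert, mem_insert, mem_singleton] at h1
      rcases h1 with h | h | h <;> simp [h]
    rw [if_pos h3, if_pos h1, if_pos (by simp)]
  · rw [if_neg h1]
    rw [mem_insert, mem_insert, mem_singleton] at h1
    push Not at h1
    by_cases h2 : x = d
    · rw [if_pos (by simp [h2]), if_pos (by simp [h2])]
    · rw [if_neg (by simp [h1.1, h1.2.1, h1.2.2, h2]), if_neg (by simp [h1.1, h2])]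

theorem ends_phi {s t : E → V} {u v a b : V} {e : E} (h : Ends s t a b e) :
    Ends (fun e => phi u v (s e)) (fun e => phi u v (t e)) (phi u v a) (phi u v b) e := by
  rcases h with ⟨h1, h2⟩ | ⟨h1, h2⟩
  · exact Or.inl ⟨congrArg _ h1, congrArg _ h2⟩
  · exact Or.inr ⟨congrArg _ h1, congrArg _ h2⟩

theorem phi_ne {u v x : V} (h : x ≠ v) : phi u v x = x := by
  unfold Pool.Agent.TH499.TF.phi
  rw [if_neg h]

theorem phi_eq (u v : V) : phi u v v = u := by
  unfold Pool.Agent.TH499.TF.phi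
  rw [if_pos rfl]

/-- the reduction, with a property which is preserved by the contraction of edges -/
theorem exists_redP (s t : E → V) (S : Finset E) (P : (V → V) → Prop)
    (hP : ∀ (f : V → V) (u v : V) (e : E), e ∈ S → P f → u ≠ v →
      Ends (fun e => f (s e)) (fun e => f (t e)) u v e → P (fun x => phi u v (f x)))
    (f0 : V → V) (h0 : P f0) :
    ∃ f : V → V, P f ∧ (NZ (fun e => f (s e)) (fun e => f (t e)) S →
      NZ (fun e => f0 (s e)) (fun e => f0 (t e)) S) ∧
      Q116.FF.Sm (fun e => f (s e)) (fun e => f (t e)) S := by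
  classical
  induction hn : Q116.FF.nl (fun e => f0 (s e)) (fun e => f0 (t e)) S
    using Nat.strong_induction_on generalizing f0 with
  | _ n ih =>
    subst hn
    have step : ∀ (T : Finset V) (a : V),
        Q116.FF.nl (fun e => Q116.FF.mrg T a (f0 (s e))) (fun e => Q116.FF.mrg T a (f0 (t e))) S <
          Q116.FF.nl (fun e => f0 (s e)) (fun e => f0 (t e)) S →
        (NZ (fun e => Q116.FF.mrg T a (f0 (s e))) (fun e => Q116.FF.mrg T a (f0 (t e))) S →
          NZ (fun e => f0 (s e)) (fun e => f0 (t e)) S) →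
        P (fun x => Q116.FF.mrg T a (f0 x)) →
        ∃ f : V → V, P f ∧ (NZ (fun e => f (s e)) (fun e => f (t e)) S →
          NZ (fun e => f0 (s e)) (fun e => f0 (t e)) S) ∧
          Q116.FF.Sm (fun e => f (s e)) (fun e => f (t e)) S := by
      intro T a h1 h2 h3
      obtain ⟨f, h4, h5, h6⟩ := ih _ h1 (fun x => Q116.FF.mrg T a (f0 x)) h3 rfl
      exact ⟨f, h4, fun h => h2 (h5 h), h6⟩
    by_cases h : Q116.FF.Sm (fun e => f0 (s e)) (fun e => f0 (t e)) S
    · exact ⟨f0, h0, fun h => h, h⟩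
    by_contra hcon
    apply h
    refine ⟨?_, ?_, ?_⟩
    · intro a b e e' hab he he' k k'
      by_contra hne
      refine hcon (step {a, b} a (Q116.FF.nl_lt he hab (by simp) (by simp) k)
        (Q116.FF.digon hab he he' hne k k') ?_)
      have h1 := hP f0 a b e he h0 hab k
      have h2 : (fun x => Q116.FF.mrg {a, b} a (f0 x)) = fun x => phi a b (f0 x) :=
        funext fun x => mrg2 a b (f0 x)
      rw [h2]
      exact h1
    · intro a b c hab hbc hca e1 h1 e2 h2 e3 h3 k1 k2 k3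
      refine hcon (step {a, b, c} a (Q116.FF.nl_lt h1 hab (by simp) (by simp) k1)
        (Q116.FF.triangle hab hbc hca h1 h2 h3 k1 k2 k3) ?_)
      have h4 := hP f0 a b e1 h1 h0 hab k1
      have k3' := ends_phi (u := a) (v := b) k3
      rw [phi_ne (u := a) hbc.symm, phi_ne (u := a) hab] at k3'
      have h5 := hP _ a c e3 h3 h4 hca.symm (Q116.FF.Ends.sy k3')
      have h6 : (fun x => Q116.FF.mrg {a, b, c} a (f0 x)) = fun x => phi a c (phi a b (f0 x)) :=
        funext fun x => mrg3 (f0 x)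
      rw [h6]
      exact h5
    · intro a b c d hab hbc hcd hda hac hbd e1 h1 e2 h2 e3 h3 e4 h4 k1 k2 k3 k4
      refine hcon (step {a, b, c, d} a (Q116.FF.nl_lt h1 hab (by simp) (by simp) k1)
        (Q116.FF.quad hab hbc hcd hda hac hbd h1 h2 h3 h4 k1 k2 k3 k4) ?_)
      have h5 := hP f0 a b e1 h1 h0 hab k1
      have k2' := ends_phi (u := a) (v := b) k2
      rw [phi_eq, phi_ne (u := a) hbc.symm] at k2'
      have h6 := hP _ a c e2 h2 h5 hac k2'
      have k4' := ends_phi (u := a) (v := b) k4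
      rw [phi_ne (u := a) hbd.symm, phi_ne (u := a) hab] at k4'
      have k4'' := ends_phi (u := a) (v := c) k4'
      rw [phi_ne (u := a) hcd.symm, phi_ne (u := a) hac] at k4''
      have h7 := hP _ a d e4 h4 h6 hda.symm (Q116.FF.Ends.sy k4'')
      have h8 : (fun x => Q116.FF.mrg {a, b, c, d} a (f0 x)) =
          fun x => phi a d (phi a c (phi a b (f0 x))) :=
        funext fun x => mrg4 (f0 x)
      rw [h8]
      exact h7

/-! ### Conversions -/

theorem nz_conv {s t : E → V} : NZ s t univ ↔ Pool.Agent.TH499.TF.NZ s t := by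
  unfold NZ Pool.Agent.TH499.TF.NZ
  constructor
  · rintro ⟨φ, h1, h2⟩
    exact ⟨φ, fun e => h1 e (mem_univ e), fun x => h2 x⟩
  · rintro ⟨φ, h1, h2⟩
    exact ⟨φ, fun e _ => h1 e, fun x => h2 x⟩

theorem dlt_quot {s t : E → V} (f : V → V)
    (h : ∀ Y, (Pool.Agent.TH499.TF.dlt s t Y).card ≠ 1) (Y : Finset V) :
    (Pool.Agent.TH499.TF.dlt (fun e => f (s e)) (fun e => f (t e)) Y).card ≠ 1 := by
  have := Pool.Agent.TH499.TF.dlt_comp s t f Y
  have h2 : Pool.Agent.TH499.TF.dlt (fun e => f (s e)) (fun e => f (t e)) Y =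
      Pool.Agent.TH499.TF.dlt s t (univ.filter (fun x => f x ∈ Y)) := this
  rw [h2]
  exact h _

/-! ### The sets -/

/-- the vertices are pairwise adjacent -/
def Clq (s t : E → V) (K : Finset V) : Prop :=
  ∀ x ∈ K, ∀ y ∈ K, x ≠ y → Adj s t univ x y

/-- no three pairwise nonadjacent vertices -/
def Ind2 (s t : E → V) (X : Finset V) : Prop :=
  ∀ I ⊆ X, (∀ u ∈ I, ∀ v ∈ I, u ≠ v → ¬ Adj s t univ u v) → I.card ≤ 2

/-- cliques cover the set; the number of cliques plus the number of cliques with exactly two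
vertices is at most `w` -/
def Cov (s t : E → V) (w : ℕ) (X : Finset V) : Prop :=
  ∃ (m : ℕ) (K : Fin m → Finset V), (∀ i, Clq s t (K i)) ∧ (∀ x ∈ X, ∃ i, x ∈ K i) ∧
    ∑ i, (if (K i).card = 2 then 2 else 1) ≤ w

theorem ends_un {s t : E → V} {a b c d : V} {e : E} (h : Ends s t a b e) (h' : Ends s t c d e) :
    (a = c ∧ b = d) ∨ (a = d ∧ b = c) := Q116.FF.ends_inj h h'

/-- the image of a clique -/
theorem clq_image {s t : E → V} {f : V → V}
    (hs : Q116.FF.Sm (fun e => f (s e)) (fun e => f (t e)) univ) {K : Finset V}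
    (hK : Clq s t K) : (K.image f).card ≤ if K.card = 2 then 2 else 1 := by
  classical
  split_ifs with h2
  · exact h2 ▸ card_image_le
  · rcases Nat.lt_or_ge K.card 3 with h3 | h3
    · exact card_image_le.trans (by omega)
    rw [card_le_one]
    intro p hp q hq
    obtain ⟨x, hx, rfl⟩ := mem_image.1 hp
    obtain ⟨y, hy, rfl⟩ := mem_image.1 hq
    by_contra hne
    have hxy : x ≠ y := fun h => hne (congrArg f h)
    obtain ⟨z, hz, hzx, hzy⟩ : ∃ z ∈ K, z ≠ x ∧ z ≠ y := by
      by_contra hcon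
      push Not at hcon
      have : K ⊆ {x, y} := fun z hz => by
        rw [mem_insert, mem_singleton]
        by_cases h : z = x
        · exact Or.inl h
        · exact Or.inr (hcon z hz h)
      have := card_le_card this
      have := card_le_two (a := x) (b := y)
      omega
    obtain ⟨e1, _, k1⟩ := hK x hx y hy hxy
    obtain ⟨e2, _, k2⟩ := hK y hy z hz hzy.symm
    obtain ⟨e3, _, k3⟩ := hK z hz x hx hzx
    have f1 : Ends (fun e => f (s e)) (fun e => f (t e)) (f x) (f y) e1 := by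
      rcases k1 with ⟨a, b⟩ | ⟨a, b⟩
      · exact Or.inl ⟨congrArg f a, congrArg f b⟩
      · exact Or.inr ⟨congrArg f a, congrArg f b⟩
    have f2 : Ends (fun e => f (s e)) (fun e => f (t e)) (f y) (f z) e2 := by
      rcases k2 with ⟨a, b⟩ | ⟨a, b⟩
      · exact Or.inl ⟨congrArg f a, congrArg f b⟩
      · exact Or.inr ⟨congrArg f a, congrArg f b⟩
    have f3 : Ends (fun e => f (s e)) (fun e => f (t e)) (f z) (f x) e3 := by
      rcases k3 with ⟨a, b⟩ | ⟨a, b⟩
      · exact Or.inl ⟨congrArg f a, congrArg f b⟩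
      · exact Or.inr ⟨congrArg f a, congrArg f b⟩
    by_cases hzx' : f z = f x
    · rw [hzx'] at f2
      have := hs.par (f x) (f y) e1 e2 hne (mem_univ _) (mem_univ _) f1 (Q116.FF.Ends.sy f2)
      subst this
      rcases ends_un k1 k2 with ⟨h, _⟩ | ⟨h, _⟩
      · exact hxy h
      · exact hzx h.symm
    by_cases hzy' : f z = f y
    · rw [hzy'] at f3
      have := hs.par (f x) (f y) e1 e3 hne (mem_univ _) (mem_univ _) f1 (Q116.FF.Ends.sy f3)
      subst this
      rcases ends_un k1 k3 with ⟨h, _⟩ | ⟨_, h⟩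
      · exact hzx h.symm
      · exact hzy h.symm
    exact hs.tri (f x) (f y) (f z) hne (Ne.symm hzy') hzx' e1 (mem_univ _) e2 (mem_univ _) e3
      (mem_univ _) f1 f2 f3

theorem cov_image {s t : E → V} {f : V → V}
    (hs : Q116.FF.Sm (fun e => f (s e)) (fun e => f (t e)) univ) {X : Finset V} {w : ℕ}
    (hX : Cov s t w X) : (X.image f).card ≤ w := by
  classical
  obtain ⟨m, K, h1, h2, h3⟩ := hX
  calc (X.image f).card ≤ (univ.biUnion (fun i => (K i).image f)).card := by
        refine card_le_card fun p hp => ?_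
        obtain ⟨x, hx, rfl⟩ := mem_image.1 hp
        obtain ⟨i, hi⟩ := h2 x hx
        exact mem_biUnion.2 ⟨i, mem_univ _, mem_image_of_mem f hi⟩
    _ ≤ ∑ i, ((K i).image f).card := card_biUnion_le
    _ ≤ ∑ i, (if (K i).card = 2 then 2 else 1) := sum_le_sum fun i _ => clq_image hs (h1 i)
    _ ≤ w := h3

theorem ind_image {s t : E → V} {f : V → V}
    (hs : Q116.FF.Sm (fun e => f (s e)) (fun e => f (t e)) univ) {X : Finset V}
    (hX : Ind2 s t X) : (X.image f).card ≤ 5 := by
  classical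
  apply Q116.FF.bd2 hs.girth
  intro I hI hind
  have hex : ∀ x ∈ I, ∃ v, v ∈ X ∧ f v = x := by
    intro x hx
    obtain ⟨v, hv, hvx⟩ := mem_image.1 (hI hx)
    exact ⟨v, hv, hvx⟩
  choose! g hg1 hg2 using hex
  have hinj : Set.InjOn g I := by
    intro x hx y hy hxy
    rw [← hg2 x hx, ← hg2 y hy, hxy]
  rw [← card_image_of_injOn hinj]
  apply hX
  · intro v hv
    obtain ⟨x, hx, rfl⟩ := mem_image.1 hv
    exact hg1 x hx
  intro u hu v hv huv hadj
  obtain ⟨x, hx, rfl⟩ := mem_image.1 hu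
  obtain ⟨y, hy, rfl⟩ := mem_image.1 hv
  have hxy : x ≠ y := fun hc => huv (by rw [hc])
  obtain ⟨e, he, k⟩ := hadj
  refine hind x hx y hy ⟨hxy, e, he, ?_⟩
  rcases k with ⟨h1, h2⟩ | ⟨h1, h2⟩
  · exact Or.inl ⟨(congrArg f h1).trans (hg2 x hx), (congrArg f h2).trans (hg2 y hy)⟩
  · exact Or.inr ⟨(congrArg f h1).trans (hg2 y hy), (congrArg f h2).trans (hg2 x hx)⟩

theorem ind_clq_image {s t : E → V} {f : V → V}
    (hs : Q116.FF.Sm (fun e => f (s e)) (fun e => f (t e)) univ) {X K : Finset V}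
    (hK : Clq s t K) (hK2 : K.card ≠ 2) (hX : Ind2 s t (X \ K)) : (X.image f).card ≤ 6 := by
  classical
  have h1 := ind_image hs hX
  have h2 := clq_image hs hK
  rw [if_neg hK2] at h2
  have h3 : X.image f ⊆ (X \ K).image f ∪ K.image f := by
    intro p hp
    obtain ⟨x, hx, rfl⟩ := mem_image.1 hp
    rw [mem_union]
    by_cases h : x ∈ K
    · exact Or.inr (mem_image_of_mem f h)
    · exact Or.inl (mem_image_of_mem f (mem_sdiff.2 ⟨hx, h⟩))
  have := (card_le_card h3).trans (card_union_le _ _)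
  omega

/-! ### Tree decompositions -/

theorem TDP.sy {s t : E → V} {P : Finset V → Prop} (h : Pool.Agent.Q165.TI.TDP s t P) :
    Pool.Agent.Q165.TI.TDP t s P := by
  obtain ⟨n, par, B, h0, h1, h2, h4⟩ := h
  exact ⟨n, par, B, h0, fun e => let ⟨i, a, b, c⟩ := h1 e; ⟨i, a, c, b⟩, h2, h4⟩

theorem pm_symm {s t : E → V} (h : Pool.Agent.TH499.TF.PM s t) : Pool.Agent.TH499.TF.PM t s := by
  obtain ⟨S, h1, h2, h3⟩ := h
  refine ⟨S, ?_, h2, ?_⟩
  · intro i A hA hne hAY
    obtain ⟨e, a, b, ha, hb, hbA, hj⟩ := h1 i A hA hne hAY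
    exact ⟨e, a, b, ha, hb, hbA, Or.elim hj (fun h => Or.inr ⟨h.2, h.1⟩) (fun h => Or.inl ⟨h.2, h.1⟩)⟩
  · intro i j hij
    obtain ⟨e, x, y, hx, hy, hj⟩ := h3 i j hij
    exact ⟨e, x, y, hx, hy, Or.elim hj (fun h => Or.inr ⟨h.2, h.1⟩) (fun h => Or.inl ⟨h.2, h.1⟩)⟩

/-- **4-flows**: tree decompositions whose bags become small in all graphs without short circuits -/
theorem flow_tree (s t : E → V) (Q : Finset V → Prop)
    (hQ : ∀ (f : V → V), Q116.FF.Sm (fun e => f (s e)) (fun e => f (t e)) univ →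
      ∀ X, Q X → (X.image f).card ≤ 5)
    (hT : Pool.Agent.Q165.TI.TDP s t Q) (hPM : ¬ Pool.Agent.TH499.TF.PM s t)
    (hb : ∀ Y, (Pool.Agent.TH499.TF.dlt s t Y).card ≠ 1) : Pool.Agent.TH499.TF.NZ s t := by
  classical
  obtain ⟨f, ⟨h1, h2⟩, h3, h4⟩ := exists_redP s t univ
    (fun f => Pool.Agent.Q165.TI.TDP (fun e => f (s e)) (fun e => f (t e))
        (fun X => ∃ Y, Q Y ∧ X = Y.image f) ∧
      ¬ Pool.Agent.TH499.TF.PM (fun e => f (s e)) (fun e => f (t e)))
    (by
      rintro f u v e _ ⟨h1, h2⟩ huv k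
      have him : ∀ Y : Finset V, (Y.image f).image (phi u v) = Y.image (fun x => phi u v (f x)) := by
        intro Y
        rw [image_image]
        rfl
      refine ⟨?_, fun h => h2 (h.of_phi huv k)⟩
      have key : ∀ s' t' : E → V, s' e = u → t' e = v →
          Pool.Agent.Q165.TI.TDP s' t' (fun X => ∃ Y, Q Y ∧ X = Y.image f) →
          Pool.Agent.Q165.TI.TDP (fun e => phi u v (s' e)) (fun e => phi u v (t' e))
            (fun X => ∃ Y, Q Y ∧ X = Y.image (fun x => phi u v (f x))) := by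
        intro s' t' k1 k2 h1
        have := Pool.Agent.Q165.TI.TDP.contract
          (P' := fun X => ∃ Y, Q Y ∧ X = Y.image (fun x => phi u v (f x))) e h1
          (by rw [k1, k2]; exact huv) (by
            rintro X ⟨Y, hY, rfl⟩
            refine ⟨Y, hY, ?_⟩
            rw [← him, k1, k2]
            rfl)
        rw [k1, k2] at this
        exact this
      rcases k with ⟨k1, k2⟩ | ⟨k1, k2⟩
      · exact key _ _ k1 k2 h1
      · exact TDP.sy (key _ _ k2 k1 (TDP.sy h1)))
    (fun x => x) ⟨hT.mono fun X hX => ⟨X, hX, by rw [image_id']⟩, hPM⟩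
  have h5 : Pool.Agent.TH499.TF.HasTD 5 (fun e => f (s e)) (fun e => f (t e)) :=
    (h1.mono (P' := fun X => X.card ≤ 5) (by
      rintro X ⟨Y, hY, rfl⟩
      exact hQ f h4 Y hY)).hasTD
  have h6 : Pool.Agent.TH499.TF.NZ (fun e => f (s e)) (fun e => f (t e)) :=
    Pool.Agent.TH499.TF.cls_nz _ _ _ rfl ⟨h5, h2⟩ (dlt_quot f hb)
  exact nz_conv.1 (h3 (nz_conv.2 h6))

end Pool.Agent.Q163.FL
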