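import Pool.Agent.Q116.FF.Red

/-!
Colourings of the blocks of a permutation without fixed points.
-/

set_option autoImplicit false
set_option linter.unusedSectionVars false

namespace Pool.Agent.Q163.FL

open Finset Pool.Agent.TH362.TF

variable {V : Type} [DecidableEq V]

theorem even_smul {n : ℕ} (h : Even n) (x : F) : n • x = 0 := by
  obtain ⟨k, rfl⟩ := h
  rw [add_smul]
  have : ∀ y : F, y + y = 0 := by decide
  exact this _

theorem odd_smul {n : ℕ} (h : Odd n) (x : F) : n • x = x := by
  obtain ⟨k, rfl⟩ := h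
  rw [add_smul, one_smul, even_smul (even_two_mul k), zero_add]

/-- the sum of a function with two special values -/
theorem sum_two {A : Finset V} {u w : V} (hu : u ∈ A) (hw : w ∈ A) (huw : u ≠ w) (x y z : F) :
    ∑ v ∈ A, (if v = u then x else if v = w then y else z) = x + y + A.card • z := by
  have hw' : w ∈ A.erase u := mem_erase.2 ⟨huw.symm, hw⟩
  rw [← add_sum_erase A _ hu, ← add_sum_erase (A.erase u) _ hw', if_pos rfl, if_neg huw.symm,
    if_pos rfl]
  have h1 : ∑ v ∈ (A.erase u).erase w, (if v = u then x else if v = w then y else z) =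
      ((A.erase u).erase w).card • z := by
    rw [← sum_const]
    refine sum_congr rfl fun v hv => ?_
    rw [mem_erase, mem_erase] at hv
    rw [if_neg hv.2.1, if_neg hv.1]
  rw [h1, card_erase_of_mem hw', card_erase_of_mem hu]
  have h2 : 2 ≤ A.card := by
    have : ({u, w} : Finset V) ⊆ A := by
      intro v hv
      rw [mem_insert, mem_singleton] at hv
      rcases hv with rfl | rfl <;> assumption
    have h3 := card_le_card this
    rwa [card_pair huw] at h3
  obtain ⟨m, hm⟩ : ∃ m, A.card = m + 2 := ⟨A.card - 2, by omega⟩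
  have h3 : A.card - 1 - 1 = m := by omega
  rw [h3, hm, add_smul, even_smul (by decide : Even 2)]
  abel

/-- an involution without fixed points -/
theorem even_of_inv {A : Finset V} {σ : V → V} (hσ : ∀ v ∈ A, σ v ∈ A)
    (hf : ∀ v ∈ A, σ v ≠ v) (h2 : ∀ v ∈ A, σ (σ v) = v) : Even A.card := by
  have h : ∑ _v ∈ A, (1 : ZMod 2) = 0 :=
    sum_involution (fun v _ => σ v) (fun v _ => by decide) (fun v hv _ => hf v hv)
      (fun v hv => hσ v hv) (fun v hv => h2 v hv)
  rw [sum_const, nsmul_eq_mul, mul_one] at h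
  exact (ZMod.natCast_eq_zero_iff_even).1 h

/-- the data of a colouring of the blocks -/
structure Col (A : Finset V) (σ : V → V) (g1 g2 g3 : V → F) : Prop where
  n1 : ∀ v, g1 v ≠ 0
  n2 : ∀ v, g2 v ≠ 0
  n3 : ∀ v, g3 v ≠ 0
  h12 : ∀ v, g1 v ≠ g2 v
  h23 : ∀ v, g2 v ≠ g3 v
  h31 : ∀ v ∈ A, g3 v ≠ g1 (σ v)

theorem comb_eq {A : Finset V} {σ : V → V} (hσ : ∀ v ∈ A, σ v ∈ A)
    (hi : ∀ u ∈ A, ∀ v ∈ A, σ u = σ v → u = v) (hf : ∀ v ∈ A, σ v ≠ v) :
    ∃ g1 g2 g3 : V → F, Col A σ g1 g2 g3 ∧ ∑ v ∈ A, g1 v = ∑ v ∈ A, g2 v ∧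
      ∑ v ∈ A, g2 v = ∑ v ∈ A, g3 v := by
  rcases Nat.even_or_odd A.card with hA | hA
  · refine ⟨fun _ => (1, 0), fun _ => (0, 1), fun _ => (1, 1), ⟨?_, ?_, ?_, ?_, ?_, ?_⟩, ?_, ?_⟩
    · intro _; decide
    · intro _; decide
    · intro _; decide
    · intro _; decide
    · intro _; decide
    · intro _ _; decide
    · rw [sum_const, sum_const, even_smul hA, even_smul hA]
    · rw [sum_const, sum_const, even_smul hA, even_smul hA]
  · obtain ⟨u, hu, h2⟩ : ∃ u ∈ A, σ (σ u) ≠ u := by
      by_contra hcon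
      push Not at hcon
      exact Nat.not_even_iff_odd.2 hA (even_of_inv hσ hf hcon)
    have hw := hσ u hu
    have huw : u ≠ σ u := (hf u hu).symm
    refine ⟨fun v => if v = u then (0, 1) else if v = σ u then (1, 1) else (1, 0),
      fun v => if v = u then (1, 1) else if v = σ u then (1, 0) else (0, 1),
      fun v => if v = u then (1, 0) else if v = σ u then (0, 1) else (1, 1),
      ⟨?_, ?_, ?_, ?_, ?_, ?_⟩, ?_, ?_⟩
    · intro v; beta_reduce; split_ifs <;> decide
    · intro v; beta_reduce; split_ifs <;> decide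
    · intro v; beta_reduce; split_ifs <;> decide
    · intro v; beta_reduce; split_ifs <;> decide
    · intro v; beta_reduce; split_ifs <;> decide
    · intro v hv
      beta_reduce
      by_cases h3 : v = u
      · rw [if_pos h3, h3, if_neg huw.symm, if_pos rfl]
        decide
      · rw [if_neg h3]
        by_cases h4 : v = σ u
        · rw [if_pos h4, h4, if_neg h2, if_neg (hf _ hw)]
          decide
        · rw [if_neg h4]
          by_cases h5 : σ v = u
          · rw [if_pos h5]; decide
          · rw [if_neg h5]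
            have h6 : σ v ≠ σ u := fun h => h3 (hi v hv u hu h)
            rw [if_neg h6]; decide
    · rw [sum_two hu hw huw, sum_two hu hw huw, odd_smul hA, odd_smul hA]; decide
    · rw [sum_two hu hw huw, sum_two hu hw huw, odd_smul hA, odd_smul hA]; decide

theorem comb_ne {A : Finset V} {σ : V → V} (hσ : ∀ v ∈ A, σ v ∈ A) (hA3 : 3 ≤ A.card) :
    ∃ g1 g2 g3 : V → F, Col A σ g1 g2 g3 ∧ ∑ v ∈ A, g1 v ≠ ∑ v ∈ A, g2 v ∧
      ∑ v ∈ A, g2 v ≠ ∑ v ∈ A, g3 v ∧ ∑ v ∈ A, g1 v ≠ ∑ v ∈ A, g3 v := by
  rcases Nat.even_or_odd A.card with hA | hA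
  · obtain ⟨u, hu⟩ : A.Nonempty := card_pos.1 (by omega)
    obtain ⟨w, hw, hwu, hwσ⟩ : ∃ w ∈ A, w ≠ u ∧ w ≠ σ u := by
      by_contra hcon
      push Not at hcon
      have : A ⊆ {u, σ u} := fun z hz => by
        rw [mem_insert, mem_singleton]
        by_cases h : z = u
        · exact Or.inl h
        · exact Or.inr (hcon z hz h)
      have := card_le_card this
      have := card_le_two (a := u) (b := σ u)
      omega
    refine ⟨fun v => if v = u then (1, 0) else if v = w then (0, 1) else (1, 0),
      fun v => if v = u then (1, 1) else if v = w then (1, 0) else (0, 1),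
      fun v => if v = u then (0, 1) else if v = w then (1, 1) else (1, 1),
      ⟨?_, ?_, ?_, ?_, ?_, ?_⟩, ?_, ?_, ?_⟩
    · intro v; beta_reduce; split_ifs <;> decide
    · intro v; beta_reduce; split_ifs <;> decide
    · intro v; beta_reduce; split_ifs <;> decide
    · intro v; beta_reduce; split_ifs <;> decide
    · intro v; beta_reduce; split_ifs <;> decide
    · intro v _
      beta_reduce
      by_cases h3 : v = u
      · rw [if_pos h3, h3]
        by_cases h4 : σ u = u
        · rw [if_pos h4]; decide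
        · rw [if_neg h4, if_neg hwσ.symm]; decide
      · rw [if_neg h3]
        split_ifs <;> decide
    · rw [sum_two hu hw hwu.symm, sum_two hu hw hwu.symm, even_smul hA, even_smul hA]; decide
    · rw [sum_two hu hw hwu.symm, sum_two hu hw hwu.symm, even_smul hA, even_smul hA]; decide
    · rw [sum_two hu hw hwu.symm, sum_two hu hw hwu.symm, even_smul hA, even_smul hA]; decide
  · refine ⟨fun _ => (1, 0), fun _ => (0, 1), fun _ => (1, 1), ⟨?_, ?_, ?_, ?_, ?_, ?_⟩, ?_, ?_, ?_⟩
    · intro _; decide
    · intro _; decide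
    · intro _; decide
    · intro _; decide
    · intro _; decide
    · intro _ _; decide
    · rw [sum_const, sum_const, odd_smul hA, odd_smul hA]; decide
    · rw [sum_const, sum_const, odd_smul hA, odd_smul hA]; decide
    · rw [sum_const, sum_const, odd_smul hA, odd_smul hA]; decide

end Pool.Agent.Q163.FL
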