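import Pool.Agent.Q163.FL.Comb

/-!
Graphs of girth at least five with minimum degree at least three which are dominated by three
vertices.
-/

set_option autoImplicit false
set_option linter.unusedSectionVars false

namespace Pool.Agent.Q163.FL

open Finset Pool.Agent.TH362.TF

variable {V : Type} [Fintype V] [DecidableEq V]

/-- the neighbours -/
noncomputable abbrev Nb (H : SimpleGraph V) (v : V) : Finset V := Q116.FF.nb H univ v

theorem mem_Nb {H : SimpleGraph V} {u v : V} : u ∈ Nb H v ↔ H.Adj v u := by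
  rw [Q116.FF.mem_nb]
  exact ⟨fun h => h.2, fun h => ⟨mem_univ _, h⟩⟩

/-- the simple graph has a nowhere-zero flow -/
def SF (H : SimpleGraph V) : Prop :=
  ∃ val : V → V → F, (∀ u v, H.Adj u v → val u v = val v u) ∧ (∀ u v, H.Adj u v → val u v ≠ 0) ∧
    ∀ v, ∑ u ∈ Nb H v, val v u = 0

/-- girth at least five, no degrees one and two, a dominating set of at most three vertices -/
structure KD (H : SimpleGraph V) (D : Finset V) : Prop where
  g : Q116.FF.Girth5 H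
  d3 : ∀ v u, H.Adj v u → 3 ≤ (Nb H v).card
  dom : ∀ v u, H.Adj v u → v ∉ D → ∃ d ∈ D, H.Adj v d
  c3 : D.card ≤ 3

variable {H : SimpleGraph V} {D : Finset V}

theorem KD.card3 (h : KD H D) {v u : V} (hv : v ∉ D) (hu : H.Adj v u) :
    D.card = 3 ∧ (Nb H v).card = 3 ∧
      ∀ d ∈ D, H.Adj v d ∨ ∃ w, w ∉ D ∧ H.Adj v w ∧ H.Adj w d := by
  classical
  have hex : ∀ w, ∃ d, w ∈ Nb H v → d ∈ D ∧ ((w ∈ D ∧ d = w) ∨ (w ∉ D ∧ H.Adj w d)) := by
    intro w
    by_cases hw : w ∈ Nb H v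
    · by_cases hwD : w ∈ D
      · exact ⟨w, fun _ => ⟨hwD, Or.inl ⟨hwD, rfl⟩⟩⟩
      · obtain ⟨d, hd, hwd⟩ := h.dom w v (mem_Nb.1 hw).symm hwD
        exact ⟨d, fun _ => ⟨hd, Or.inr ⟨hwD, hwd⟩⟩⟩
    · exact ⟨v, fun hc => absurd hc hw⟩
  choose m hm using hex
  have hmaps : Set.MapsTo m (Nb H v : Set V) (D : Set V) := fun w hw => (hm w hw).1
  have hinj : Set.InjOn m (Nb H v : Set V) := by
    intro w hw w' hw' heq
    have a1 := mem_Nb.1 hw
    have a2 := mem_Nb.1 hw'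
    obtain ⟨_, h1⟩ := hm w hw
    obtain ⟨hd, h2⟩ := hm w' hw'
    by_contra hne
    rcases h1 with ⟨b1, b2⟩ | ⟨b1, b2⟩ <;> rcases h2 with ⟨b3, b4⟩ | ⟨b3, b4⟩
    · exact hne (by rw [← b2, ← b4, heq])
    · rw [← heq, b2] at b4
      exact h.g.tri v w w' a1 b4.symm a2.symm
    · rw [heq, b4] at b2
      exact h.g.tri v w w' a1 b2 a2.symm
    · rw [heq] at b2
      exact h.g.quad v w (m w') w' (fun hc => hv (hc ▸ hd)) hne a1 b2 b4.symm a2.symm
  have h1 := card_le_card_of_injOn m hmaps hinj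
  have h2 := h.d3 v u hu
  have h3 := h.c3
  refine ⟨by omega, by omega, fun d hd => ?_⟩
  have hs := surjOn_of_injOn_of_card_le m hmaps hinj (by omega)
  obtain ⟨w, hw, hwd⟩ := hs hd
  obtain ⟨_, h4⟩ := hm w hw
  rw [hwd] at h4
  rcases h4 with ⟨b1, b2⟩ | ⟨b1, b2⟩
  · exact Or.inl (b2 ▸ mem_Nb.1 hw)
  · exact Or.inr ⟨w, b1, mem_Nb.1 hw, b2⟩

/-- a neighbour outside of the dominating set -/
theorem KD.out (h : KD H D) {v u : V} (hu : H.Adj v u) (hv : v ∈ D) : ∃ w, w ∉ D ∧ H.Adj v w := by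
  by_contra hcon
  push Not at hcon
  have h1 : Nb H v ⊆ D.erase v := by
    intro w hw
    have hw' := mem_Nb.1 hw
    refine mem_erase.2 ⟨hw'.ne', ?_⟩
    by_contra hwD
    exact hcon w hwD hw'
  have h2 := card_le_card h1
  rw [card_erase_of_mem hv] at h2
  have := h.d3 v u hu
  have := h.c3
  omega

theorem KD.hub (h : KD H D) {d d' : V} (hd : d ∈ D) (hd' : d' ∈ D) : ¬ H.Adj d d' := by
  intro hadj
  obtain ⟨v, hv, hvd⟩ := h.out hadj hd
  rcases (h.card3 hv hvd.symm).2.2 d' hd' with h1 | ⟨w, hw, h1, h2⟩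
  · exact h.g.tri v d d' hvd.symm hadj h1.symm
  · exact h.g.quad v w d' d (fun hc => hv (hc ▸ hd')) (fun hc => hw (hc ▸ hd)) h1 h2 hadj.symm hvd

theorem KD.all (h : KD H D) {v d d' : V} (hv : v ∉ D) (hd : d ∈ D) (hd' : d' ∈ D) (hne : d ≠ d')
    (h1 : H.Adj v d) (h2 : H.Adj v d') : ∀ e ∈ D, H.Adj v e := by
  classical
  intro e he
  by_contra hve
  have h3 := (h.card3 hv h1).1
  have hed : e ≠ d := fun hc => hve (hc ▸ h1)
  have hed' : e ≠ d' := fun hc => hve (hc ▸ h2)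
  have hD : ∀ x ∈ D, x = d ∨ x = d' ∨ x = e := by
    intro x hx
    by_contra hcon
    push Not at hcon
    have h4 : ({x, d, d', e} : Finset V) ⊆ D := by
      intro y hy
      simp only [mem_insert, mem_singleton] at hy
      rcases hy with rfl | rfl | rfl | rfl <;> assumption
    have h5 := card_le_card h4
    rw [card_insert_of_notMem (by simp [hcon.1, hcon.2.1, hcon.2.2]),
      card_insert_of_notMem (by simp [hne, hed.symm]), card_pair hed'.symm] at h5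
    omega
  obtain ⟨w, hw, h4, h5⟩ := ((h.card3 hv h1).2.2 e he).resolve_left hve
  have h6 : Nb H w ⊆ {e, v} := by
    intro y hy
    have hy' := mem_Nb.1 hy
    rw [mem_insert, mem_singleton]
    by_contra hcon
    push Not at hcon
    by_cases hyD : y ∈ D
    · rcases hD y hyD with rfl | rfl | rfl
      · exact h.g.tri v w y h4 hy' h1.symm
      · exact h.g.tri v w y h4 hy' h2.symm
      · exact hcon.1 rfl
    · obtain ⟨x, hx, hyx⟩ := h.dom y w hy'.symm hyD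
      rcases hD x hx with rfl | rfl | rfl
      · exact h.g.quad v w y x hcon.2.symm (fun hc => hw (hc ▸ hd)) h4 hy' hyx h1.symm
      · exact h.g.quad v w y x hcon.2.symm (fun hc => hw (hc ▸ hd')) h4 hy' hyx h2.symm
      · exact h.g.tri w y x hy' hyx h5.symm
  have h7 := card_le_card h6
  have h8 := card_le_two (a := e) (b := v)
  have h9 := h.d3 w e h5
  omega

open Classical in
/-- the vertices outside of `D` whose only neighbour in `D` is `d` -/
noncomputable def Ty (H : SimpleGraph V) (D : Finset V) (d : V) : Finset V :=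
  univ.filter (fun v => v ∉ D ∧ H.Adj v d ∧ ∀ d' ∈ D, d' ≠ d → ¬ H.Adj v d')

open Classical in
/-- the vertices outside of `D` adjacent to all vertices of `D` -/
noncomputable def XX (H : SimpleGraph V) (D : Finset V) : Finset V :=
  univ.filter (fun v => v ∉ D ∧ ∀ d ∈ D, H.Adj v d)

theorem mem_Ty {v d : V} :
    v ∈ Ty H D d ↔ v ∉ D ∧ H.Adj v d ∧ ∀ d' ∈ D, d' ≠ d → ¬ H.Adj v d' := by
  classical
  unfold Ty
  rw [mem_filter]
  exact ⟨fun h => h.2, fun h => ⟨mem_univ _, h⟩⟩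

theorem mem_XX {v : V} : v ∈ XX H D ↔ v ∉ D ∧ ∀ d ∈ D, H.Adj v d := by
  classical
  unfold XX
  rw [mem_filter]
  exact ⟨fun h => h.2, fun h => ⟨mem_univ _, h⟩⟩

theorem KD.cases (h : KD H D) {v u : V} (hv : v ∉ D) (hu : H.Adj v u) :
    v ∈ XX H D ∨ ∃ d ∈ D, v ∈ Ty H D d := by
  obtain ⟨d, hd, hvd⟩ := h.dom v u hu hv
  by_cases h1 : ∃ d' ∈ D, d' ≠ d ∧ H.Adj v d'
  · obtain ⟨d', hd', hne, h2⟩ := h1
    exact Or.inl (mem_XX.2 ⟨hv, h.all hv hd' hd hne h2 hvd⟩)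
  · push Not at h1
    exact Or.inr ⟨d, hd, mem_Ty.2 ⟨hv, hvd, h1⟩⟩

theorem ty_unique {v d d' : V} (hd : d ∈ D) (h : v ∈ Ty H D d) (h' : v ∈ Ty H D d') : d = d' := by
  by_contra hne
  exact (mem_Ty.1 h').2.2 d hd hne (mem_Ty.1 h).2.1

theorem KD.ex (h : KD H D) {v d d' : V} (hd' : d' ∈ D) (hne : d' ≠ d)
    (hv : v ∈ Ty H D d) : ∃ w ∈ Ty H D d', H.Adj v w := by
  obtain ⟨h1, h2, h3⟩ := mem_Ty.1 hv
  obtain ⟨w, hw, h4, h5⟩ := ((h.card3 h1 h2).2.2 d' hd').resolve_left (h3 d' hd' hne)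
  refine ⟨w, ?_, h4⟩
  rcases h.cases hw h4.symm with h6 | ⟨e, he, h6⟩
  · by_cases hd : d ∈ D
    · exact absurd (h.g.tri v w d h4 ((mem_XX.1 h6).2 d hd) h2.symm) id
    · exfalso
      obtain ⟨e, he, h7⟩ := h.dom v d h2 h1
      exact h3 e he (fun hc => hd (hc ▸ he)) h7
  · by_cases h7 : e = d'
    · exact h7 ▸ h6
    · exact absurd h5 ((mem_Ty.1 h6).2.2 d' hd' (Ne.symm h7))

theorem KD.uniq (h : KD H D) {v d w w' : V} (hd : d ∈ D) (hv : v ∉ D) (h1 : H.Adj v w)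
    (h2 : H.Adj v w') (h3 : H.Adj w d) (h4 : H.Adj w' d) : w = w' := by
  by_contra hne
  exact h.g.quad v w d w' (fun hc => hv (hc ▸ hd)) hne h1 h3 h4.symm h2.symm

theorem KD.xx (h : KD H D) {x x' d d' : V} (hd : d ∈ D) (hd' : d' ∈ D) (hne : d ≠ d')
    (hx : x ∈ XX H D) (hx' : x' ∈ XX H D) : x = x' := by
  by_contra hxx
  have h1 := (mem_XX.1 hx).2
  have h2 := (mem_XX.1 hx').2
  exact h.g.quad x d x' d' hxx hne (h1 d hd) (h2 d hd).symm (h2 d' hd') (h1 d' hd').symm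

theorem KD.nb_xx (h : KD H D) {x : V} (hx : x ∈ XX H D) : Nb H x = D := by
  ext u
  rw [mem_Nb]
  obtain ⟨h1, h2⟩ := mem_XX.1 hx
  constructor
  · intro hu
    by_contra huD
    obtain ⟨d, hd, hud⟩ := h.dom u x hu.symm huD
    exact h.g.tri x u d hu hud (h2 d hd).symm
  · exact h2 u

theorem KD.nb_hub (h : KD H D) {d : V} (hd : d ∈ D) : Nb H d = Ty H D d ∪ XX H D := by
  ext u
  rw [mem_Nb, mem_union]
  constructor
  · intro hu
    have huD : u ∉ D := fun hc => h.hub hd hc hu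
    rcases h.cases huD hu.symm with h1 | ⟨e, he, h1⟩
    · exact Or.inr h1
    · by_cases h2 : e = d
      · exact Or.inl (h2 ▸ h1)
      · exact absurd hu.symm ((mem_Ty.1 h1).2.2 d hd (Ne.symm h2))
  · rintro (h1 | h1)
    · exact (mem_Ty.1 h1).2.1.symm
    · exact ((mem_XX.1 h1).2 d hd).symm

theorem disj_ty_xx {d d' : V} (hd' : d' ∈ D) (hne : d' ≠ d) : Disjoint (Ty H D d) (XX H D) := by
  rw [disjoint_left]
  intro v h1 h2
  exact (mem_Ty.1 h1).2.2 d' hd' hne ((mem_XX.1 h2).2 d' hd')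

end Pool.Agent.Q163.FL
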