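import Pool.Agent.Q163.FL.Dom

/-!
Flows of the graphs of girth at least five with minimum degree at least three which are dominated by
three vertices.
-/

set_option autoImplicit false
set_option linter.unusedSectionVars false

namespace Pool.Agent.Q163.FL

open Finset Pool.Agent.TH362.TF

variable {V : Type} [Fintype V] [DecidableEq V] {H : SimpleGraph V} {D : Finset V}

theorem dbl (x : F) : x + x = 0 := by
  revert x; decide

/-- a cyclic permutation of the three vertices of `D` -/
structure Sc (D : Finset V) (sc : V → V) : Prop where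
  m : ∀ d ∈ D, sc d ∈ D
  n1 : ∀ d ∈ D, sc d ≠ d
  n2 : ∀ d ∈ D, sc (sc d) ≠ d
  c : ∀ d ∈ D, sc (sc (sc d)) = d
  all : ∀ d ∈ D, ∀ e ∈ D, e = d ∨ e = sc d ∨ e = sc (sc d)

/-- next and previous vertex on the circuits outside of `D` -/
structure NP (H : SimpleGraph V) (D : Finset V) (sc nx pv : V → V) : Prop where
  nm : ∀ d ∈ D, ∀ v ∈ Ty H D d, nx v ∈ Ty H D (sc d)
  na : ∀ d ∈ D, ∀ v ∈ Ty H D d, H.Adj v (nx v)
  pm : ∀ d ∈ D, ∀ v ∈ Ty H D d, pv v ∈ Ty H D (sc (sc d))
  pa : ∀ d ∈ D, ∀ v ∈ Ty H D d, H.Adj v (pv v)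
  pn : ∀ d ∈ D, ∀ v ∈ Ty H D d, pv (nx v) = v
  np : ∀ d ∈ D, ∀ v ∈ Ty H D d, nx (pv v) = v
  nb : ∀ d ∈ D, ∀ v ∈ Ty H D d, Nb H v = {d, nx v, pv v}

theorem KD.exists_np (h : KD H D) {sc : V → V} (k : Sc D sc) : ∃ nx pv, NP H D sc nx pv := by
  classical
  have h1 : ∀ v, ∃ w, ∀ d ∈ D, v ∈ Ty H D d → w ∈ Ty H D (sc d) ∧ H.Adj v w := by
    intro v
    by_cases hv : ∃ d ∈ D, v ∈ Ty H D d
    · obtain ⟨d, hd, hvd⟩ := hv
      obtain ⟨w, hw, hvw⟩ := h.ex (k.m d hd) (k.n1 d hd) hvd
      exact ⟨w, fun e he hve => ty_unique hd hvd hve ▸ ⟨hw, hvw⟩⟩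
    · exact ⟨v, fun d hd hvd => absurd ⟨d, hd, hvd⟩ hv⟩
  have h2 : ∀ v, ∃ w, ∀ d ∈ D, v ∈ Ty H D d → w ∈ Ty H D (sc (sc d)) ∧ H.Adj v w := by
    intro v
    by_cases hv : ∃ d ∈ D, v ∈ Ty H D d
    · obtain ⟨d, hd, hvd⟩ := hv
      obtain ⟨w, hw, hvw⟩ := h.ex (k.m _ (k.m d hd)) (k.n2 d hd) hvd
      exact ⟨w, fun e he hve => ty_unique hd hvd hve ▸ ⟨hw, hvw⟩⟩
    · exact ⟨v, fun d hd hvd => absurd ⟨d, hd, hvd⟩ hv⟩
  choose nx hnx using h1
  choose pv hpv using h2
  refine ⟨nx, pv, fun d hd v hv => (hnx v d hd hv).1, fun d hd v hv => (hnx v d hd hv).2,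
    fun d hd v hv => (hpv v d hd hv).1, fun d hd v hv => (hpv v d hd hv).2, ?_, ?_, ?_⟩
  · intro d hd v hv
    obtain ⟨a1, a2⟩ := hnx v d hd hv
    obtain ⟨a3, a4⟩ := hpv (nx v) (sc d) (k.m d hd) a1
    rw [k.c d hd] at a3
    exact (h.uniq hd (mem_Ty.1 a1).1 a2.symm a4 (mem_Ty.1 hv).2.1 (mem_Ty.1 a3).2.1).symm
  · intro d hd v hv
    obtain ⟨a1, a2⟩ := hpv v d hd hv
    obtain ⟨a3, a4⟩ := hnx (pv v) (sc (sc d)) (k.m _ (k.m d hd)) a1
    rw [k.c d hd] at a3
    exact (h.uniq hd (mem_Ty.1 a1).1 a2.symm a4 (mem_Ty.1 hv).2.1 (mem_Ty.1 a3).2.1).symm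
  · intro d hd v hv
    obtain ⟨a1, a2⟩ := hnx v d hd hv
    obtain ⟨a3, a4⟩ := hpv v d hd hv
    obtain ⟨b1, b2, b3⟩ := mem_Ty.1 hv
    ext u
    rw [mem_Nb, mem_insert, mem_insert, mem_singleton]
    constructor
    · intro hu
      by_cases huD : u ∈ D
      · left
        by_contra hne
        exact b3 u huD hne hu
      · rcases h.cases huD hu.symm with h3 | ⟨e, he, h3⟩
        · exact absurd (h.g.tri v u d hu ((mem_XX.1 h3).2 d hd) b2.symm) id
        · rcases k.all d hd e he with rfl | rfl | rfl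
          · exact absurd (h.g.tri v u e hu (mem_Ty.1 h3).2.1 b2.symm) id
          · exact Or.inr (Or.inl (h.uniq he b1 hu a2 (mem_Ty.1 h3).2.1 (mem_Ty.1 a1).2.1))
          · exact Or.inr (Or.inr (h.uniq he b1 hu a4 (mem_Ty.1 h3).2.1 (mem_Ty.1 a3).2.1))
    · rintro (rfl | rfl | rfl)
      · exact b2
      · exact a2
      · exact a4

theorem KD.sf (h : KD H D) {sc nx pv : V → V} (k : Sc D sc) (np : NP H D sc nx pv) (o : V → F)
    (ho : ∀ d ∈ D, ∀ v ∈ Ty H D d, o v ≠ 0 ∧ o v ≠ o (pv v))
    (hT : (XX H D = ∅ ∧ ∀ d ∈ D, ∑ v ∈ Ty H D d, o v = ∑ v ∈ Ty H D (sc d), o v) ∨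
      ((XX H D).card = 1 ∧ ∀ d ∈ D, ∑ v ∈ Ty H D d, o v ≠ ∑ v ∈ Ty H D (sc d), o v)) : SF H := by
  classical
  set T : V → F := fun d => ∑ v ∈ Ty H D d, o v with hTdef
  have hsh : ∀ d ∈ D, ∑ v ∈ Ty H D d, o (pv v) = T (sc (sc d)) := by
    intro d hd
    refine sum_nbij' pv nx (fun v hv => np.pm d hd v hv) (fun v hv => ?_) (fun v hv => np.np d hd v hv)
      (fun v hv => np.pn _ (k.m _ (k.m d hd)) v hv) (fun v _ => rfl)
    have := np.nm _ (k.m _ (k.m d hd)) v hv
    rwa [k.c d hd] at this
  have hhub : ∀ d ∈ D, ∑ v ∈ Ty H D d, (o v + o (pv v)) = T d + T (sc (sc d)) := by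
    intro d hd
    rw [sum_add_distrib, hsh d hd]
  -- the values
  refine ⟨fun u v => if u ∈ D then (if v ∈ XX H D then T u + T (sc (sc u)) else o v + o (pv v))
    else if v ∈ D then (if u ∈ XX H D then T v + T (sc (sc v)) else o u + o (pv u))
    else if v = nx u then o u else o v, ?_, ?_, ?_⟩
  · intro u v huv
    beta_reduce
    by_cases hu : u ∈ D
    · have hv : v ∉ D := fun hc => h.hub hu hc huv
      rw [if_pos hu, if_neg hv, if_pos hu]
    · by_cases hv : v ∈ D
      · rw [if_neg hu, if_pos hv, if_pos hv]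
      · rw [if_neg hu, if_neg hv, if_neg hv, if_neg hu]
        rcases h.cases hu huv with hx | ⟨d, hd, hud⟩
        · have := mem_Nb.2 huv
          rw [h.nb_xx hx] at this
          exact absurd this hv
        have h1 := mem_Nb.2 huv
        rw [np.nb d hd u hud, mem_insert, mem_insert, mem_singleton] at h1
        rcases h1 with rfl | rfl | rfl
        · exact absurd hd hv
        · rw [if_pos rfl]
          have h2 : u ≠ nx (nx u) := by
            intro hc
            have h3 := np.nm _ (k.m d hd) _ (np.nm d hd u hud)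
            rw [← hc] at h3
            exact k.n2 d hd (ty_unique hd hud h3).symm
          rw [if_neg h2]
        · have h2 : pv u ≠ nx u := by
            intro hc
            have h3 := np.nm d hd u hud
            have h4 := np.pm d hd u hud
            rw [hc] at h4
            exact k.n1 _ (k.m d hd) (ty_unique (k.m d hd) h3 h4).symm
          rw [if_neg h2, np.np d hd u hud, if_pos rfl]
  · intro u v huv
    beta_reduce
    have key : ∀ x d, d ∈ D → H.Adj x d → x ∉ D → (if x ∈ XX H D then T d + T (sc (sc d))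
        else o x + o (pv x)) ≠ 0 := by
      intro x d hd hxd hx
      by_cases hxx : x ∈ XX H D
      · rw [if_pos hxx]
        rcases hT with ⟨h1, _⟩ | ⟨_, h1⟩
        · rw [h1] at hxx
          exact absurd hxx (notMem_empty x)
        · intro hc
          have h2 := h1 _ (k.m _ (k.m d hd))
          rw [k.c d hd] at h2
          exact h2 (Q116.FF.eq_of_addF hc).symm
      · rw [if_neg hxx]
        rcases h.cases hx hxd with h1 | ⟨e, he, h1⟩
        · exact absurd h1 hxx
        · intro hc
          exact (ho e he x h1).2 (Q116.FF.eq_of_addF hc)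
    by_cases hu : u ∈ D
    · have hv : v ∉ D := fun hc => h.hub hu hc huv
      rw [if_pos hu]
      exact key v u hu huv.symm hv
    · by_cases hv : v ∈ D
      · rw [if_neg hu, if_pos hv]
        exact key u v hv huv hu
      · rw [if_neg hu, if_neg hv]
        rcases h.cases hu huv with hx | ⟨d, hd, hud⟩
        · have := mem_Nb.2 huv
          rw [h.nb_xx hx] at this
          exact absurd this hv
        have h1 := mem_Nb.2 huv
        rw [np.nb d hd u hud, mem_insert, mem_insert, mem_singleton] at h1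
        rcases h1 with rfl | rfl | rfl
        · exact absurd hd hv
        · rw [if_pos rfl]
          exact (ho d hd u hud).1
        · split_ifs
          · exact (ho d hd u hud).1
          · exact (ho _ (k.m _ (k.m d hd)) _ (np.pm d hd u hud)).1
  · intro v
    by_cases hv : v ∈ D
    · obtain ⟨d', hd', hne⟩ : ∃ d' ∈ D, d' ≠ v := ⟨sc v, k.m v hv, k.n1 v hv⟩
      rw [h.nb_hub hv, sum_union (disj_ty_xx hd' hne)]
      have h1 : ∑ u ∈ Ty H D v, (if v ∈ D then (if u ∈ XX H D then T v + T (sc (sc v))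
          else o u + o (pv u)) else if u ∈ D then (if v ∈ XX H D then T u + T (sc (sc u))
          else o v + o (pv v)) else if u = nx v then o v else o u) = T v + T (sc (sc v)) := by
        rw [← hhub v hv]
        refine sum_congr rfl fun u hu => ?_
        rw [if_pos hv, if_neg]
        exact fun hc => disjoint_left.1 (disj_ty_xx hd' hne) hu hc
      have h2 : ∑ u ∈ XX H D, (if v ∈ D then (if u ∈ XX H D then T v + T (sc (sc v))
          else o u + o (pv u)) else if u ∈ D then (if v ∈ XX H D then T u + T (sc (sc u))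
          else o v + o (pv v)) else if u = nx v then o v else o u) =
          (XX H D).card • (T v + T (sc (sc v))) := by
        rw [← sum_const]
        refine sum_congr rfl fun u hu => ?_
        rw [if_pos hv, if_pos hu]
      rw [h1, h2]
      rcases hT with ⟨h3, h4⟩ | ⟨h3, _⟩
      · have h5 := h4 v hv
        have h6 := h4 _ (k.m v hv)
        rw [h3, card_empty, zero_smul, add_zero]
        show T v + T (sc (sc v)) = 0
        rw [show T v = T (sc (sc v)) from h5.trans h6]
        exact dbl _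
      · rw [h3, one_smul]
        exact dbl _
    · by_cases hiso : ∃ u, H.Adj v u
      · obtain ⟨u, hu⟩ := hiso
        rcases h.cases hv hu with hx | ⟨d, hd, hvd⟩
        · rw [h.nb_xx hx]
          have h1 : ∑ u ∈ D, (if v ∈ D then (if u ∈ XX H D then T v + T (sc (sc v))
              else o u + o (pv u)) else if u ∈ D then (if v ∈ XX H D then T u + T (sc (sc u))
              else o v + o (pv v)) else if u = nx v then o v else o u) =
              ∑ u ∈ D, (T u + T (sc (sc u))) := by
            refine sum_congr rfl fun u hu => ?_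
            rw [if_neg hv, if_pos hu, if_pos hx]
          rw [h1, sum_add_distrib]
          have h2 : ∑ u ∈ D, T (sc (sc u)) = ∑ u ∈ D, T u :=
            sum_nbij' (fun u => sc (sc u)) sc (fun u hu => k.m _ (k.m u hu)) (fun u hu => k.m u hu)
              (fun u hu => k.c u hu) (fun u hu => k.c u hu) (fun u _ => rfl)
          rw [h2]
          exact dbl _
        · have hvx : v ∉ XX H D := by
            intro hc
            exact (mem_Ty.1 hvd).2.2 (sc d) (k.m d hd) (k.n1 d hd) ((mem_XX.1 hc).2 _ (k.m d hd))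
          have m1 := np.nm d hd v hvd
          have m2 := np.pm d hd v hvd
          have n1 := (mem_Ty.1 m1).1
          have n2 := (mem_Ty.1 m2).1
          have h2 : pv v ≠ nx v := by
            intro hc
            rw [hc] at m2
            exact k.n1 _ (k.m d hd) (ty_unique (k.m d hd) m1 m2).symm
          rw [np.nb d hd v hvd, sum_insert, sum_insert, sum_singleton]
          · beta_reduce
            rw [if_neg hv, if_pos hd, if_neg hvx, if_neg hv, if_neg n1, if_pos rfl, if_neg hv,
              if_neg n2, if_neg h2]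
            have : ∀ x y : F, x + y + (x + y) = 0 := by decide
            exact this _ _
          · rw [mem_singleton]
            exact h2.symm
          · rw [mem_insert, mem_singleton]
            rintro (rfl | rfl)
            · exact n1 hd
            · exact n2 hd
      · rw [show Nb H v = ∅ from ?_, sum_empty]
        rw [eq_empty_iff_forall_notMem]
        intro u hu
        exact hiso ⟨u, mem_Nb.1 hu⟩

end Pool.Agent.Q163.FL
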