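import Pool.Agent.Q163.FL.Dom2

/-!
Bridgeless multigraphs whose vertices are dominated by three vertices.
-/

set_option autoImplicit false
set_option linter.unusedSectionVars false

namespace Pool.Agent.Q163.FL

open Finset Pool.Agent.TH362.TF

section

variable {V : Type} [Fintype V] [DecidableEq V] {H : SimpleGraph V} {D : Finset V}

theorem KD.main (h : KD H D) : SF H ∨ (Q116.FF.oddV H univ).card ≤ 16 := by
  classical
  by_cases hE : ∃ v u, H.Adj v u
  swap
  · left
    refine ⟨fun _ _ => 0, fun _ _ _ => rfl, fun u v huv => absurd ⟨u, v, huv⟩ hE, fun v => ?_⟩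
    exact sum_const_zero
  obtain ⟨v0, u0, h0⟩ := hE
  have hc3 : D.card = 3 := by
    by_cases hv : v0 ∈ D
    · obtain ⟨w, hw, hw2⟩ := h.out h0 hv
      exact (h.card3 hw hw2.symm).1
    · exact (h.card3 hv h0).1
  obtain ⟨a, b, c, hab, hac, hbc, hD⟩ := card_eq_three.1 hc3
  have ha : a ∈ D := by rw [hD]; simp
  have hb : b ∈ D := by rw [hD]; simp
  have hc : c ∈ D := by rw [hD]; simp
  set sc : V → V := fun d => if d = a then b else if d = b then c else a with hsc
  have sa : sc a = b := by rw [hsc]; simp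
  have sb : sc b = c := by
    rw [hsc]; beta_reduce; rw [if_neg hab.symm, if_pos rfl]
  have s3 : sc c = a := by
    rw [hsc]; beta_reduce; rw [if_neg hac.symm, if_neg hbc.symm]
  have hall : ∀ d ∈ D, d = a ∨ d = b ∨ d = c := by
    intro d hd
    rw [hD] at hd
    simpa using hd
  have k : Sc D sc := by
    refine ⟨?_, ?_, ?_, ?_, ?_⟩
    · intro d hd
      rcases hall d hd with rfl | rfl | rfl
      · rw [sa]; exact hb
      · rw [sb]; exact hc
      · rw [s3]; exact ha
    · intro d hd
      rcases hall d hd with rfl | rfl | rfl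
      · rw [sa]; exact hab.symm
      · rw [sb]; exact hbc.symm
      · rw [s3]; exact hac
    · intro d hd
      rcases hall d hd with rfl | rfl | rfl
      · rw [sa, sb]; exact hac.symm
      · rw [sb, s3]; exact hab
      · rw [s3, sa]; exact hbc
    · intro d hd
      rcases hall d hd with rfl | rfl | rfl
      · rw [sa, sb, s3]
      · rw [sb, s3, sa]
      · rw [s3, sa, sb]
    · intro d hd e he
      rcases hall d hd with rfl | rfl | rfl <;> rcases hall e he with rfl | rfl | rfl
      · exact Or.inl rfl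
      · exact Or.inr (Or.inl sa.symm)
      · exact Or.inr (Or.inr (by rw [sa, sb]))
      · exact Or.inr (Or.inr (by rw [sb, s3]))
      · exact Or.inl rfl
      · exact Or.inr (Or.inl sb.symm)
      · exact Or.inr (Or.inl s3.symm)
      · exact Or.inr (Or.inr (by rw [s3, sa]))
      · exact Or.inl rfl
  obtain ⟨nx, pv, np⟩ := h.exists_np k
  have hx1 : (XX H D).card ≤ 1 := card_le_one.2 fun x hx y hy => h.xx ha hb hab hx hy
  have cardb : (Ty H D b).card = (Ty H D a).card := by
    refine card_nbij' pv nx (fun v hv => ?_) (fun v hv => ?_) (fun v hv => np.np b hb v hv)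
      (fun v hv => np.pn a ha v hv)
    · have := np.pm b hb v hv
      rwa [sb, s3] at this
    · have := np.nm a ha v hv
      rwa [sa] at this
  have cardc : (Ty H D c).card = (Ty H D b).card := by
    refine card_nbij' pv nx (fun v hv => ?_) (fun v hv => ?_) (fun v hv => np.np c hc v hv)
      (fun v hv => np.pn b hb v hv)
    · have := np.pm c hc v hv
      rwa [s3, sa] at this
    · have := np.nm b hb v hv
      rwa [sb] at this
  by_cases hA : (Ty H D a).card ≤ 4
  · right
    have hsub : Q116.FF.oddV H univ ⊆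
        D ∪ (XX H D ∪ (Ty H D a ∪ (Ty H D b ∪ Ty H D c))) := by
      intro v hv
      rw [Q116.FF.mem_oddV] at hv
      have hne : (Nb H v).Nonempty := by
        rw [← card_pos]
        exact hv.2.pos
      obtain ⟨u, hu⟩ := hne
      have hu' := mem_Nb.1 hu
      by_cases hvD : v ∈ D
      · exact mem_union_left _ hvD
      · refine mem_union_right _ ?_
        rcases h.cases hvD hu' with h1 | ⟨d, hd, h1⟩
        · exact mem_union_left _ h1
        · refine mem_union_right _ ?_
          rcases hall d hd with rfl | rfl | rfl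
          · exact mem_union_left _ h1
          · exact mem_union_right _ (mem_union_left _ h1)
          · exact mem_union_right _ (mem_union_right _ h1)
    have h1 := card_le_card hsub
    have h2 := card_union_le D (XX H D ∪ (Ty H D a ∪ (Ty H D b ∪ Ty H D c)))
    have h3 := card_union_le (XX H D) (Ty H D a ∪ (Ty H D b ∪ Ty H D c))
    have h4 := card_union_le (Ty H D a) (Ty H D b ∪ Ty H D c)
    have h5 := card_union_le (Ty H D b) (Ty H D c)
    omega
  left
  push Not at hA
  set σ : V → V := fun v => nx (nx (nx v)) with hσdef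
  have n2 : ∀ v ∈ Ty H D a, nx (nx v) ∈ Ty H D c := by
    intro v hv
    have h1 := np.nm a ha v hv
    rw [sa] at h1
    have h2 := np.nm b hb _ h1
    rwa [sb] at h2
  have n1 : ∀ v ∈ Ty H D a, nx v ∈ Ty H D b := by
    intro v hv
    have h1 := np.nm a ha v hv
    rwa [sa] at h1
  have hσ : ∀ v ∈ Ty H D a, σ v ∈ Ty H D a := by
    intro v hv
    have h2 := np.nm c hc _ (n2 v hv)
    rwa [s3] at h2
  have hpσ : ∀ v ∈ Ty H D a, pv (pv (pv (σ v))) = v := by
    intro v hv
    rw [hσdef]
    beta_reduce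
    rw [np.pn c hc _ (n2 v hv), np.pn b hb _ (n1 v hv), np.pn a ha v hv]
  have hi : ∀ u ∈ Ty H D a, ∀ v ∈ Ty H D a, σ u = σ v → u = v := by
    intro u hu v hv huv
    rw [← hpσ u hu, huv, hpσ v hv]
  have hf : ∀ v ∈ Ty H D a, σ v ≠ v := by
    intro v hv hc'
    have h1 := np.na a ha v hv
    have h2 := np.na b hb _ (n1 v hv)
    have h3 := np.na c hc _ (n2 v hv)
    rw [show nx (nx (nx v)) = v from hc'] at h3
    exact h.g.tri _ _ _ h1 h2 h3
  -- the values from a colouring of the blocks
  have main : ∀ g1 g2 g3 : V → F, Col (Ty H D a) σ g1 g2 g3 → ∃ o : V → F,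
      (∀ d ∈ D, ∀ v ∈ Ty H D d, o v ≠ 0 ∧ o v ≠ o (pv v)) ∧
      ∑ v ∈ Ty H D a, o v = ∑ v ∈ Ty H D a, g1 v ∧
      ∑ v ∈ Ty H D b, o v = ∑ v ∈ Ty H D a, g2 v ∧
      ∑ v ∈ Ty H D c, o v = ∑ v ∈ Ty H D a, g3 v := by
    intro g1 g2 g3 hg
    have oa : ∀ v ∈ Ty H D a, (if v ∈ Ty H D a then g1 v else if v ∈ Ty H D b then g2 (pv v)
        else g3 (pv (pv v))) = g1 v := fun v hv => if_pos hv
    have ob : ∀ v ∈ Ty H D b, (if v ∈ Ty H D a then g1 v else if v ∈ Ty H D b then g2 (pv v)
        else g3 (pv (pv v))) = g2 (pv v) := by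
      intro v hv
      rw [if_neg (fun hh => hab (ty_unique ha hh hv)), if_pos hv]
    have oc : ∀ v ∈ Ty H D c, (if v ∈ Ty H D a then g1 v else if v ∈ Ty H D b then g2 (pv v)
        else g3 (pv (pv v))) = g3 (pv (pv v)) := by
      intro v hv
      rw [if_neg (fun hh => hac (ty_unique ha hh hv)), if_neg (fun hh => hbc (ty_unique hb hh hv))]
    refine ⟨fun v => if v ∈ Ty H D a then g1 v else if v ∈ Ty H D b then g2 (pv v)
        else g3 (pv (pv v)), ?_, ?_, ?_, ?_⟩
    · intro d hd v hv
      refine ⟨?_, ?_⟩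
      · beta_reduce
        split_ifs
        · exact hg.n1 _
        · exact hg.n2 _
        · exact hg.n3 _
      · have hp := np.pm d hd v hv
        beta_reduce
        rcases hall d hd with rfl | rfl | rfl
        · rw [sa, sb] at hp
          rw [oa v hv, oc _ hp]
          have hp2 := np.pm c hc _ hp
          rw [s3, sa] at hp2
          have hp3 := np.pm b hb _ hp2
          rw [sb, s3] at hp3
          have h31 := hg.h31 _ hp3
          have h5 : σ (pv (pv (pv v))) = v := by
            rw [hσdef]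
            beta_reduce
            rw [np.np b hb _ hp2, np.np c hc _ hp, np.np _ ha v hv]
          rw [h5] at h31
          exact h31.symm
        · rw [sb, s3] at hp
          rw [ob v hv, oa _ hp]
          exact (hg.h12 _).symm
        · rw [s3, sa] at hp
          rw [oc v hv, ob _ hp]
          exact (hg.h23 _).symm
    · exact sum_congr rfl fun v hv => oa v hv
    · rw [sum_congr rfl fun v hv => ob v hv]
      refine sum_nbij' pv nx (fun v hv => ?_) (fun v hv => n1 v hv) (fun v hv => np.np b hb v hv)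
        (fun v hv => np.pn a ha v hv) (fun v _ => rfl)
      have := np.pm b hb v hv
      rwa [sb, s3] at this
    · rw [sum_congr rfl fun v hv => oc v hv]
      have hp1 : ∀ v ∈ Ty H D c, pv v ∈ Ty H D b := by
        intro v hv
        have := np.pm c hc v hv
        rwa [s3, sa] at this
      refine sum_nbij' (fun v => pv (pv v)) (fun v => nx (nx v)) (fun v hv => ?_)
        (fun v hv => n2 v hv) (fun v hv => ?_) (fun v hv => ?_) (fun v _ => rfl)
      · have := np.pm b hb _ (hp1 v hv)
        rwa [sb, s3] at this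
      · beta_reduce
        rw [np.np b hb _ (hp1 v hv), np.np c hc v hv]
      · beta_reduce
        rw [np.pn b hb _ (n1 v hv), np.pn a ha v hv]
  rcases Nat.eq_zero_or_pos (XX H D).card with hX | hX
  · obtain ⟨g1, g2, g3, hg, e1, e2⟩ := comb_eq hσ hi hf
    obtain ⟨o, ho, ta, tb, tc⟩ := main g1 g2 g3 hg
    refine h.sf k np o ho (Or.inl ⟨card_eq_zero.1 hX, fun d hd => ?_⟩)
    rcases hall d hd with rfl | rfl | rfl
    · rw [sa, ta, tb, e1]
    · rw [sb, tb, tc, e2]
    · rw [s3, tc, ta, e1, e2]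
  · obtain ⟨g1, g2, g3, hg, e1, e2, e3⟩ := comb_ne hσ (by omega)
    obtain ⟨o, ho, ta, tb, tc⟩ := main g1 g2 g3 hg
    refine h.sf k np o ho (Or.inr ⟨by omega, fun d hd => ?_⟩)
    rcases hall d hd with rfl | rfl | rfl
    · rw [sa, ta, tb]; exact e1
    · rw [sb, tb, tc]; exact e2
    · rw [s3, tc, ta]; exact e3.symm

end

/-! ### Multigraphs -/

variable {V E : Type} [Fintype V] [DecidableEq V] [DecidableEq E]

theorem cut_ends {s t : E → V} {S : Finset E} {v : V} {e : E} :
    e ∈ cut s t S (fun u => decide (u = v)) ↔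
      e ∈ S ∧ Q116.FF.oth s t v e ≠ v ∧ Ends s t v (Q116.FF.oth s t v e) e := by
  unfold cut Q116.FF.oth
  rw [mem_filter]
  by_cases h1 : s e = v
  · rw [if_pos h1]
    constructor
    · rintro ⟨h2, h3⟩
      refine ⟨h2, fun h4 => h3 (by rw [h1, h4]), Or.inl ⟨h1, rfl⟩⟩
    · rintro ⟨h2, h3, _⟩
      exact ⟨h2, fun h4 => h3 (by simpa [h1] using h4)⟩
  · rw [if_neg h1]
    constructor
    · rintro ⟨h2, h3⟩
      have h5 : t e = v := by
        by_contra h6
        exact h3 (by simp [h1, h6])
      exact ⟨h2, h1, Or.inr ⟨rfl, h5⟩⟩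
    · rintro ⟨h2, h3, h4⟩
      refine ⟨h2, ?_⟩
      rcases h4 with ⟨h4, _⟩ | ⟨_, h4⟩
      · exact absurd h4 h1
      · simp [h1, h4]

theorem cons_cut (s t : E → V) (S : Finset E) (φ : E → F) (v : V) :
    ∑ e ∈ S, ((if s e = v then φ e else 0) + (if t e = v then φ e else 0)) =
      ∑ e ∈ cut s t S (fun u => decide (u = v)), φ e := by
  unfold cut
  rw [sum_filter]
  refine sum_congr rfl fun e _ => ?_
  by_cases h1 : s e = v <;> by_cases h2 : t e = v
  · simp [h1, h2, dbl]
  · simp [h1, h2]
  · simp [h1, h2]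
  · simp [h1, h2]

theorem nz_of_sf {s t : E → V} {S : Finset E} (h : Q116.FF.Sm s t S)
    (hf : SF (Q116.FF.gr s t S)) : NZ s t S := by
  classical
  obtain ⟨val, h1, h2, h3⟩ := hf
  have key : ∀ v e, e ∈ cut s t S (fun u => decide (u = v)) →
      Q116.FF.oth s t v e ∈ Nb (Q116.FF.gr s t S) v ∧
      (if s e = t e then ((1, 0) : F) else val (s e) (t e)) = val v (Q116.FF.oth s t v e) := by
    intro v e he
    obtain ⟨a1, a2, a3⟩ := cut_ends.1 he
    have hadj : (Q116.FF.gr s t S).Adj v (Q116.FF.oth s t v e) := ⟨a2.symm, e, a1, a3⟩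
    refine ⟨mem_Nb.2 hadj, ?_⟩
    rcases a3 with ⟨b1, b2⟩ | ⟨b1, b2⟩
    · rw [b1, ← b2, if_neg]
      intro hc
      exact a2 (b2.symm.trans hc.symm)
    · rw [b2, ← b1, if_neg]
      · rw [b1]
        exact (h1 _ _ hadj).symm
      · intro hc
        exact a2 (b1.symm.trans hc)
  refine ⟨fun e => if s e = t e then (1, 0) else val (s e) (t e), fun e he => ?_, fun v => ?_⟩
  · beta_reduce
    split_ifs with h4
    · decide
    · exact h2 _ _ ⟨h4, e, he, Or.inl ⟨rfl, rfl⟩⟩
  · unfold Cons
    rw [cons_cut, ← h3 v]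
    refine sum_bij (fun e _ => Q116.FF.oth s t v e) (fun e he => (key v e he).1) ?_ ?_
      (fun e he => (key v e he).2)
    · intro e he e' he' heq
      obtain ⟨a1, a2, a3⟩ := cut_ends.1 he
      obtain ⟨b1, b2, b3⟩ := cut_ends.1 he'
      rw [← heq] at b3
      exact h.par v _ e e' a2.symm a1 b1 a3 b3
    · intro u hu
      obtain ⟨hne, e, he, k⟩ := mem_Nb.1 hu
      have h4 : Q116.FF.oth s t v e = u := by
        unfold Q116.FF.oth
        rcases k with ⟨h5, h6⟩ | ⟨h5, h6⟩
        · rw [if_pos h5, h6]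
        · rw [if_neg (by rw [h5]; exact hne.symm), h5]
      refine ⟨e, cut_ends.2 ⟨he, ?_, ?_⟩, h4⟩
      · rw [h4]; exact hne.symm
      · rw [h4]; exact k

end Pool.Agent.Q163.FL
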