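import Pool.Agent.Q163.FL.Dom3

/-!
Contraction of edges at vertices of degree two; bridgeless multigraphs whose non-isolated vertices
are dominated by three vertices.
-/

set_option autoImplicit false
set_option linter.unusedSectionVars false

namespace Pool.Agent.Q163.FL

open Finset Pool.Agent.TH362.TF Pool.Agent.TH362.TF.Four

variable {V E : Type} [Fintype V] [DecidableEq V] [DecidableEq E]

theorem nl_le (s t : E → V) (S : Finset E) (f : V → V) :
    Q116.FF.nl (fun e => f (s e)) (fun e => f (t e)) S ≤ Q116.FF.nl s t S := by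
  unfold Q116.FF.nl
  apply card_le_card
  intro e he
  rw [mem_filter] at he ⊢
  exact ⟨he.1, fun hc => he.2 (congrArg f hc)⟩

theorem deg_two {s t : E → V} {S : Finset E} {u v : V} {e1 e2 : E} (huv : u ≠ v)
    (k1 : Ends s t v u e1) (hne : e1 ≠ e2)
    (hcut : cut s t S (fun x => decide (x = v)) = {e1, e2})
    (h : NZ (fun e => Q116.FF.mrg {u, v} u (s e)) (fun e => Q116.FF.mrg {u, v} u (t e)) S) :
    NZ s t S := by
  classical
  obtain ⟨φ, h1, h2⟩ := h
  have hout : ∀ w, w ∉ ({u, v} : Finset V) → B s t S φ w = 0 := fun w hw =>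
    Q116.FF.B_out (T := {u, v}) (a := u) (by simp) h2 hw
  have hin : ∑ w ∈ ({u, v} : Finset V), B s t S φ w = 0 :=
    Q116.FF.B_in (T := {u, v}) (a := u) (by simp) h2
  rw [sum_pair huv] at hin
  have he1 : e1 ∈ S := by
    have : e1 ∈ cut s t S (fun x => decide (x = v)) := by rw [hcut]; simp
    exact (cut_ends.1 this).1
  have he2 : e2 ∈ S := by
    have : e2 ∈ cut s t S (fun x => decide (x = v)) := by rw [hcut]; simp
    exact (cut_ends.1 this).1
  have hBv : B s t S φ v = φ e1 + φ e2 := by
    have h3 := cons_cut s t S φ v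
    rw [hcut, sum_pair hne] at h3
    exact h3
  set δ : F := φ e1 + φ e2 with hδ
  have hlin : ∀ w, B s t S (fun e => if e = e1 then φ e2 else φ e) w =
      B s t S φ w + ((if s e1 = w then δ else 0) + (if t e1 = w then δ else 0)) := by
    intro w
    have h4 : (if s e1 = w then δ else 0) + (if t e1 = w then δ else 0) =
        ∑ e ∈ S, (if e = e1 then ((if s e = w then δ else 0) + (if t e = w then δ else 0))
          else 0) := by
      rw [sum_ite_eq' S e1, if_pos he1]
    rw [h4]
    unfold B
    rw [← sum_add_distrib]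
    refine sum_congr rfl fun e _ => ?_
    by_cases he : e = e1
    · subst he
      beta_reduce
      rw [if_pos rfl, if_pos rfl]
      have h5 : φ e2 = φ e + δ := by
        rw [hδ, ← add_assoc, dbl, zero_add]
      rw [h5]
      split_ifs
      · abel
      · abel
      · abel
      · abel
    · beta_reduce
      rw [if_neg he, if_neg he, add_zero]
  have hends : ∀ w, (if s e1 = w then δ else 0) + (if t e1 = w then δ else 0) =
      (if v = w then δ else 0) + (if u = w then δ else 0) := by
    intro w
    rcases k1 with ⟨a, b⟩ | ⟨a, b⟩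
    · rw [a, b]
    · rw [a, b, add_comm]
  refine ⟨fun e => if e = e1 then φ e2 else φ e, fun e he => ?_, fun w => ?_⟩
  · beta_reduce
    split_ifs
    · exact h1 e2 he2
    · exact h1 e he
  · show B s t S (fun e => if e = e1 then φ e2 else φ e) w = 0
    rw [hlin, hends]
    by_cases hwv : v = w
    · subst hwv
      rw [if_pos rfl, if_neg huv, add_zero, hBv]
      exact dbl _
    · by_cases hwu : u = w
      · subst hwu
        rw [if_neg hwv, if_pos rfl, zero_add]
        have h6 : B s t S φ u = δ := by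
          have := Q116.FF.eq_of_addF hin
          rw [this, hBv]
        rw [h6]
        exact dbl _
      · rw [if_neg hwv, if_neg hwu, add_zero, add_zero]
        apply hout
        rw [mem_insert, mem_singleton]
        push Not
        exact ⟨Ne.symm hwu, Ne.symm hwv⟩

/-- reduction to quotients without circuits of length at most four and vertices of degree two -/
theorem exists_redD (s t : E → V) (S : Finset E) :
    ∃ f : V → V, (NZ (fun e => f (s e)) (fun e => f (t e)) S → NZ s t S) ∧
      Q116.FF.Sm (fun e => f (s e)) (fun e => f (t e)) S ∧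
      ∀ v, (cut (fun e => f (s e)) (fun e => f (t e)) S (fun x => decide (x = v))).card ≠ 2 := by
  induction hn : Q116.FF.nl s t S using Nat.strong_induction_on generalizing s t with
  | _ n ih =>
    subst hn
    obtain ⟨f, h1, h2⟩ := Q116.FF.exists_red s t S
    by_cases h3 : ∀ v, (cut (fun e => f (s e)) (fun e => f (t e)) S
        (fun x => decide (x = v))).card ≠ 2
    · exact ⟨f, h1, h2, h3⟩
    push Not at h3
    obtain ⟨v, hv⟩ := h3
    obtain ⟨e1, e2, hne, hcut⟩ := card_eq_two.1 hv
    have hm : e1 ∈ cut (fun e => f (s e)) (fun e => f (t e)) S (fun x => decide (x = v)) := by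
      rw [hcut]; simp
    obtain ⟨m1, m2, m3⟩ := cut_ends.1 hm
    set u := Q116.FF.oth (fun e => f (s e)) (fun e => f (t e)) v e1 with hu
    have hlt := (Q116.FF.nl_lt (a := u) (T := {u, v}) m1 m2.symm (by simp) (by simp) m3).trans_le
      (nl_le s t S f)
    obtain ⟨g, g1, g2, g3⟩ := ih _ hlt _ _ rfl
    refine ⟨fun x => g (Q116.FF.mrg {u, v} u (f x)), fun hh => ?_, g2, g3⟩
    exact h1 (deg_two m2 m3 hne hcut (g1 hh))

/-- the non-isolated vertices are dominated by `D`, a set of at most three vertices -/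
def Dm (s t : E → V) (S : Finset E) (D : Finset V) : Prop :=
  D.card ≤ 3 ∧ ∀ v u, u ≠ v → Adj s t S v u → v ∉ D → ∃ d ∈ D, Adj s t S v d

theorem Dm.quot {s t : E → V} {S : Finset E} {D : Finset V} (h : Dm s t S D) (f : V → V) :
    Dm (fun e => f (s e)) (fun e => f (t e)) S (D.image f) := by
  refine ⟨card_image_le.trans h.1, ?_⟩
  intro v u huv hadj hv
  have key : ∀ x y, f x = v → f y = u → Adj s t S x y →
      ∃ d ∈ D.image f, Adj (fun e => f (s e)) (fun e => f (t e)) S v d := by
    intro x y hx hy hxy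
    have hne : y ≠ x := by
      rintro rfl
      exact huv (hy.symm.trans hx)
    have hxD : x ∉ D := fun hc => hv (hx ▸ mem_image_of_mem f hc)
    obtain ⟨d, hd, e, he, k⟩ := h.2 x y hne hxy hxD
    refine ⟨f d, mem_image_of_mem f hd, e, he, ?_⟩
    rcases k with ⟨a, b⟩ | ⟨a, b⟩
    · exact Or.inl ⟨(congrArg f a).trans hx, congrArg f b⟩
    · exact Or.inr ⟨congrArg f a, (congrArg f b).trans hx⟩
  obtain ⟨e, he, k⟩ := hadj
  rcases k with ⟨a, b⟩ | ⟨a, b⟩
  · exact key (s e) (t e) a b ⟨e, he, Or.inl ⟨rfl, rfl⟩⟩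
  · exact key (t e) (s e) b a ⟨e, he, Or.inr ⟨rfl, rfl⟩⟩

theorem of_dom {s t : E → V} {S : Finset E} {D : Finset V} (h1 : N1 s t S) (h : Dm s t S D) :
    NZ s t S ∨ PQ s t S := by
  classical
  obtain ⟨f, hf, hs, h2⟩ := exists_redD s t S
  have hn1 : N1 (fun e => f (s e)) (fun e => f (t e)) S :=
    quot_n1 (Finset.Subset.refl S) (fun e h3 h4 => absurd h3 h4) h1
  have hq := h.quot f
  have hK : KD (Q116.FF.gr (fun e => f (s e)) (fun e => f (t e)) S) (D.image f) := by
    refine ⟨hs.girth, ?_, ?_, hq.1⟩
    · intro v u hvu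
      have h3 := Q116.FF.cut_card hs v
      have h4 := hn1 (fun x => decide (x = v))
      have h5 := h2 v
      have h6 : 0 < (Nb (Q116.FF.gr (fun e => f (s e)) (fun e => f (t e)) S) v).card :=
        card_pos.2 ⟨u, mem_Nb.2 hvu⟩
      rw [h3] at h4 h5
      have h7 : (Nb (Q116.FF.gr (fun e => f (s e)) (fun e => f (t e)) S) v).card =
        (Q116.FF.nb (Q116.FF.gr (fun e => f (s e)) (fun e => f (t e)) S) univ v).card := rfl
      omega
    · intro v u hvu hv
      obtain ⟨d, hd, hvd⟩ := hq.2 v u hvu.1.symm hvu.2 hv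
      exact ⟨d, hd, fun hc => hv (hc ▸ hd), hvd⟩
  rcases hK.main with h3 | h3
  · exact Or.inl (hf (nz_of_sf hs h3))
  · refine Q116.FF.concl h1 f hf ?_
    refine (card_le_card (Q116.FF.odd_sub hs (A := univ) ?_)).trans h3
    intro e _
    exact ⟨mem_univ _, mem_univ _⟩

end Pool.Agent.Q163.FL
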