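import Pool.Agent.Q163.FL.Dom4

/-!
Bridgeless multigraphs all of whose quotients without circuits of length at most four have at most
sixteen vertices of odd degree or are dominated by three vertices.
-/

set_option autoImplicit false
set_option linter.unusedSectionVars false

namespace Pool.Agent.Q163.FL

open Finset Pool.Agent.TH362.TF Pool.Agent.TH362.TF.Four

section

variable {V E : Type} [Fintype V] [DecidableEq V] [DecidableEq E]

/-- no cut of size one, and every quotient without circuits of length at most four has at most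
sixteen vertices of odd degree or is dominated by at most three vertices -/
def DQ (s t : E → V) (S : Finset E) : Prop :=
  N1 s t S ∧ ∀ f : V → V, Q116.FF.Sm (fun e => f (s e)) (fun e => f (t e)) S →
    (odd (fun e => f (s e)) (fun e => f (t e)) S).card ≤ 16 ∨
      ∃ D, Dm (fun e => f (s e)) (fun e => f (t e)) S D

theorem DQ.quot {s t : E → V} {S : Finset E} (h : DQ s t S) (f : V → V) :
    DQ (fun e => f (s e)) (fun e => f (t e)) S :=
  ⟨quot_n1 (Finset.Subset.refl S) (fun _ h1 h2 => absurd h1 h2) h.1,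
    fun g hg => h.2 (fun v => g (f v)) hg⟩

theorem DQ.or {s t : E → V} {S : Finset E} (h : DQ s t S) : NZ s t S ∨ PQ s t S := by
  classical
  obtain ⟨f, hf, hs, h2⟩ := exists_redD s t S
  have h1 := h.1
  rcases h.2 f hs with ho | ⟨D, hq⟩
  · exact Q116.FF.concl h1 f hf ho
  have hn1 : N1 (fun e => f (s e)) (fun e => f (t e)) S :=
    quot_n1 (Finset.Subset.refl S) (fun e h3 h4 => absurd h3 h4) h1
  have hK : KD (Q116.FF.gr (fun e => f (s e)) (fun e => f (t e)) S) D := by
    refine ⟨hs.girth, ?_, ?_, hq.1⟩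
    · intro v u hvu
      have h3 := Q116.FF.cut_card hs v
      have h4 := hn1 (fun x => decide (x = v))
      have h5 := h2 v
      have h6 : 0 < (Nb (Q116.FF.gr (fun e => f (s e)) (fun e => f (t e)) S) v).card :=
        card_pos.2 ⟨u, mem_Nb.2 hvu⟩
      rw [h3] at h4 h5
      have h7 : (Nb (Q116.FF.gr (fun e => f (s e)) (fun e => f (t e)) S) v).card =
        (Q116.FF.nb (Q116.FF.gr (fun e => f (s e)) (fun e => f (t e)) S) univ v).card := rfl
      omega
    · intro v u hvu hv
      obtain ⟨d, hd, hvd⟩ := hq.2 v u hvu.1.symm hvu.2 hv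
      exact ⟨d, hd, fun hc => hv (hc ▸ hd), hvd⟩
  rcases hK.main with h3 | h3
  · exact Or.inl (hf (nz_of_sf hs h3))
  · refine Q116.FF.concl h1 f hf ?_
    refine (card_le_card (Q116.FF.odd_sub hs (A := univ) ?_)).trans h3
    intro e _
    exact ⟨mem_univ _, mem_univ _⟩

end

variable {V E : Type} [Fintype V] [DecidableEq V] [Fintype E] [DecidableEq E]

/-- the ends of an edge which lies on a circuit of length two, three or four -/
def Shc (s t : E → V) (x y : V) : Prop :=
  x ≠ y ∧ ∃ e, Ends s t x y e ∧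
    ((∃ e', e' ≠ e ∧ Ends s t x y e') ∨
      (∃ z, z ≠ x ∧ z ≠ y ∧ (∃ e', Ends s t y z e') ∧ ∃ e', Ends s t z x e') ∨
      ∃ z w, z ≠ x ∧ z ≠ y ∧ w ≠ x ∧ w ≠ y ∧ z ≠ w ∧ (∃ e', Ends s t y z e') ∧
        (∃ e', Ends s t z w e') ∧ ∃ e', Ends s t w x e')

/-- joined by a chain of edges which lie on circuits of length at most four -/
def Tied (s t : E → V) : V → V → Prop := Relation.ReflTransGen (Shc s t)

theorem ends_f {s t : E → V} {a b : V} {e : E} (f : V → V) (h : Ends s t a b e) :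
    Ends (fun e => f (s e)) (fun e => f (t e)) (f a) (f b) e := by
  rcases h with ⟨h1, h2⟩ | ⟨h1, h2⟩
  · exact Or.inl ⟨congrArg f h1, congrArg f h2⟩
  · exact Or.inr ⟨congrArg f h1, congrArg f h2⟩

theorem ends_two {s t : E → V} {a b c d : V} {e : E} (h : Ends s t a b e) (h' : Ends s t c d e) :
    (a = c ∧ b = d) ∨ (a = d ∧ b = c) := Q116.FF.ends_inj h h'

theorem shc_image {s t : E → V} {f : V → V}
    (hs : Q116.FF.Sm (fun e => f (s e)) (fun e => f (t e)) univ) {x y : V} (h : Shc s t x y) :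
    f x = f y := by
  obtain ⟨hxy, e, k, h⟩ := h
  by_contra hne
  have k' := ends_f f k
  have hpar : ∀ e' u v, Ends s t u v e' → ((f u = f x ∧ f v = f y) ∨ (f u = f y ∧ f v = f x)) →
      ((x = u ∧ y = v) ∨ (x = v ∧ y = u)) := by
    intro e' u v k1 huv
    have k2 : Ends (fun e => f (s e)) (fun e => f (t e)) (f x) (f y) e' := by
      have k3 := ends_f f k1
      rcases huv with ⟨a, b⟩ | ⟨a, b⟩
      · rwa [a, b] at k3
      · rw [a, b] at k3
        exact Q116.FF.Ends.sy k3
    have := hs.par (f x) (f y) e e' hne (mem_univ _) (mem_univ _) k' k2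
    subst this
    exact ends_two k k1
  rcases h with ⟨e', he, k1⟩ | ⟨z, hzx, hzy, ⟨e2, k2⟩, e3, k3⟩ |
    ⟨z, w, hzx, hzy, hwx, hwy, hzw, ⟨e2, k2⟩, ⟨e3, k3⟩, e4, k4⟩
  · exact he (hs.par (f x) (f y) e' e hne (mem_univ _) (mem_univ _) (ends_f f k1) k')
  · have n1 : f z ≠ f x := by
      intro hc
      rcases hpar e2 y z k2 (Or.inr ⟨rfl, hc⟩) with ⟨a, _⟩ | ⟨a, _⟩
      · exact hxy a
      · exact hzx a.symm
    have n2 : f z ≠ f y := by
      intro hc
      rcases hpar e3 z x k3 (Or.inr ⟨hc, rfl⟩) with ⟨a, _⟩ | ⟨_, a⟩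
      · exact hzx a.symm
      · exact hzy a.symm
    exact hs.tri (f x) (f y) (f z) hne (Ne.symm n2) n1 e (mem_univ _) e2 (mem_univ _) e3
      (mem_univ _) k' (ends_f f k2) (ends_f f k3)
  · have n1 : f z ≠ f x := by
      intro hc
      rcases hpar e2 y z k2 (Or.inr ⟨rfl, hc⟩) with ⟨a, _⟩ | ⟨a, _⟩
      · exact hxy a
      · exact hzx a.symm
    have n2 : f w ≠ f y := by
      intro hc
      rcases hpar e4 w x k4 (Or.inr ⟨hc, rfl⟩) with ⟨a, _⟩ | ⟨_, a⟩
      · exact hwx a.symm
      · exact hwy a.symm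
    have n3 : ¬ (f z = f y ∧ f w = f x) := by
      rintro ⟨hc, hd⟩
      rcases hpar e3 z w k3 (Or.inr ⟨hc, hd⟩) with ⟨a, _⟩ | ⟨a, _⟩
      · exact hzx a.symm
      · exact hwx a.symm
    by_cases c1 : f z = f y
    · have c2 : f w ≠ f x := fun hd => n3 ⟨c1, hd⟩
      have k3' := ends_f f k3
      rw [c1] at k3'
      exact hs.tri (f x) (f y) (f w) hne (Ne.symm n2) c2 e (mem_univ _) e3 (mem_univ _) e4
        (mem_univ _) k' k3' (ends_f f k4)
    by_cases c2 : f w = f x
    · have k3' := ends_f f k3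
      rw [c2] at k3'
      exact hs.tri (f x) (f y) (f z) hne (Ne.symm c1) n1 e (mem_univ _) e2 (mem_univ _) e3
        (mem_univ _) k' (ends_f f k2) k3'
    by_cases c3 : f z = f w
    · have k4' := ends_f f k4
      rw [← c3] at k4'
      exact hs.tri (f x) (f y) (f z) hne (Ne.symm c1) n1 e (mem_univ _) e2 (mem_univ _) e4
        (mem_univ _) k' (ends_f f k2) k4'
    exact hs.quad (f x) (f y) (f z) (f w) hne (Ne.symm c1) c3 c2 (Ne.symm n1) (Ne.symm n2)
      e (mem_univ _) e2 (mem_univ _) e3 (mem_univ _) e4 (mem_univ _) k' (ends_f f k2)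
      (ends_f f k3) (ends_f f k4)

theorem tied_image {s t : E → V} {f : V → V}
    (hs : Q116.FF.Sm (fun e => f (s e)) (fun e => f (t e)) univ) {x y : V} (h : Tied s t x y) :
    f x = f y := by
  induction h with
  | refl => rfl
  | tail _ h2 ih => exact ih.trans (shc_image hs h2)

/-- at most three vertices dominate up to chains of short circuits -/
def DomT (s t : E → V) : Prop :=
  ∃ R : Finset V, R.card ≤ 3 ∧ ∀ v, (∃ e, s e ≠ t e ∧ (s e = v ∨ t e = v)) →
    ∃ r ∈ R, ∃ d, Tied s t r d ∧ (v = d ∨ ∃ e, Ends s t v d e)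

/-- bridgeless multigraphs dominated by three vertices up to chains of short circuits -/
theorem dq_of_domT {s t : E → V} (h1 : N1 s t univ) (h : DomT s t) : DQ s t univ := by
  classical
  obtain ⟨R, hR, h⟩ := h
  refine ⟨h1, fun f hf => Or.inr ⟨R.image f, card_image_le.trans hR, ?_⟩⟩
  intro v u huv hadj hv
  obtain ⟨e, _, k⟩ := hadj
  have key : ∀ x, (s e = x ∨ t e = x) → f x = v → s e ≠ t e →
      ∃ d ∈ R.image f, Adj (fun e => f (s e)) (fun e => f (t e)) univ v d := by
    intro x hx hxv hne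
    obtain ⟨r, hr, d, h2, h3⟩ := h x ⟨e, hne, hx⟩
    have h4 : f d ∈ R.image f := tied_image hf h2 ▸ mem_image_of_mem f hr
    rcases h3 with rfl | ⟨e', k'⟩
    · exact absurd (hxv ▸ h4) hv
    · refine ⟨f d, h4, e', mem_univ _, ?_⟩
      rw [← hxv]
      exact ends_f f k'
  have hne : s e ≠ t e := by
    intro hc
    apply huv
    rcases k with ⟨k1, k2⟩ | ⟨k1, k2⟩
    · exact k2.symm.trans ((congrArg f hc).symm.trans k1)
    · exact k1.symm.trans ((congrArg f hc).trans k2)
  rcases k with ⟨k1, _⟩ | ⟨_, k2⟩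
  · exact key (s e) (Or.inl rfl) k1 hne
  · exact key (t e) (Or.inr rfl) k2 hne

end Pool.Agent.Q163.FL
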