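import Pool.Agent.Q163.FL.Dom4

/-!
Graphs of girth at least five, minimum degree at least three and without induced paths on six
vertices have at most ten vertices in each component.
-/

set_option autoImplicit false
set_option linter.unusedSectionVars false

namespace Pool.Agent.Q163.FL

open Finset Pool.Agent.TH362.TF

section path

variable {V : Type}

/-- an induced path with `k` vertices -/
def IP (R : V → V → Prop) (k : ℕ) : Prop :=
  ∃ p : ℕ → V, ∀ i j, i < j → j < k → p i ≠ p j ∧ (R (p i) (p j) ↔ j = i + 1)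

/-- an induced path with six vertices from its vertices -/
theorem ip_six {H : SimpleGraph V} {a b c d e f : V} (h1 : H.Adj a b) (h2 : H.Adj b c)
    (h3 : H.Adj c d) (h4 : H.Adj d e) (h5 : H.Adj e f) (n1 : ¬ H.Adj a c) (n2 : ¬ H.Adj a d)
    (n3 : ¬ H.Adj a e) (n4 : ¬ H.Adj a f) (n5 : ¬ H.Adj b d) (n6 : ¬ H.Adj b e)
    (n7 : ¬ H.Adj b f) (n8 : ¬ H.Adj c e) (n9 : ¬ H.Adj c f) (n10 : ¬ H.Adj d f) :
    IP H.Adj 6 := by
  have m1 : a ≠ c := fun h => n2 (h ▸ h3)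
  have m2 : a ≠ d := fun h => n1 (h ▸ h3.symm)
  have m3 : a ≠ e := fun h => n2 (h ▸ h4.symm)
  have m4 : a ≠ f := fun h => n3 (h ▸ h5.symm)
  have m5 : b ≠ d := fun h => n6 (h ▸ h4)
  have m6 : b ≠ e := fun h => n5 (h ▸ h4.symm)
  have m7 : b ≠ f := fun h => n6 (h ▸ h5.symm)
  have m8 : c ≠ e := fun h => n9 (h ▸ h5)
  have m9 : c ≠ f := fun h => n8 (h ▸ h5.symm)
  have m10 : d ≠ f := fun h => n9 (h ▸ h3)
  refine ⟨fun n => if n = 0 then a else if n = 1 then b else if n = 2 then c else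
    if n = 3 then d else if n = 4 then e else f, ?_⟩
  intro i j hij hj
  have hi : i < 6 := by omega
  interval_cases j <;> interval_cases i <;>
    simp_all [h1.ne, h2.ne, h3.ne, h4.ne, h5.ne]

end path

variable {V : Type} [Fintype V] [DecidableEq V]

/-- girth at least five, no degrees one and two, no induced path on six vertices, edges in one
component -/
structure KP (H : SimpleGraph V) : Prop where
  g : Q116.FF.Girth5 H
  d3 : ∀ v u, H.Adj v u → 3 ≤ (Nb H v).card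
  p6 : ¬ IP H.Adj 6
  conn : ∀ X : V → Prop, (∀ u v, H.Adj u v → X u → X v) → ∀ u v u' v', H.Adj u v → X u →
    H.Adj u' v' → X u'

variable {H : SimpleGraph V}

theorem KP.nb_ex (h : KP H) {v u : V} (hvu : H.Adj v u) (a : V) : ∃ w, H.Adj v w ∧ w ≠ u ∧ w ≠ a := by
  classical
  by_contra hcon
  push Not at hcon
  have h1 : Nb H v ⊆ {u, a} := by
    intro w hw
    rw [mem_insert, mem_singleton]
    by_cases h2 : w = u
    · exact Or.inl h2
    · exact Or.inr (hcon w (mem_Nb.1 hw) h2)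
  have h2 := card_le_card h1
  have h3 := card_le_two (a := u) (b := a)
  have h4 := h.d3 v u hvu
  omega

theorem KP.cycle (h : KP H) {v u : V} (hvu : H.Adj v u) :
    ∃ a b c d e, H.Adj a b ∧ H.Adj b c ∧ H.Adj c d ∧ H.Adj d e ∧ H.Adj e a := by
  by_contra hcon
  push Not at hcon
  obtain ⟨p2, a1, a2, _⟩ := h.nb_ex hvu.symm v
  obtain ⟨p3, b1, b2, _⟩ := h.nb_ex a1.symm u
  obtain ⟨p4, c1, c2, _⟩ := h.nb_ex b1.symm u
  have n02 : ¬ H.Adj v p2 := fun hc => h.g.tri v u p2 hvu a1 hc.symm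
  have n03 : ¬ H.Adj v p3 := fun hc => h.g.quad v u p2 p3 a2.symm b2.symm hvu a1 b1 hc.symm
  have n13 : ¬ H.Adj u p3 := fun hc => h.g.tri u p2 p3 a1 b1 hc.symm
  have n14 : ¬ H.Adj u p4 := fun hc => h.g.quad u p2 p3 p4 b2.symm c2.symm a1 b1 c1 hc.symm
  have n24 : ¬ H.Adj p2 p4 := fun hc => h.g.tri p2 p3 p4 b1 c1 hc.symm
  have n04 : ¬ H.Adj v p4 := fun hc => hcon v u p2 p3 p4 hvu a1 b1 c1 hc.symm
  obtain ⟨p5, d1, d2, _⟩ := h.nb_ex c1.symm u
  obtain ⟨p5', e1, e2, e3⟩ := h.nb_ex c1.symm p5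
  have hv4 : v ≠ p4 := fun hc => n14 (hc ▸ hvu.symm)
  have key : ∀ x, H.Adj p4 x → x ≠ p3 → ¬ H.Adj v x → False := by
    intro x hx hne hvx
    apply h.p6
    refine ip_six hvu a1 b1 c1 hx n02 n03 n04 hvx n13 n14 ?_ n24 ?_ ?_
    · exact fun hc => hcon u p2 p3 p4 x a1 b1 c1 hx hc.symm
    · exact fun hc => h.g.quad p2 p3 p4 x c2.symm hne.symm b1 c1 hx hc.symm
    · exact fun hc => h.g.tri p3 p4 x c1 hx hc.symm
  by_cases h1 : H.Adj v p5
  · by_cases h2 : H.Adj v p5'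
    · exact h.g.quad v p5 p4 p5' hv4 e3.symm h1 d1.symm e1 h2.symm
    · exact key p5' e1 e2 h2
  · exact key p5 d1 d2 h1

/-- a circuit of length five -/
structure C5 (H : SimpleGraph V) (c : ZMod 5 → V) : Prop where
  adj : ∀ i, H.Adj (c i) (c (i + 1))

theorem exists_c5 {a b c d e : V} (h1 : H.Adj a b) (h2 : H.Adj b c) (h3 : H.Adj c d)
    (h4 : H.Adj d e) (h5 : H.Adj e a) : ∃ f : ZMod 5 → V, C5 H f := by
  refine ⟨fun i => (![a, b, c, d, e] : Fin 5 → V) i, ⟨?_⟩⟩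
  intro i
  have : ∀ i : Fin 5, H.Adj ((![a, b, c, d, e] : Fin 5 → V) i)
      ((![a, b, c, d, e] : Fin 5 → V) (i + 1)) := by
    intro i
    fin_cases i
    · exact h1
    · exact h2
    · exact h3
    · exact h4
    · exact h5
  exact this i

variable {c : ZMod 5 → V}

theorem e41 (i : ZMod 5) : i + 4 + 1 = i := by revert i; decide

theorem e32 (i : ZMod 5) : i + 3 + 2 = i := by revert i; decide

theorem e42 (i : ZMod 5) : i + 4 + 2 = i + 1 := by revert i; decide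

theorem z1 (i : ZMod 5) : i + 1 ≠ i := by revert i; decide

theorem z2 (i : ZMod 5) : i + 2 ≠ i := by revert i; decide

theorem z3 (i : ZMod 5) : i + 3 ≠ i := by revert i; decide

theorem z4 (i : ZMod 5) : i + 4 ≠ i := by revert i; decide

theorem z42 (i : ZMod 5) : i + 4 ≠ i + 2 := by revert i; decide

theorem z43 (i : ZMod 5) : i + 4 ≠ i + 3 := by revert i; decide

theorem z12 (i : ZMod 5) : i + 1 ≠ i + 2 := by revert i; decide

theorem z13 (i : ZMod 5) : i + 1 ≠ i + 3 := by revert i; decide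

theorem z122 (i : ZMod 5) : i + 1 ≠ i + 2 + 2 := by revert i; decide

theorem z123 (i : ZMod 5) : i + 1 ≠ i + 2 + 3 := by revert i; decide

theorem z5 (i j : ZMod 5) : j = i ∨ j = i + 1 ∨ j = i + 2 ∨ j = i + 3 ∨ j = i + 4 := by
  revert i j; decide

theorem C5.n2 (hg : Q116.FF.Girth5 H) (hc : C5 H c) (i : ZMod 5) : ¬ H.Adj (c i) (c (i + 2)) := by
  intro h
  have h1 := hc.adj i
  have h2 := hc.adj (i + 1)
  rw [show i + 1 + 1 = i + 2 by ring] at h2
  exact hg.tri _ _ _ h1 h2 h.symm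

theorem C5.ne2 (hg : Q116.FF.Girth5 H) (hc : C5 H c) (i : ZMod 5) : c i ≠ c (i + 2) := by
  intro h
  have h2 := hc.adj (i + 2)
  have h3 := hc.adj (i + 3)
  have h4 := hc.adj (i + 4)
  rw [show i + 2 + 1 = i + 3 by ring] at h2
  rw [show i + 3 + 1 = i + 4 by ring] at h3
  rw [e41] at h4
  rw [← h] at h2
  exact hg.tri _ _ _ h2 h3 h4

theorem C5.nadj (hg : Q116.FF.Girth5 H) (hc : C5 H c) (i : ZMod 5) : H.Adj (c i) (c (i + 4)) := by
  have h := hc.adj (i + 4)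
  rw [e41] at h
  exact h.symm

theorem C5.n3 (hg : Q116.FF.Girth5 H) (hc : C5 H c) (i : ZMod 5) : ¬ H.Adj (c i) (c (i + 3)) := by
  intro h
  have h1 := hc.n2 hg (i + 3)
  rw [e32] at h1
  exact h1 h.symm

theorem C5.ne3 (hg : Q116.FF.Girth5 H) (hc : C5 H c) (i : ZMod 5) : c i ≠ c (i + 3) := by
  intro h
  have h1 := hc.ne2 hg (i + 3)
  rw [e32] at h1
  exact h1 h.symm

/-- the neighbours outside of the circuit -/
def NN (H : SimpleGraph V) (c : ZMod 5 → V) (i : ZMod 5) (x : V) : Prop :=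
  H.Adj (c i) x ∧ ∀ j, x ≠ c j

theorem NN.only (hg : Q116.FF.Girth5 H) (hc : C5 H c) {i j : ZMod 5} {x : V} (hx : NN H c i x)
    (h : H.Adj x (c j)) : j = i := by
  obtain ⟨h1, h2⟩ := hx
  rcases z5 i j with rfl | rfl | rfl | rfl | rfl
  · rfl
  · exact (hg.tri _ _ _ (hc.adj i) h.symm h1.symm).elim
  · have h3 := hc.adj i
    have h4 := hc.adj (i + 1)
    rw [show i + 1 + 1 = i + 2 by ring] at h4
    exact (hg.quad _ _ _ _ (hc.ne2 hg i) (h2 (i + 1)).symm h3 h4 h.symm h1.symm).elim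
  · have h3 := hc.nadj hg i
    have h4 := hc.adj (i + 3)
    rw [show i + 3 + 1 = i + 4 by ring] at h4
    exact (hg.quad _ _ _ _ (hc.ne3 hg i) (h2 (i + 4)).symm h3 h4.symm h.symm h1.symm).elim
  · exact (hg.tri _ _ _ (hc.nadj hg i) h.symm h1.symm).elim

theorem KP.nbr (h : KP H) (hc : C5 H c) {i : ZMod 5} {x y : V} (hx : NN H c i x)
    (hxy : H.Adj x y) : y = c i ∨ NN H c (i + 2) y ∨ NN H c (i + 3) y := by
  by_contra hcon
  push Not at hcon
  obtain ⟨m1, m2, m3⟩ := hcon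
  have hy : ∀ j, y ≠ c j := by
    rintro j rfl
    have := hx.only h.g hc hxy
    exact m1 (by rw [this])
  have k2 : ¬ H.Adj y (c (i + 2)) := fun hh => m2 ⟨hh.symm, hy⟩
  have k3 : ¬ H.Adj y (c (i + 3)) := fun hh => m3 ⟨hh.symm, hy⟩
  have a0 := hc.adj i
  have a1 := hc.adj (i + 1)
  rw [show i + 1 + 1 = i + 2 by ring] at a1
  have a2 := hc.adj (i + 2)
  rw [show i + 2 + 1 = i + 3 by ring] at a2
  apply h.p6
  have hne1 := z1 i
  have hne2 := z2 i
  have hne3 := z3 i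
  have b1 := hc.n2 h.g (i + 1)
  rw [show i + 1 + 2 = i + 3 by ring] at b1
  refine ip_six hxy.symm hx.1.symm a0 a1 a2 ?_ ?_ k2 k3 ?_ ?_ ?_ (hc.n2 h.g i) (hc.n3 h.g i) b1
  · exact fun hh => h.g.tri _ _ _ hxy hh hx.1
  · exact fun hh => h.g.quad _ _ _ _ (hx.2 (i + 1)) m1 hxy hh a0.symm hx.1
  · exact fun hh => hne1 (hx.only h.g hc hh)
  · exact fun hh => hne2 (hx.only h.g hc hh)
  · exact fun hh => hne3 (hx.only h.g hc hh)

theorem NN.uniq (hg : Q116.FF.Girth5 H) {j : ZMod 5} {x y y' : V}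
    (hx : ∀ j, x ≠ c j) (h1 : NN H c j y) (h2 : NN H c j y') (h3 : H.Adj x y) (h4 : H.Adj x y') :
    y = y' := by
  by_contra hne
  exact hg.quad x y (c j) y' (hx j) hne h3 h1.1.symm h2.1 h4.symm

theorem KP.ex2 (h : KP H) (hc : C5 H c) {i : ZMod 5} {x : V} (hx : NN H c i x) :
    ∃ y, NN H c (i + 2) y ∧ H.Adj x y := by
  by_contra hcon
  push Not at hcon
  obtain ⟨y, h1, h2, _⟩ := h.nb_ex hx.1.symm x
  obtain ⟨z, h3, h4, h5⟩ := h.nb_ex hx.1.symm y
  have hy : NN H c (i + 3) y := by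
    rcases h.nbr hc hx h1 with h6 | h6 | h6
    · exact absurd h6 h2
    · exact absurd h1 (hcon y h6)
    · exact h6
  have hz : NN H c (i + 3) z := by
    rcases h.nbr hc hx h3 with h6 | h6 | h6
    · exact absurd h6 h4
    · exact absurd h3 (hcon z h6)
    · exact h6
  exact h5 (NN.uniq h.g hx.2 hz hy h3 h1)

theorem KP.nn_nadj (h : KP H) (hc : C5 H c) {i j : ZMod 5} {x y : V} (hx : NN H c i x)
    (hy : NN H c j y) (h2 : j ≠ i + 2) (h3 : j ≠ i + 3) : ¬ H.Adj x y := by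
  intro hxy
  rcases h.nbr hc hx hxy with h6 | h6 | h6
  · exact hy.2 i h6
  · exact h2 (h6.only h.g hc hy.1.symm)
  · exact h3 (h6.only h.g hc hy.1.symm)

theorem KP.one (h : KP H) (hc : C5 H c) {i : ZMod 5} {x y : V} (hx : NN H c i x)
    (hy : NN H c i y) : x = y := by
  by_contra hne
  obtain ⟨x2, b1, b2⟩ := h.ex2 hc hx
  obtain ⟨x4, b3, b4⟩ := h.ex2 hc b1
  obtain ⟨x6, b5, b6⟩ := h.ex2 hc b3
  rw [show i + 2 + 2 = i + 4 by ring] at b3 b5
  rw [e42] at b5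
  have cn : ∀ j z, NN H c j z → j ≠ i → ¬ H.Adj (c i) z := by
    intro j z hz hji hh
    exact hji (hz.only h.g hc hh.symm).symm
  apply h.p6
  refine ip_six hy.1.symm hx.1 b2 b4 b6 ?_ ?_ ?_ ?_ ?_ ?_ ?_ ?_ ?_ ?_
  · exact fun hh => h.g.tri _ _ _ hh hx.1.symm hy.1
  · exact fun hh => h.g.quad _ _ _ _ (Ne.symm hne) (b1.2 i) hh b2.symm hx.1.symm hy.1
  · exact h.nn_nadj hc hy b3 (z42 i) (z43 i)
  · exact h.nn_nadj hc hy b5 (z12 i) (z13 i)
  · exact cn _ _ b1 (z2 i)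
  · exact cn _ _ b3 (z4 i)
  · exact cn _ _ b5 (z1 i)
  · exact h.nn_nadj hc hx b3 (z42 i) (z43 i)
  · exact h.nn_nadj hc hx b5 (z12 i) (z13 i)
  · exact h.nn_nadj hc b1 b5 (z122 i) (z123 i)

/-- the main result on the reduced graphs -/
theorem KP.main (h : KP H) : ∃ A : Finset V, A.card ≤ 10 ∧ ∀ u v, H.Adj u v → u ∈ A := by
  classical
  by_cases hE : ∃ v u, H.Adj v u
  swap
  · exact ⟨∅, by simp, fun u v huv => absurd ⟨u, v, huv⟩ hE⟩
  obtain ⟨v0, u0, h0⟩ := hE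
  obtain ⟨a, b, c0, d, e, h1, h2, h3, h4, h5⟩ := h.cycle h0
  obtain ⟨c, hc⟩ := exists_c5 h1 h2 h3 h4 h5
  have hex : ∀ i : ZMod 5, ∃ x, ∀ y, NN H c i y → y = x := by
    intro i
    by_cases hx : ∃ x, NN H c i x
    · obtain ⟨x, hx⟩ := hx
      exact ⟨x, fun y hy => h.one hc hy hx⟩
    · exact ⟨c i, fun y hy => absurd ⟨y, hy⟩ hx⟩
  choose g hg using hex
  refine ⟨univ.image c ∪ univ.image g, ?_, ?_⟩
  · refine (card_union_le _ _).trans ?_
    have h6 : (univ.image c).card ≤ 5 := card_image_le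
    have h7 : (univ.image g).card ≤ 5 := card_image_le
    omega
  have hX := h.conn (fun x => (∃ i, x = c i) ∨ ∃ i, NN H c i x) (by
    rintro u v huv (⟨i, rfl⟩ | ⟨i, hi⟩)
    · by_cases hv : ∃ j, v = c j
      · exact Or.inl hv
      · push Not at hv
        exact Or.inr ⟨i, huv, hv⟩
    · rcases h.nbr hc hi huv with h6 | h6 | h6
      · exact Or.inl ⟨i, h6⟩
      · exact Or.inr ⟨_, h6⟩
      · exact Or.inr ⟨_, h6⟩) (c 0) (c (0 + 1))
  intro u v huv
  rw [mem_union]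
  rcases hX u v (hc.adj 0) (Or.inl ⟨0, rfl⟩) huv with ⟨i, rfl⟩ | ⟨i, hi⟩
  · exact Or.inl (mem_image_of_mem c (mem_univ i))
  · exact Or.inr (mem_image.2 ⟨i, mem_univ _, (hg i u hi).symm⟩)

end Pool.Agent.Q163.FL
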