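import Pool.Agent.Q163.FL.P6
import Pool.Agent.Q163.FL.Base

/-!
Multigraphs without induced paths on six vertices: contraction of edges, and the dichotomy.
-/

set_option autoImplicit false
set_option linter.unusedSectionVars false

namespace Pool.Agent.Q163.FL

open Finset Pool.Agent.TH362.TF Pool.Agent.TH362.TF.Four
open Pool.Agent.TH499.TF (phi)

section

variable {V : Type} [Fintype V] [DecidableEq V]

/-- adjacency after the contraction of `u` and `v` -/
def Rq (R : V → V → Prop) (u v : V) (x y : V) : Prop :=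
  ∃ x' y', phi u v x' = x ∧ phi u v y' = y ∧ R x' y'

theorem phi_u (u v : V) : phi u v u = u := by
  unfold Pool.Agent.TH499.TF.phi
  split_ifs <;> rfl

theorem phi_cases {u v x : V} {y : V} (h : phi u v x = y) : x = y ∨ (x = v ∧ y = u) := by
  unfold Pool.Agent.TH499.TF.phi at h
  split_ifs at h with h1
  · exact Or.inr ⟨h1, h.symm⟩
  · exact Or.inl h

theorem phi_ne_v {u v x : V} (huv : u ≠ v) : phi u v x ≠ v := by
  unfold Pool.Agent.TH499.TF.phi
  split_ifs with h1
  · exact huv
  · exact h1

variable {R : V → V → Prop} {u v : V}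

theorem rq_of {x y : V} (hx : x ≠ v) (hy : y ≠ v) (h : R x y) : Rq R u v x y :=
  ⟨x, y, phi_ne hx, phi_ne hy, h⟩

theorem rq_off (huv : u ≠ v) {x y : V} (hx : x ≠ v) (hxu : x ≠ u) (hy : y ≠ v) (hyu : y ≠ u) :
    Rq R u v x y ↔ R x y := by
  constructor
  · rintro ⟨x', y', h1, h2, h3⟩
    rcases phi_cases h1 with rfl | ⟨_, h⟩
    · rcases phi_cases h2 with rfl | ⟨_, h⟩
      · exact h3
      · exact absurd h hyu
    · exact absurd h hxu
  · exact rq_of hx hy

theorem rq_left (huv : u ≠ v) {y : V} (hy : y ≠ v) (hyu : y ≠ u) :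
    Rq R u v u y ↔ R u y ∨ R v y := by
  constructor
  · rintro ⟨x', y', h1, h2, h3⟩
    rcases phi_cases h2 with rfl | ⟨_, h⟩
    · rcases phi_cases h1 with rfl | ⟨rfl, _⟩
      · exact Or.inl h3
      · exact Or.inr h3
    · exact absurd h hyu
  · rintro (h | h)
    · exact ⟨u, y, phi_u u v, phi_ne hy, h⟩
    · exact ⟨v, y, phi_eq u v, phi_ne hy, h⟩

theorem rq_symm (hR : ∀ x y, R x y → R y x) {x y : V} (h : Rq R u v x y) : Rq R u v y x := by
  obtain ⟨x', y', h1, h2, h3⟩ := h
  exact ⟨y', x', h2, h1, hR _ _ h3⟩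

/-- induced paths lift -/
theorem ip_lift (hR : ∀ x y, R x y → R y x) (huv : u ≠ v) (hadj : R u v) {k : ℕ} (hk : 2 ≤ k)
    (h : IP (Rq R u v) k) : IP R k := by
  obtain ⟨p, hp⟩ := h
  have hpv : ∀ i, i < k → p i ≠ v := by
    intro i hi
    by_cases h1 : i + 1 < k
    · obtain ⟨x', y', h2, _, _⟩ := ((hp i (i + 1) (by omega) h1).2).2 rfl
      exact h2 ▸ phi_ne_v huv
    · obtain ⟨x', y', _, h2, _⟩ := ((hp (i - 1) i (by omega) hi).2).2 (by omega)
      exact h2 ▸ phi_ne_v huv
  by_cases hu : ∀ i, i < k → p i ≠ u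
  · refine ⟨p, fun i j hij hj => ⟨(hp i j hij hj).1, ?_⟩⟩
    rw [← (hp i j hij hj).2]
    exact (rq_off huv (hpv i (by omega)) (hu i (by omega)) (hpv j hj) (hu j hj)).symm
  push Not at hu
  obtain ⟨m, hm, hmu⟩ := hu
  have hpu : ∀ i, i < k → i ≠ m → p i ≠ u := by
    intro i hi him hc
    rcases Nat.lt_or_gt_of_ne him with h1 | h1
    · exact (hp i m h1 hm).1 (hc.trans hmu.symm)
    · exact (hp m i h1 hi).1 (hmu.trans hc.symm)
  -- adjacency to the contracted vertex
  have hadj' : ∀ i, i < k → i ≠ m → ((R u (p i) ∨ R v (p i)) ↔ (m = i + 1 ∨ i = m + 1)) := by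
    intro i hi him
    rw [← rq_left huv (hpv i hi) (hpu i hi him)]
    rcases Nat.lt_or_gt_of_ne him with h1 | h1
    · have h2 := (hp i m h1 hm).2
      rw [hmu] at h2
      constructor
      · intro h3
        exact Or.inl (h2.1 (rq_symm hR h3))
      · rintro (h3 | h3)
        · exact rq_symm hR (h2.2 h3)
        · omega
    · have h2 := (hp m i h1 hi).2
      rw [hmu] at h2
      constructor
      · intro h3
        exact Or.inr (h2.1 h3)
      · rintro (h3 | h3)
        · omega
        · exact h2.2 h3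
  have hoff : ∀ i j, i < j → j < k → i ≠ m → j ≠ m → (R (p i) (p j) ↔ j = i + 1) := by
    intro i j hij hj him hjm
    rw [← (hp i j hij hj).2]
    exact (rq_off huv (hpv i (by omega)) (hpu i (by omega) him) (hpv j hj) (hpu j hj hjm)).symm
  have one : ∀ w, (w = u ∨ w = v) → (0 < m → R w (p (m - 1))) → (m + 1 < k → R w (p (m + 1))) →
      IP R k := by
    intro w hw hw1 hw2
    have hwp : ∀ i, i < k → i ≠ m → w ≠ p i := by
      rintro i hi him rfl
      rcases hw with hw | hw
      · exact hpu i hi him hw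
      · exact hpv i hi hw
    have hwR : ∀ i, i < k → i ≠ m → (R w (p i) ↔ (m = i + 1 ∨ i = m + 1)) := by
      intro i hi him
      constructor
      · intro h3
        refine (hadj' i hi him).1 ?_
        rcases hw with rfl | rfl
        · exact Or.inl h3
        · exact Or.inr h3
      · rintro (h3 | h3)
        · have := hw1 (by omega)
          rwa [show m - 1 = i by omega] at this
        · have := hw2 (by omega)
          rwa [← h3] at this
    refine ⟨fun i => if i = m then w else p i, fun i j hij hj => ?_⟩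
    beta_reduce
    by_cases him : i = m
    · have hjm : j ≠ m := by omega
      rw [if_pos him, if_neg hjm]
      refine ⟨hwp j hj hjm, ?_⟩
      rw [hwR j hj hjm]
      omega
    · rw [if_neg him]
      by_cases hjm : j = m
      · rw [if_pos hjm]
        refine ⟨(hwp i (by omega) him).symm, ?_⟩
        have h4 : R (p i) w ↔ R w (p i) := ⟨hR _ _, hR _ _⟩
        rw [h4, hwR i (by omega) him]
        omega
      · rw [if_neg hjm]
        exact ⟨(hp i j hij hj).1, hoff i j hij hj him hjm⟩
  have two : ∀ w1 w2, (w1 = u ∧ w2 = v ∨ w1 = v ∧ w2 = u) → 0 < m → m + 1 < k →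
      R w1 (p (m - 1)) → ¬ R w2 (p (m - 1)) → R w2 (p (m + 1)) → ¬ R w1 (p (m + 1)) → IP R k := by
    intro w1 w2 hw hm0 hmk a1 a2 a3 a4
    have hw1 : w1 = u ∨ w1 = v := hw.imp (fun h => h.1) (fun h => h.1)
    have hw2 : w2 = u ∨ w2 = v := by
      rcases hw with h | h
      · exact Or.inr h.2
      · exact Or.inl h.2
    have hne : w1 ≠ w2 := by
      rcases hw with ⟨rfl, rfl⟩ | ⟨rfl, rfl⟩
      · exact huv
      · exact huv.symm
    have h12 : R w1 w2 := by
      rcases hw with ⟨rfl, rfl⟩ | ⟨rfl, rfl⟩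
      · exact hadj
      · exact hR _ _ hadj
    have hwp : ∀ w, (w = u ∨ w = v) → ∀ i, i < k → i ≠ m → w ≠ p i := by
      rintro w hw i hi him rfl
      rcases hw with hw | hw
      · exact hpu i hi him hw
      · exact hpv i hi hw
    have hwR : ∀ w, (w = u ∨ w = v) → ∀ i, i < k → i ≠ m → R w (p i) →
        (m = i + 1 ∨ i = m + 1) := by
      intro w hw i hi him h3
      refine (hadj' i hi him).1 ?_
      rcases hw with rfl | rfl
      · exact Or.inl h3
      · exact Or.inr h3
    refine ⟨fun i => if i < m then p i else if i = m then w1 else if i = m + 1 then w2 else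
      p (i - 1), fun i j hij hj => ?_⟩
    beta_reduce
    rcases Nat.lt_trichotomy i m with him | him | him
    · rw [if_pos him]
      rcases Nat.lt_trichotomy j m with hjm | hjm | hjm
      · rw [if_pos hjm]
        exact ⟨(hp i j hij hj).1, hoff i j hij hj (by omega) (by omega)⟩
      · rw [if_neg (by omega), if_pos hjm]
        refine ⟨(hwp w1 hw1 i (by omega) (by omega)).symm, fun h3 => ?_, fun h3 => ?_⟩
        · have := hwR w1 hw1 i (by omega) (by omega) (hR _ _ h3)
          omega
        · have h4 := hR _ _ a1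
          rwa [show m - 1 = i by omega] at h4
      · rw [if_neg (by omega), if_neg (by omega)]
        by_cases hj1 : j = m + 1
        · rw [if_pos hj1]
          refine ⟨(hwp w2 hw2 i (by omega) (by omega)).symm, fun h3 => ?_, fun h3 => ?_⟩
          · have h4 := hwR w2 hw2 i (by omega) (by omega) (hR _ _ h3)
            have h5 : i = m - 1 := by omega
            rw [h5] at h3
            exact absurd (hR _ _ h3) a2
          · omega
        · rw [if_neg hj1]
          refine ⟨(hp i (j - 1) (by omega) (by omega)).1, ?_⟩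
          rw [hoff i (j - 1) (by omega) (by omega) (by omega) (by omega)]
          omega
    · rw [if_neg (by omega), if_pos him]
      rw [if_neg (show ¬ j < m by omega), if_neg (show ¬ j = m by omega)]
      by_cases hj1 : j = m + 1
      · rw [if_pos hj1]
        refine ⟨hne, fun _ => by omega, fun _ => h12⟩
      · rw [if_neg hj1]
        refine ⟨hwp w1 hw1 (j - 1) (by omega) (by omega), fun h3 => ?_, fun h3 => by omega⟩
        have h4 := hwR w1 hw1 (j - 1) (by omega) (by omega) h3
        have h5 : j - 1 = m + 1 := by omega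
        rw [h5] at h3
        exact absurd h3 a4
    · rw [if_neg (show ¬ i < m by omega), if_neg (show ¬ i = m by omega),
        if_neg (show ¬ j < m by omega), if_neg (show ¬ j = m by omega),
        if_neg (show ¬ j = m + 1 by omega)]
      by_cases hi1 : i = m + 1
      · rw [if_pos hi1]
        refine ⟨hwp w2 hw2 (j - 1) (by omega) (by omega), fun h3 => ?_, fun h3 => ?_⟩
        · have h4 := hwR w2 hw2 (j - 1) (by omega) (by omega) h3
          omega
        · rwa [show j - 1 = m + 1 by omega]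
      · rw [if_neg hi1]
        refine ⟨(hp (i - 1) (j - 1) (by omega) (by omega)).1, ?_⟩
        rw [hoff (i - 1) (j - 1) (by omega) (by omega) (by omega) (by omega)]
        omega
  -- the cases
  have hL : 0 < m → R u (p (m - 1)) ∨ R v (p (m - 1)) := fun h0 =>
    (hadj' (m - 1) (by omega) (by omega)).2 (Or.inl (by omega))
  have hRt : m + 1 < k → R u (p (m + 1)) ∨ R v (p (m + 1)) := fun h0 =>
    (hadj' (m + 1) h0 (by omega)).2 (Or.inr rfl)
  by_cases h0 : 0 < m
  · by_cases h1 : m + 1 < k
    · by_cases a1 : R u (p (m - 1))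
      · by_cases a2 : R u (p (m + 1))
        · exact one u (Or.inl rfl) (fun _ => a1) (fun _ => a2)
        · have a3 := (hRt h1).resolve_left a2
          by_cases a4 : R v (p (m - 1))
          · exact one v (Or.inr rfl) (fun _ => a4) (fun _ => a3)
          · exact two u v (Or.inl ⟨rfl, rfl⟩) h0 h1 a1 a4 a3 a2
      · have a4 := (hL h0).resolve_left a1
        by_cases a3 : R v (p (m + 1))
        · exact one v (Or.inr rfl) (fun _ => a4) (fun _ => a3)
        · have a2 := (hRt h1).resolve_right a3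
          exact two v u (Or.inr ⟨rfl, rfl⟩) h0 h1 a4 a1 a2 a3
    · rcases hL h0 with a1 | a1
      · exact one u (Or.inl rfl) (fun _ => a1) (fun h => absurd h h1)
      · exact one v (Or.inr rfl) (fun _ => a1) (fun h => absurd h h1)
  · rcases hRt (by omega) with a1 | a1
    · exact one u (Or.inl rfl) (fun h => absurd h h0) (fun _ => a1)
    · exact one v (Or.inr rfl) (fun h => absurd h h0) (fun _ => a1)

end

variable {V E : Type} [Fintype V] [DecidableEq V] [Fintype E] [DecidableEq E]

/-- the reduction to quotients without short circuits and vertices of degree two, with a property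
which is preserved by the contraction of edges -/
theorem exists_redPD (s t : E → V) (P : (V → V) → Prop)
    (hP : ∀ (f : V → V) (u v : V) (e : E), P f → u ≠ v →
      Ends (fun e => f (s e)) (fun e => f (t e)) u v e → P (fun x => phi u v (f x)))
    (f0 : V → V) (h0 : P f0) :
    ∃ f : V → V, P f ∧ (NZ (fun e => f (s e)) (fun e => f (t e)) univ →
      NZ (fun e => f0 (s e)) (fun e => f0 (t e)) univ) ∧
      Q116.FF.Sm (fun e => f (s e)) (fun e => f (t e)) univ ∧
      ∀ v, (cut (fun e => f (s e)) (fun e => f (t e)) univ (fun x => decide (x = v))).card ≠ 2 := by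
  induction hn : Q116.FF.nl (fun e => f0 (s e)) (fun e => f0 (t e)) univ
    using Nat.strong_induction_on generalizing f0 with
  | _ n ih =>
    obtain ⟨f, ⟨p1, p2⟩, h1, h2⟩ := exists_redP s t univ
      (fun f => P f ∧ Q116.FF.nl (fun e => f (s e)) (fun e => f (t e)) univ ≤ n)
      (by
        rintro f u v e _ ⟨p1, p2⟩ huv k
        exact ⟨hP f u v e p1 huv k, (nl_le (fun e => f (s e)) (fun e => f (t e)) univ
          (phi u v)).trans p2⟩) f0 ⟨h0, hn.le⟩
    by_cases h3 : ∀ v, (cut (fun e => f (s e)) (fun e => f (t e)) univ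
        (fun x => decide (x = v))).card ≠ 2
    · exact ⟨f, p1, h1, h2, h3⟩
    push Not at h3
    obtain ⟨v, hv⟩ := h3
    obtain ⟨e1, e2, hne, hcut⟩ := card_eq_two.1 hv
    have hm : e1 ∈ cut (fun e => f (s e)) (fun e => f (t e)) univ (fun x => decide (x = v)) := by
      rw [hcut]; simp
    obtain ⟨m1, m2, m3⟩ := cut_ends.1 hm
    set u := Q116.FF.oth (fun e => f (s e)) (fun e => f (t e)) v e1 with hu
    have hlt := (Q116.FF.nl_lt (a := u) (T := {u, v}) m1 m2.symm (by simp) (by simp) m3).trans_le p2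
    have hmm : ∀ x, Q116.FF.mrg {u, v} u (f x) = phi u v (f x) := fun x => mrg2 u v (f x)
    simp only [hmm] at hlt
    have hPn := hP f u v e1 p1 m2 (Q116.FF.Ends.sy m3)
    obtain ⟨g, g1, g2, g3⟩ := ih _ hlt (fun x => phi u v (f x)) hPn rfl
    refine ⟨g, g1, fun hh => h1 ?_, g3⟩
    refine deg_two m2 m3 hne hcut ?_
    simp only [hmm]
    exact g2 hh

/-- edges lie in one component -/
def Con1 (s t : E → V) : Prop :=
  ∀ X : V → Prop, (∀ e, X (s e) ↔ X (t e)) → ∀ e e', X (s e) → X (s e')

/-- adjacency of different vertices -/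
def Ad (s t : E → V) (x y : V) : Prop := x ≠ y ∧ Adj s t univ x y

theorem ad_symm {s t : E → V} (x y : V) (h : Ad s t x y) : Ad s t y x :=
  ⟨h.1.symm, let ⟨e, he, k⟩ := h.2; ⟨e, he, Q116.FF.Ends.sy k⟩⟩

theorem ip_congr {W : Type} {R R' : W → W → Prop} (h : ∀ x y, x ≠ y → (R x y ↔ R' x y)) {k : ℕ}
    (hk : IP R k) : IP R' k := by
  obtain ⟨p, hp⟩ := hk
  exact ⟨p, fun i j hij hj => ⟨(hp i j hij hj).1, (h _ _ (hp i j hij hj).1).symm.trans
    (hp i j hij hj).2⟩⟩

theorem ad_quot {s t : E → V} {u v x y : V} (hxy : x ≠ y) :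
    Ad (fun e => phi u v (s e)) (fun e => phi u v (t e)) x y ↔ Rq (Ad s t) u v x y := by
  constructor
  · rintro ⟨_, e, _, k⟩
    rcases k with ⟨a, b⟩ | ⟨a, b⟩
    · refine ⟨s e, t e, a, b, fun hc => hxy ?_, e, mem_univ _, Or.inl ⟨rfl, rfl⟩⟩
      rw [← a, ← b]
      exact congrArg (phi u v) hc
    · refine ⟨t e, s e, b, a, fun hc => hxy ?_, e, mem_univ _, Or.inr ⟨rfl, rfl⟩⟩
      rw [← a, ← b]
      exact (congrArg (phi u v) hc)
  · rintro ⟨x', y', rfl, rfl, _, e, _, k⟩
    exact ⟨hxy, e, mem_univ _, ends_phi k⟩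

theorem ip_quot {s t : E → V} {u v : V} {e : E} (huv : u ≠ v) (k : Ends s t u v e) {n : ℕ}
    (hn : 2 ≤ n) (h : ¬ IP (Ad s t) n) :
    ¬ IP (Ad (fun e => phi u v (s e)) (fun e => phi u v (t e))) n := by
  intro hc
  apply h
  refine ip_lift ad_symm huv ⟨huv, e, mem_univ _, k⟩ hn ?_
  exact ip_congr (fun x y hxy => ad_quot hxy) hc

/-- **the dichotomy** for connected multigraphs without induced paths on six vertices -/
theorem of_p6 {s t : E → V} (h1 : N1 s t univ) (hc : Con1 s t) (h : ¬ IP (Ad s t) 6) :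
    NZ s t univ ∨ PQ s t univ := by
  classical
  obtain ⟨f, hp, hf, hs, h2⟩ := exists_redPD s t
    (fun f => ¬ IP (Ad (fun e => f (s e)) (fun e => f (t e))) 6)
    (by
      intro f u v e hf huv k
      exact ip_quot huv k (by norm_num) hf) (fun x => x) h
  have hn1 : N1 (fun e => f (s e)) (fun e => f (t e)) univ :=
    quot_n1 (Finset.Subset.refl univ) (fun e h3 h4 => absurd h3 h4) h1
  set H := Q116.FF.gr (fun e => f (s e)) (fun e => f (t e)) univ with hH
  have hK : KP H := by
    refine ⟨hs.girth, ?_, ?_, ?_⟩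
    · intro v u hvu
      have h3 := Q116.FF.cut_card hs v
      have h4 := hn1 (fun x => decide (x = v))
      have h5 := h2 v
      have h6 : 0 < (Nb H v).card := card_pos.2 ⟨u, mem_Nb.2 hvu⟩
      rw [h3] at h4 h5
      have h7 : (Nb H v).card =
        (Q116.FF.nb (Q116.FF.gr (fun e => f (s e)) (fun e => f (t e)) univ) univ v).card := rfl
      omega
    · intro hc
      apply hp
      exact ip_congr (fun x y _ => Iff.rfl) hc
    · intro X hX u v u' v' huv hXu hu'v'
      have h3 : ∀ e, X (f (s e)) ↔ X (f (t e)) := by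
        intro e
        by_cases h4 : f (s e) = f (t e)
        · rw [h4]
        · have h5 : H.Adj (f (s e)) (f (t e)) := ⟨h4, e, mem_univ _, Or.inl ⟨rfl, rfl⟩⟩
          exact ⟨hX _ _ h5, hX _ _ h5.symm⟩
      obtain ⟨_, e, _, k⟩ := huv
      obtain ⟨_, e', _, k'⟩ := hu'v'
      have h6 : X (f (s e)) := by
        rcases k with ⟨a, _⟩ | ⟨_, b⟩
        · exact (congrArg X a).mpr hXu
        · exact (h3 e).2 ((congrArg X b).mpr hXu)
      have h7 := hc (fun x => X (f x)) h3 e e' h6
      rcases k' with ⟨a, _⟩ | ⟨_, b⟩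
      · exact (congrArg X a).mp h7
      · exact (congrArg X b).mp ((h3 e').1 h7)
  obtain ⟨A, hA, hcov⟩ := hK.main
  refine Q116.FF.concl h1 f hf ?_
  refine (card_le_card ((Q116.FF.odd_sub hs (A := univ) ?_).trans ?_)).trans
    (hA.trans (by norm_num : 10 ≤ 16))
  · intro e _
    exact ⟨mem_univ _, mem_univ _⟩
  · intro v hv
    rw [Q116.FF.mem_oddV] at hv
    have hne : (Nb H v).Nonempty := by
      rw [← card_pos]
      exact hv.2.pos
    obtain ⟨u, hu⟩ := hne
    exact hcov v u (mem_Nb.1 hu)

end Pool.Agent.Q163.FL
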