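import Pool.Agent.Q163.FL.Sr4

/-!
Multigraphs without induced paths on nine vertices: the dichotomy.
-/

set_option autoImplicit false
set_option linter.unusedSectionVars false

namespace Pool.Agent.Q163.FL

open Finset Pool.Agent.TH362.TF Pool.Agent.TH362.TF.Four
open Pool.Agent.TH499.TF (phi)

variable {V E : Type} [Fintype V] [DecidableEq V] [Fintype E] [DecidableEq E]

/-- the dichotomy for connected multigraphs without induced paths on nine vertices -/
theorem of_p9 {s t : E → V} (h1 : N1 s t univ) (hc : Con1 s t) (h : ¬ IP (Ad s t) 9) :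
    NZ s t univ ∨ PQ s t univ := by
  classical
  obtain ⟨f, hp, hf, hs, h2⟩ := exists_redPD s t
    (fun f => ¬ IP (Ad (fun e => f (s e)) (fun e => f (t e))) 9)
    (by
      intro f u v e hf huv k
      exact ip_quot huv k (by norm_num) hf) (fun x => x) h
  have hn1 : N1 (fun e => f (s e)) (fun e => f (t e)) univ :=
    quot_n1 (Finset.Subset.refl univ) (fun e h3 h4 => absurd h3 h4) h1
  set H := Q116.FF.gr (fun e => f (s e)) (fun e => f (t e)) univ with hH
  have hK : SR.KK H 9 := by
    refine ⟨hs.girth, ?_, ?_, ?_⟩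
    · intro v u hvu
      have h3 := Q116.FF.cut_card hs v
      have h4 := hn1 (fun x => decide (x = v))
      have h5 := h2 v
      have h6 : 0 < (Nb H v).card := card_pos.2 ⟨u, mem_Nb.2 hvu⟩
      rw [h3] at h4 h5
      have h7 : (Nb H v).card =
        (Q116.FF.nb (Q116.FF.gr (fun e => f (s e)) (fun e => f (t e)) univ) univ v).card := rfl
      omega
    · intro hc
      apply hp
      exact ip_congr (fun x y _ => Iff.rfl) hc
    · intro X hX u v u' v' huv hXu hu'v'
      have h3 : ∀ e, X (f (s e)) ↔ X (f (t e)) := by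
        intro e
        by_cases h4 : f (s e) = f (t e)
        · rw [h4]
        · have h5 : H.Adj (f (s e)) (f (t e)) := ⟨h4, e, mem_univ _, Or.inl ⟨rfl, rfl⟩⟩
          exact ⟨hX _ _ h5, hX _ _ h5.symm⟩
      obtain ⟨_, e, _, k⟩ := huv
      obtain ⟨_, e', _, k'⟩ := hu'v'
      have h6 : X (f (s e)) := by
        rcases k with ⟨a, _⟩ | ⟨_, b⟩
        · exact (congrArg X a).mpr hXu
        · exact (h3 e).2 ((congrArg X b).mpr hXu)
      have h7 := hc (fun x => X (f x)) h3 e e' h6
      rcases k' with ⟨a, _⟩ | ⟨_, b⟩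
      · exact (congrArg X a).mp h7
      · exact (congrArg X b).mp ((h3 e').1 h7)
  obtain ⟨A, hA, hcov⟩ := SR.concl_nine hK
  refine Q116.FF.concl h1 f hf ?_
  refine (card_le_card ((Q116.FF.odd_sub hs (A := univ) ?_).trans ?_)).trans hA
  · intro e _
    exact ⟨mem_univ _, mem_univ _⟩
  · intro v hv
    rw [Q116.FF.mem_oddV] at hv
    have hne : (Nb H v).Nonempty := by
      rw [← card_pos]
      exact hv.2.pos
    obtain ⟨u, hu⟩ := hne
    exact hcov v u (mem_Nb.1 hu)

/-! ### Components -/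

/-- the vertices outside of the component of `r` are identified with `r` -/
noncomputable def cmp (s t : E → V) (r v : V) : V := by
  classical
  exact if (Q116.FF.gr s t univ).Reachable r v then v else r

theorem cmp_in {s t : E → V} {r v : V} (h : (Q116.FF.gr s t univ).Reachable r v) :
    cmp s t r v = v := by
  unfold cmp
  rw [if_pos h]

theorem cmp_out {s t : E → V} {r v : V} (h : ¬ (Q116.FF.gr s t univ).Reachable r v) :
    cmp s t r v = r := by
  unfold cmp
  rw [if_neg h]

theorem reach_edge {s t : E → V} (r : V) (e : E) :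
    (Q116.FF.gr s t univ).Reachable r (s e) ↔ (Q116.FF.gr s t univ).Reachable r (t e) := by
  by_cases h : s e = t e
  · rw [h]
  · have h1 : (Q116.FF.gr s t univ).Adj (s e) (t e) := ⟨h, e, mem_univ _, Or.inl ⟨rfl, rfl⟩⟩
    exact ⟨fun h2 => h2.trans h1.reachable, fun h2 => h2.trans h1.symm.reachable⟩

theorem con_cmp (s t : E → V) (r : V) :
    Con1 (fun e => cmp s t r (s e)) (fun e => cmp s t r (t e)) := by
  intro X hX e e' h
  have key : ∀ v, (Q116.FF.gr s t univ).Reachable r v → (X r ↔ X v) := by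
    intro v hv
    rw [SimpleGraph.reachable_iff_reflTransGen] at hv
    induction hv with
    | refl => exact Iff.rfl
    | tail h1 h2 ih =>
      rename_i b c
      rw [← SimpleGraph.reachable_iff_reflTransGen] at h1
      have hc := h1.trans h2.reachable
      refine ih.trans ?_
      obtain ⟨_, e1, _, k⟩ := h2
      have h3 : X (cmp s t r (s e1)) ↔ X (cmp s t r (t e1)) := hX e1
      rcases k with ⟨a, b'⟩ | ⟨a, b'⟩
      · rw [a, b', cmp_in h1, cmp_in hc] at h3
        exact h3
      · rw [a, b', cmp_in h1, cmp_in hc] at h3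
        exact h3.symm
  have key2 : ∀ v, X (cmp s t r v) ↔ X r := by
    intro v
    by_cases hv : (Q116.FF.gr s t univ).Reachable r v
    · rw [cmp_in hv]
      exact (key v hv).symm
    · rw [cmp_out hv]
  exact (key2 _).2 ((key2 _).1 h)

theorem ad_cmp {s t : E → V} {r x y : V}
    (h : Ad (fun e => cmp s t r (s e)) (fun e => cmp s t r (t e)) x y) :
    Ad s t x y ∧ (Q116.FF.gr s t univ).Reachable r x := by
  obtain ⟨hne, e, _, k⟩ := h
  have hr : (Q116.FF.gr s t univ).Reachable r (s e) := by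
    by_contra hc
    have hc' : ¬ (Q116.FF.gr s t univ).Reachable r (t e) := fun h => hc ((reach_edge r e).2 h)
    have e1 : cmp s t r (s e) = cmp s t r (t e) := by rw [cmp_out hc, cmp_out hc']
    rcases k with ⟨a, b⟩ | ⟨a, b⟩
    · exact hne (a.symm.trans (e1.trans b))
    · exact hne (b.symm.trans (e1.symm.trans a))
  have hr' := (reach_edge r e).1 hr
  rcases k with ⟨a, b⟩ | ⟨a, b⟩
  · change cmp s t r (s e) = x at a
    change cmp s t r (t e) = y at b
    rw [cmp_in hr] at a
    rw [cmp_in hr'] at b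
    exact ⟨⟨hne, e, mem_univ _, Or.inl ⟨a, b⟩⟩, a ▸ hr⟩
  · change cmp s t r (s e) = y at a
    change cmp s t r (t e) = x at b
    rw [cmp_in hr] at a
    rw [cmp_in hr'] at b
    exact ⟨⟨hne, e, mem_univ _, Or.inr ⟨a, b⟩⟩, b ▸ hr'⟩

theorem ad_cmp' {s t : E → V} {r x y : V} (hx : (Q116.FF.gr s t univ).Reachable r x)
    (h : Ad s t x y) : Ad (fun e => cmp s t r (s e)) (fun e => cmp s t r (t e)) x y := by
  have hy : (Q116.FF.gr s t univ).Reachable r y :=
    hx.trans (SimpleGraph.Adj.reachable (G := Q116.FF.gr s t univ) h)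
  obtain ⟨hne, e, _, k⟩ := h
  refine ⟨hne, e, mem_univ _, ?_⟩
  rcases k with ⟨a, b⟩ | ⟨a, b⟩
  · left
    refine ⟨?_, ?_⟩
    · show cmp s t r (s e) = x
      rw [a, cmp_in hx]
    · show cmp s t r (t e) = y
      rw [b, cmp_in hy]
  · right
    refine ⟨?_, ?_⟩
    · show cmp s t r (s e) = y
      rw [a, cmp_in hy]
    · show cmp s t r (t e) = x
      rw [b, cmp_in hx]

theorem ip_cmp {s t : E → V} {r : V} {k : ℕ} (h : ¬ IP (Ad s t) k) :
    ¬ IP (Ad (fun e => cmp s t r (s e)) (fun e => cmp s t r (t e))) k := by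
  rintro ⟨p, hp⟩
  apply h
  refine ⟨p, fun i j hij hj => ⟨(hp i j hij hj).1, ?_⟩⟩
  have hr : (Q116.FF.gr s t univ).Reachable r (p i) := by
    exact (ad_cmp ((hp i (i + 1) (by omega) (by omega)).2.2 rfl)).2
  rw [← (hp i j hij hj).2]
  exact ⟨ad_cmp' hr, fun h => (ad_cmp h).1⟩

/-- **the dichotomy** for multigraphs without induced paths on nine vertices -/
theorem of_p9_all {s t : E → V} (h1 : N1 s t univ) (h : ¬ IP (Ad s t) 9) :
    NZ s t univ ∨ PQ s t univ := by
  classical
  have hq : ∀ r, NZ (fun e => cmp s t r (s e)) (fun e => cmp s t r (t e)) univ ∨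
      PQ (fun e => cmp s t r (s e)) (fun e => cmp s t r (t e)) univ := fun r =>
    of_p9 (quot_n1 (Finset.Subset.refl univ) (fun e h3 h4 => absurd h3 h4) h1) (con_cmp s t r)
      (ip_cmp h)
  by_cases hpq : ∃ r, PQ (fun e => cmp s t r (s e)) (fun e => cmp s t r (t e)) univ
  · obtain ⟨r, hr⟩ := hpq
    exact Or.inr (quot_pq (Finset.Subset.refl univ) (fun e h4 h5 => absurd h4 h5) hr)
  push Not at hpq
  left
  have hnz : ∀ r, NZ (fun e => cmp s t r (s e)) (fun e => cmp s t r (t e)) univ :=
    fun r => (hq r).resolve_right (hpq r)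
  choose φ hφ1 hφ2 using hnz
  set G := Q116.FF.gr s t univ with hG
  set ρ : V → V := fun v => Quot.out (G.connectedComponentMk v) with hρ
  have hρ1 : ∀ v, G.Reachable (ρ v) v := by
    intro v
    rw [← SimpleGraph.ConnectedComponent.eq]
    exact Quot.out_eq (G.connectedComponentMk v)
  have hρ2 : ∀ u v, G.Reachable u v → ρ u = ρ v := by
    intro u v huv
    rw [hρ]
    beta_reduce
    rw [SimpleGraph.ConnectedComponent.eq.2 huv]
  refine ⟨fun e => φ (ρ (s e)) e, fun e he => hφ1 _ e he, fun v => ?_⟩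
  have h6 := hφ2 (ρ v) v
  unfold Cons at h6 ⊢
  refine Eq.trans (sum_congr rfl fun e _ => ?_) h6
  beta_reduce
  by_cases hr : G.Reachable (ρ v) (s e)
  · have hr' : G.Reachable (ρ v) (t e) := (reach_edge _ e).1 hr
    have h5 : ρ (s e) = ρ v := hρ2 _ _ (hr.symm.trans (hρ1 v))
    rw [cmp_in hr, cmp_in hr', h5]
  · have hr' : ¬ G.Reachable (ρ v) (t e) := fun h => hr ((reach_edge _ e).2 h)
    have n1 : s e ≠ v := fun hc => hr (hc ▸ hρ1 v)
    have n2 : t e ≠ v := fun hc => hr' (hc ▸ hρ1 v)
    rw [cmp_out hr, cmp_out hr', if_neg n1, if_neg n2, add_zero]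
    split_ifs
    · exact (dbl _).symm
    · rw [add_zero]

end Pool.Agent.Q163.FL
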