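import Pool.Agent.Q163.FL.P9
import Pool.Agent.Q116.FF.Bw

/-!
The first Blanusa snark has no induced path with thirteen vertices.
-/

set_option autoImplicit false

namespace Pool.Agent.Q163.FL

open Finset Pool.Agent.TH362.TF

/-- the neighbours of the vertices -/
def nbl (v : ℕ) : List ℕ :=
  ([[1, 2, 3], [0, 4, 5], [0, 6, 7], [0, 8, 9], [1, 8, 10], [1, 6, 11], [2, 5, 8], [2, 12, 13],
    [3, 4, 6], [3, 10, 14], [4, 9, 15], [5, 12, 16], [7, 11, 17], [7, 14, 16], [9, 13, 17],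
    [10, 16, 17], [11, 13, 15], [12, 14, 15]] : List (List ℕ)).getD v []

/-- the sets of the vertices at distance at most one -/
def nbv (v : ℕ) : ℕ :=
  ([15, 51, 197, 777, 1298, 2146, 356, 12420, 344, 17928, 34320, 71712, 137344, 90240, 156160,
    230400, 108544, 184320] : List ℕ).getD v 0

/-- there are `n` further vertices of an induced path which has reached `v` -/
def ext : ℕ → ℕ → ℕ → Bool
  | 0, _, _ => true
  | n + 1, v, bad => (nbl v).any fun w => !(bad.testBit w) && ext n w (bad ||| nbv v)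

theorem ext_none : ∀ v : Fin 18, ext 12 v.val 0 = false := by decide +kernel

theorem nb_facts : ∀ v w : Fin 18, ((∃ e : Fin 27, (Q116.FF.es e = v ∧ Q116.FF.et e = w) ∨
    (Q116.FF.es e = w ∧ Q116.FF.et e = v)) → w.val ∈ nbl v.val) ∧
    ((nbv v.val).testBit w.val = true → w = v ∨ ∃ e : Fin 27,
      (Q116.FF.es e = v ∧ Q116.FF.et e = w) ∨ (Q116.FF.es e = w ∧ Q116.FF.et e = v)) := by
  decide +kernel

theorem ext_of {p : ℕ → Fin 18} {R : Fin 18 → Fin 18 → Prop}
    (hR : ∀ v w, v ≠ w → (R v w ↔ ∃ e : Fin 27, (Q116.FF.es e = v ∧ Q116.FF.et e = w) ∨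
      (Q116.FF.es e = w ∧ Q116.FF.et e = v)))
    (hp : ∀ i j, i < j → j < 13 → p i ≠ p j ∧ (R (p i) (p j) ↔ j = i + 1)) :
    ∀ m i bad, i + m = 12 → (∀ j, i < j → j < 13 → bad.testBit (p j).val = false) →
      ext m (p i).val bad = true := by
  intro m
  induction m with
  | zero => intro i bad _ _; rfl
  | succ m ih =>
    intro i bad hi hb
    unfold ext
    rw [List.any_eq_true]
    have h1 := hp i (i + 1) (Nat.lt_succ_self i) (by omega)
    refine ⟨(p (i + 1)).val, (nb_facts _ _).1 ((hR _ _ h1.1).1 (h1.2.2 rfl)), ?_⟩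
    rw [hb (i + 1) (Nat.lt_succ_self i) (by omega), ih (i + 1) (bad ||| nbv (p i).val) (by omega)]
    · rfl
    · intro j h2 h3
      rw [Nat.testBit_or, hb j (by omega) h3, Bool.false_or]
      by_contra h4
      rw [Bool.not_eq_false] at h4
      have h5 := hp i j (by omega) h3
      rcases (nb_facts _ _).2 h4 with h | h
      · exact h5.1 h.symm
      · have := h5.2.1 ((hR _ _ h5.1).2 h)
        omega

theorem blanusa_ip {R : Fin 18 → Fin 18 → Prop}
    (hR : ∀ v w, v ≠ w → (R v w ↔ ∃ e : Fin 27, (Q116.FF.es e = v ∧ Q116.FF.et e = w) ∨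
      (Q116.FF.es e = w ∧ Q116.FF.et e = v))) :
    ¬ ∃ p : ℕ → Fin 18, ∀ i j, i < j → j < 13 → p i ≠ p j ∧ (R (p i) (p j) ↔ j = i + 1) := by
  rintro ⟨p, hp⟩
  have h := ext_of hR hp 12 0 0 rfl (fun j _ _ => Nat.zero_testBit _)
  rw [ext_none] at h
  exact Bool.noConfusion h

end Pool.Agent.Q163.FL
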