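import Pool.Agent.Q163.FL.Base
import Pool.Agent.TH395.P5.Blk5

/-!
Nowhere-zero 4-flows and path decompositions into sets of small independence number or small clique
cover number.
-/

set_option autoImplicit false
set_option linter.unusedSectionVars false

namespace Pool.Agent.Q163.FL

open Finset Pool.Agent.TH362.TF

variable {V E : Type} [Fintype V] [DecidableEq V] [Fintype E] [DecidableEq E]

open Pool.Agent.TH499.TF (phi)

/-- a path decomposition such that all bags have the property `P` -/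
def PDP (s t : E → V) (P : Finset V → Prop) : Prop :=
  ∃ X : ℕ → Finset V, (∀ e, ∃ i, s e ∈ X i ∧ t e ∈ X i) ∧
    (∀ i j k, i ≤ j → j ≤ k → X i ∩ X k ⊆ X j) ∧ ∀ i, P (X i)

theorem PDP.sy {s t : E → V} {P : Finset V → Prop} (h : PDP s t P) : PDP t s P := by
  obtain ⟨X, h1, h2, h4⟩ := h
  exact ⟨X, fun e => let ⟨i, a, b⟩ := h1 e; ⟨i, b, a⟩, h2, h4⟩

theorem PDP.contract {src dst : E → V} {P P' : Finset V → Prop} (e : E) (h : PDP src dst P)
    (hne : src e ≠ dst e) (hP : ∀ X, P X → P' (X.image (phi (src e) (dst e)))) :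
    PDP (fun d => phi (src e) (dst e) (src d)) (fun d => phi (src e) (dst e) (dst d)) P' := by
  obtain ⟨X, h1, h2, h4⟩ := h
  refine ⟨fun i => (X i).image (phi (src e) (dst e)), ?_, ?_, fun i => hP _ (h4 i)⟩
  · intro d
    obtain ⟨i, hi1, hi2⟩ := h1 d
    exact ⟨i, mem_image_of_mem _ hi1, mem_image_of_mem _ hi2⟩
  · intro i j k hij hjk x hx
    rw [mem_inter, mem_image, mem_image] at hx
    obtain ⟨⟨y, hy, hyx⟩, ⟨z, hz, hzx⟩⟩ := hx
    rw [mem_image]
    by_cases hxu : x = src e
    · obtain ⟨b, hb1, hb2⟩ := h1 e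
      have key : ∀ t, (∀ y, y ∈ X t → phi (src e) (dst e) y = x →
          y ∈ X t ∧ (y = src e ∨ y = dst e)) := by
        intro t y hy hyx
        refine ⟨hy, ?_⟩
        unfold Pool.Agent.TH499.TF.phi at hyx
        by_cases h : y = dst e
        · exact Or.inr h
        · rw [if_neg h] at hyx
          exact Or.inl (hyx.trans hxu)
      have hfin : ∀ y, (y = src e ∨ y = dst e) → phi (src e) (dst e) y = x := by
        rintro y (rfl | rfl)
        · unfold Pool.Agent.TH499.TF.phi; rw [if_neg hne, hxu]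
        · unfold Pool.Agent.TH499.TF.phi; rw [if_pos rfl, hxu]
      have hyb : ∀ y, (y = src e ∨ y = dst e) → y ∈ X b := by
        rintro y (rfl | rfl)
        · exact hb1
        · exact hb2
      rcases le_total j b with hjb | hjb
      · obtain ⟨h5, h6⟩ := key i y hy hyx
        exact ⟨y, h2 i j b hij hjb (mem_inter.mpr ⟨h5, hyb y h6⟩), hfin y h6⟩
      · obtain ⟨h5, h6⟩ := key k z hz hzx
        exact ⟨z, h2 b j k hjb hjk (mem_inter.mpr ⟨hyb z h6, h5⟩), hfin z h6⟩
    · have hy' : y = x := by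
        unfold Pool.Agent.TH499.TF.phi at hyx
        by_cases h : y = dst e
        · rw [if_pos h] at hyx; exact absurd hyx.symm hxu
        · rw [if_neg h] at hyx; exact hyx
      have hz' : z = x := by
        unfold Pool.Agent.TH499.TF.phi at hzx
        by_cases h : z = dst e
        · rw [if_pos h] at hzx; exact absurd hzx.symm hxu
        · rw [if_neg h] at hzx; exact hzx
      refine ⟨x, h2 i j k hij hjk (mem_inter.mpr ⟨hy' ▸ hy, hz' ▸ hz⟩), ?_⟩
      rw [← hy']
      exact hyx.trans hy'.symm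

/-- **4-flows**: path decompositions whose bags become small in all graphs without short circuits -/
theorem flow_path (s t : E → V) (Q : Finset V → Prop)
    (hQ : ∀ (f : V → V), Q116.FF.Sm (fun e => f (s e)) (fun e => f (t e)) univ →
      ∀ X, Q X → (X.image f).card ≤ 6)
    (hT : PDP s t Q) (hPM : ¬ Pool.Agent.TH499.TF.PM s t)
    (hb : ∀ Y, (Pool.Agent.TH499.TF.dlt s t Y).card ≠ 1) : Pool.Agent.TH499.TF.NZ s t := by
  classical
  obtain ⟨f, ⟨h1, h2⟩, h3, h4⟩ := exists_redP s t univ
    (fun f => PDP (fun e => f (s e)) (fun e => f (t e)) (fun X => ∃ Y, Q Y ∧ X = Y.image f) ∧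
      ¬ Pool.Agent.TH499.TF.PM (fun e => f (s e)) (fun e => f (t e)))
    (by
      rintro f u v e _ ⟨h1, h2⟩ huv k
      have him : ∀ Y : Finset V, (Y.image f).image (phi u v) = Y.image (fun x => phi u v (f x)) := by
        intro Y
        rw [image_image]
        rfl
      refine ⟨?_, fun h => h2 (h.of_phi huv k)⟩
      have key : ∀ s' t' : E → V, s' e = u → t' e = v →
          PDP s' t' (fun X => ∃ Y, Q Y ∧ X = Y.image f) →
          PDP (fun e => phi u v (s' e)) (fun e => phi u v (t' e))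
            (fun X => ∃ Y, Q Y ∧ X = Y.image (fun x => phi u v (f x))) := by
        intro s' t' k1 k2 h1
        have := PDP.contract
          (P' := fun X => ∃ Y, Q Y ∧ X = Y.image (fun x => phi u v (f x))) e h1
          (by rw [k1, k2]; exact huv) (by
            rintro X ⟨Y, hY, rfl⟩
            refine ⟨Y, hY, ?_⟩
            rw [← him, k1, k2])
        rw [k1, k2] at this
        exact this
      rcases k with ⟨k1, k2⟩ | ⟨k1, k2⟩
      · exact key _ _ k1 k2 h1
      · exact PDP.sy (key _ _ k2 k1 (PDP.sy h1)))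
    (fun x => x) ⟨by
      obtain ⟨X, a, b, c⟩ := hT
      exact ⟨X, a, b, fun i => ⟨X i, c i, by rw [image_id']⟩⟩, hPM⟩
  have h5 : Pool.Agent.TH497.PW.HasPD 6 (fun e => f (s e)) (fun e => f (t e)) := by
    obtain ⟨X, a, b, c⟩ := h1
    refine ⟨X, a, b, fun i => ?_⟩
    obtain ⟨Y, hY, h⟩ := c i
    rw [h]
    exact hQ f h4 Y hY
  have h6 : Pool.Agent.TH499.TF.NZ (fun e => f (s e)) (fun e => f (t e)) :=
    Pool.Agent.TH395.P5.cls5 h5 h2 (dlt_quot f hb)
  exact nz_conv.1 (h3 (nz_conv.2 h6))

end Pool.Agent.Q163.FL
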