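import Pool.Agent.Q163.FL.P6

/-!
Exhaustive search for graphs of girth at least five and minimum degree at least three without long
induced paths: the functions.
-/

set_option autoImplicit false
set_option linter.unusedSectionVars false

namespace Pool.Agent.Q163.FL.SR

/-! The functions are written for evaluation in the kernel. -/

/-- forces the evaluation of the argument -/
noncomputable def fc {α : Type} (n : ℕ) (k : ℕ → α) : α :=
  Nat.rec (motive := fun _ => α) (k 0) (fun m _ => k (Nat.succ m)) n

/-- one bit -/
noncomputable def bit (i : ℕ) : ℕ := Nat.pow (nat_lit 2) i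

/-- row of the adjacency matrix, 32 bits for each row -/
noncomputable def row (A i : ℕ) : ℕ :=
  Nat.land (Nat.shiftRight A (Nat.mul (nat_lit 32) i)) (nat_lit 4294967295)

/-- one or two bits -/
noncomputable def two2 (r : ℕ) : Bool :=
  cond (Nat.beq r (nat_lit 0)) false (fc (Nat.sub r (bit (Nat.log2 r))) fun c =>
    cond (Nat.beq c (nat_lit 0)) true
      (Nat.beq (Nat.sub c (bit (Nat.log2 c))) (nat_lit 0)))

/-- the vertex number `i` of the path `p`, 5 bits for each vertex -/
noncomputable def X (p i : ℕ) : ℕ :=
  Nat.land (Nat.shiftRight p (Nat.mul (nat_lit 5) i)) (nat_lit 31)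

/-- the neighbours of the vertex number `i` in the path -/
noncomputable def nbm (p K i : ℕ) : ℕ :=
  Nat.lor (cond (Nat.beq i (nat_lit 0)) (nat_lit 0) (bit (X p (Nat.pred i))))
    (cond (Nat.beq (Nat.succ i) K) (nat_lit 0) (bit (X p (Nat.succ i))))

/-- all vertices of the path; they are different -/
noncomputable def mk (p : ℕ) (k : ℕ) (cont : ℕ → Bool) : ℕ → Bool :=
  Nat.rec (motive := fun _ => ℕ → Bool) (fun M => cont M) (fun i ih M =>
    fc (bit (X p i)) fun b => cond (Nat.beq (Nat.land M b) (nat_lit 0))
      (fc (Nat.lor M b) ih) false) k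

/-- the adjacencies between the vertices of the path -/
noncomputable def chk (A n p K M : ℕ) (k : ℕ) : Bool :=
  Nat.rec (motive := fun _ => Bool) true (fun i ih =>
    and (fc (X p i) fun x => cond (Nat.beq x n) true
      (Nat.beq (Nat.land (row A x) M) (Nat.land (nbm p K i) M))) ih) k

/-- certificates: a state is `ex` (treated elsewhere) or `st u P C`, where `u` is the vertex whose
next neighbour is considered, `P` is a list of paths (`pa q p` is the path `p` in which the new
vertex is the vertex number `q`), and `C` is the list of the sets of neighbours which are not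
rejected by these paths, with the states which they give -/
inductive Ct where
  | nil : Ct
  | ex : Ct
  | st : ℕ → Ct → Ct → Ct
  | ch : ℕ → Ct → Ct → Ct
  | pa : ℕ → ℕ → Ct → Ct

/-- lists of pairs of sets -/
inductive Pl where
  | nil : Pl
  | cons : ℕ → ℕ → Pl → Pl

/-- the checked paths: sets of vertices and sets of neighbours of the new vertex -/
noncomputable def mkl (A n K : ℕ) (c : Ct) : Pl → (Pl → Bool) → Bool :=
  Ct.rec (motive := fun _ => Pl → (Pl → Bool) → Bool) (fun l f => f l) (fun _ _ => false)
    (fun _ _ _ _ _ _ _ => false) (fun _ _ _ _ _ _ _ => false)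
    (fun q p _ ih l f => and (Nat.ble (Nat.succ q) K) (and (Nat.beq (X p q) n)
      (mk p K (fun M => fc (Nat.sub M (bit n)) fun M' =>
        and (Nat.beq (Nat.shiftRight M (Nat.succ n)) (nat_lit 0)) (and (chk A n p K M' K)
          (fc (Nat.land (nbm p K q) M') fun W => ih (Pl.cons M' W l) f))) (nat_lit 0)))) c

/-- the set is rejected by one of the paths -/
noncomputable def pmt (S : ℕ) (l : Pl) : Bool :=
  Pl.rec (motive := fun _ => Bool) false
    (fun M W _ ih => cond (Nat.beq (Nat.land S M) W) true ih) l

/-- the state for the set `S` of neighbours -/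
noncomputable def look (S : ℕ) (c : Ct) : Option Ct :=
  Ct.rec (motive := fun _ => Option Ct) none none (fun _ _ _ _ _ => none)
    (fun S' t _ _ ih => cond (Nat.beq S S') (some t) ih) (fun _ _ _ _ => none) c

/-- all possible sets of neighbours of a new vertex `n` -/
noncomputable def en (A n : ℕ) (leaf : ℕ → ℕ → Bool) (i : ℕ) : ℕ → ℕ → ℕ → Bool :=
  Nat.rec (motive := fun _ => ℕ → ℕ → ℕ → Bool) (fun S _ B => leaf S B) (fun i ih S NS B =>
    and (ih S NS B) (fc (row A i) fun r =>
      cond (Nat.beq (Nat.land r (Nat.lor S NS)) (nat_lit 0))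
        (fc (Nat.lor S (bit i)) fun S' => fc (Nat.lor NS r) fun NS' =>
          fc (Nat.lor B (Nat.lor (bit (Nat.add (Nat.mul (nat_lit 32) i) n))
            (bit (Nat.add (Nat.mul (nat_lit 32) n) i)))) fun B' => ih S' NS' B') true)) i

/-- membership -/
noncomputable def memb (k : ℕ) (L : List ℕ) : Bool :=
  List.rec (motive := fun _ => Bool) false (fun a _ ih => cond (Nat.beq k a) true ih) L

/-- the treatment of a set `S` of neighbours -/
noncomputable def leaf (ih : ℕ → Ct → Bool) (ch : Ct) (l : Pl) (S B : ℕ) : Bool :=
  Option.casesOn (motive := fun _ => Bool) (look S ch) (pmt S l) (fun c' => ih B c')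

/-- the search -/
noncomputable def search (L : List ℕ) (K : ℕ) (fuel : ℕ) : ℕ → ℕ → Ct → Bool :=
  Nat.rec (motive := fun _ => ℕ → ℕ → Ct → Bool) (fun _ _ _ => false) (fun _ ih n A c =>
    and (Nat.ble n (nat_lit 30)) (Ct.casesOn (motive := fun _ => Bool) c false
      (memb (Nat.add (Nat.mul (nat_lit 32) A) n) L)
      (fun u P ch => mkl A n K P Pl.nil fun l => cond (Nat.ble (Nat.succ u) n)
        (fc (row A u) fun r => and (two2 r)
          (en A n (fun S B => leaf (ih (Nat.succ n)) ch l S B) n (bit u) r
            (Nat.lor A (Nat.lor (bit (Nat.add (Nat.mul (nat_lit 32) u) n))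
              (bit (Nat.add (Nat.mul (nat_lit 32) n) u))))))
        (and (and (Nat.ble n (nat_lit 16)) (Nat.ble (nat_lit 1) A))
          (en A n (fun S B => cond (Nat.beq S (nat_lit 0)) true
            (leaf (ih (Nat.succ n)) ch l S B)) n (nat_lit 0) (nat_lit 0) A)))
      (fun _ _ _ => false) (fun _ _ _ => false))) fuel

end Pool.Agent.Q163.FL.SR
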