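import Pool.Agent.Q163.FL.Sr

/-!
Exhaustive search for graphs of girth at least five and minimum degree at least three without long
induced paths: correctness.
-/

set_option autoImplicit false
set_option linter.unusedSectionVars false

namespace Pool.Agent.Q163.FL.SR

open Finset

theorem fc_eq {α : Type} (n : ℕ) (k : ℕ → α) : fc n k = k n := by
  cases n <;> rfl

theorem land_tb (x y i : ℕ) : (Nat.land x y).testBit i = (x.testBit i && y.testBit i) :=
  Nat.testBit_and x y i

theorem lor_tb (x y i : ℕ) : (Nat.lor x y).testBit i = (x.testBit i || y.testBit i) :=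
  Nat.testBit_or x y i

theorem bit_tb (i j : ℕ) : (bit i).testBit j = true ↔ j = i := by
  show (2 ^ i).testBit j = true ↔ j = i
  rw [Nat.testBit_two_pow]
  simp [eq_comm]

theorem row_tb (A i j : ℕ) : (row A i).testBit j = (A.testBit (32 * i + j) && decide (j < 32)) := by
  show ((A >>> (32 * i)) &&& (2 ^ 32 - 1)).testBit j = _
  rw [Nat.testBit_and, Nat.testBit_shiftRight, Nat.testBit_two_pow_sub_one]

theorem row_tb' {A i j : ℕ} (hj : j < 32) : (row A i).testBit j = true ↔
    A.testBit (32 * i + j) = true := by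
  rw [row_tb]
  simp [hj]

/-- removal of the highest bit -/
theorem sub_tb {c k : ℕ} (h1 : c.testBit k = true) (h2 : c < 2 ^ (k + 1)) (j : ℕ) :
    (Nat.sub c (bit k)).testBit j = true ↔ c.testBit j = true ∧ j ≠ k := by
  have h3 : 2 ^ k ≤ c := Nat.ge_two_pow_of_testBit h1
  have h4 : c - 2 ^ k = c % 2 ^ k := by
    rw [Nat.mod_eq_sub_mod h3, Nat.mod_eq_of_lt]
    rw [pow_succ] at h2
    omega
  show (c - 2 ^ k).testBit j = true ↔ _
  rw [h4, Nat.testBit_mod_two_pow]
  constructor
  · intro h
    simp only [Bool.and_eq_true, decide_eq_true_eq] at h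
    exact ⟨h.2, by omega⟩
  · rintro ⟨h5, h6⟩
    simp only [Bool.and_eq_true, decide_eq_true_eq]
    refine ⟨?_, h5⟩
    by_contra h7
    have h8 : k + 1 ≤ j := by omega
    have h9 : c < 2 ^ j := h2.trans_le (Nat.pow_le_pow_right (by norm_num) h8)
    rw [Nat.testBit_lt_two_pow h9] at h5
    exact absurd h5 (by simp)

theorem log_tb {c : ℕ} (h : c ≠ 0) (j : ℕ) :
    (Nat.sub c (bit (Nat.log2 c))).testBit j = true ↔ c.testBit j = true ∧ j ≠ Nat.log2 c :=
  sub_tb (Nat.testBit_log2 h) Nat.lt_log2_self j

theorem two2_sound {r : ℕ} (h : two2 r = true) :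
    r ≠ 0 ∧ ∃ a b, ∀ j, r.testBit j = true → j = a ∨ j = b := by
  unfold two2 at h
  rw [fc_eq] at h
  by_cases h1 : r = 0
  · subst h1
    exact absurd h (by simp)
  refine ⟨h1, Nat.log2 r, Nat.log2 (Nat.sub r (bit (Nat.log2 r))), fun j hj => ?_⟩
  by_cases h2 : j = Nat.log2 r
  · exact Or.inl h2
  right
  have h3 := (log_tb h1 j).2 ⟨hj, h2⟩
  set c := Nat.sub r (bit (Nat.log2 r)) with hc
  have hc0 : c ≠ 0 := by
    intro h4
    rw [h4] at h3
    simp at h3
  by_contra h4
  have h5 := (log_tb hc0 j).2 ⟨h3, h4⟩
  have hb1 : Nat.beq r 0 = false := by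
    cases hh : Nat.beq r 0
    · rfl
    · exact absurd (Nat.eq_of_beq_eq_true hh) h1
  have hb2 : Nat.beq c 0 = false := by
    cases hh : Nat.beq c 0
    · rfl
    · exact absurd (Nat.eq_of_beq_eq_true hh) hc0
  rw [hb1, hb2] at h
  have h6 := Nat.eq_of_beq_eq_true h
  rw [h6] at h5
  simp at h5

theorem nbm_tb {p K i y : ℕ} : (nbm p K i).testBit y = true ↔
    (i ≠ 0 ∧ y = X p (i - 1)) ∨ (i + 1 ≠ K ∧ y = X p (i + 1)) := by
  unfold nbm
  rw [lor_tb, Bool.or_eq_true]
  refine or_congr ?_ ?_
  · by_cases h : i = 0
    · subst h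
      simp
    · have hb : Nat.beq i 0 = false := by
        cases hh : Nat.beq i 0
        · rfl
        · exact absurd (Nat.eq_of_beq_eq_true hh) h
      show (cond (Nat.beq i 0) 0 (bit (X p (Nat.pred i)))).testBit y = true ↔ _
      rw [hb, cond_false, bit_tb]
      simp [h, Nat.pred_eq_sub_one]
  · by_cases h : i + 1 = K
    · have hb : Nat.beq (Nat.succ i) K = true := by
        rw [← h]
        exact Nat.beq_refl _
      rw [hb, cond_true]
      simp [h]
    · have hb : Nat.beq (Nat.succ i) K = false := by
        cases hh : Nat.beq (Nat.succ i) K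
        · rfl
        · exact absurd (Nat.eq_of_beq_eq_true hh) h
      rw [hb, cond_false, bit_tb]
      simp [h]

theorem land_zero {x y : ℕ} (h : Nat.beq (Nat.land x y) 0 = true) (j : ℕ)
    (hx : x.testBit j = true) : y.testBit j = false := by
  have h1 := Nat.eq_of_beq_eq_true h
  have h2 : (Nat.land x y).testBit j = false := by rw [h1]; simp
  rw [land_tb, hx, Bool.true_and] at h2
  exact h2

theorem mk_sound {p : ℕ} {cont : ℕ → Bool} : ∀ k M, mk p k cont M = true →
    ∃ M', cont M' = true ∧ (∀ y, M'.testBit y = true ↔ M.testBit y = true ∨ ∃ i, i < k ∧ X p i = y) ∧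
      (∀ i j, i < j → j < k → X p i ≠ X p j) ∧ ∀ i, i < k → M.testBit (X p i) = false := by
  intro k
  induction k with
  | zero =>
    intro M h
    exact ⟨M, h, by simp, by simp, by simp⟩
  | succ k ih =>
    intro M h
    have h1 : mk p (k + 1) cont M = fc (bit (X p k)) fun b =>
      cond (Nat.beq (Nat.land M b) 0) (fc (Nat.lor M b) (mk p k cont)) false := rfl
    rw [h1, fc_eq, fc_eq] at h
    cases hb : Nat.beq (Nat.land M (bit (X p k))) 0
    · rw [hb, cond_false] at h
      exact absurd h (by simp)
    · rw [hb, cond_true] at h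
      obtain ⟨M', m1, m2, m3, m4⟩ := ih _ h
      have h0 : M.testBit (X p k) = false := by
        by_contra hc
        rw [Bool.not_eq_false] at hc
        have := land_zero hb _ hc
        rw [(bit_tb _ _).2 rfl] at this
        exact absurd this (by simp)
      refine ⟨M', m1, fun y => ?_, ?_, ?_⟩
      · rw [m2, lor_tb, Bool.or_eq_true, bit_tb]
        constructor
        · rintro ((h | h) | ⟨i, hi, h⟩)
          · exact Or.inl h
          · exact Or.inr ⟨k, by omega, h.symm⟩
          · exact Or.inr ⟨i, by omega, h⟩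
        · rintro (h | ⟨i, hi, h⟩)
          · exact Or.inl (Or.inl h)
          · by_cases hik : i = k
            · exact Or.inl (Or.inr (hik ▸ h.symm))
            · exact Or.inr ⟨i, by omega, h⟩
      · intro i j hij hj
        by_cases hjk : j = k
        · subst hjk
          intro hc
          have h5 := m4 i hij
          rw [lor_tb, (bit_tb _ _).2 hc] at h5
          simp at h5
        · exact m3 i j hij (by omega)
      · intro i hi
        by_cases hik : i = k
        · exact hik ▸ h0
        · have h5 := m4 i (by omega)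
          rw [lor_tb] at h5
          exact (Bool.or_eq_false_iff.1 h5).1

theorem chk_sound {A n p K M : ℕ} : ∀ k, chk A n p K M k = true → ∀ i, i < k →
    X p i = n ∨ Nat.land (row A (X p i)) M = Nat.land (nbm p K i) M := by
  intro k
  induction k with
  | zero => intro _ i hi; omega
  | succ k ih =>
    intro h i hi
    have h1 : chk A n p K M (k + 1) = and (fc (X p k) fun x => cond (Nat.beq x n) true
      (Nat.beq (Nat.land (row A x) M) (Nat.land (nbm p K k) M))) (chk A n p K M k) := rfl
    rw [h1, fc_eq, Bool.and_eq_true] at h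
    obtain ⟨h2, h3⟩ := h
    by_cases hik : i = k
    · subst hik
      cases hb : Nat.beq (X p i) n
      · rw [hb, cond_false] at h2
        exact Or.inr (Nat.eq_of_beq_eq_true h2)
      · exact Or.inl (Nat.eq_of_beq_eq_true hb)
    · exact ih h3 i (by omega)

/-- all pairs of the list have the property -/
def AllP (Q : ℕ → ℕ → Prop) : Pl → Prop
  | Pl.nil => True
  | Pl.cons M W l => Q M W ∧ AllP Q l

theorem pmt_sound {Q : ℕ → ℕ → Prop} {S : ℕ} : ∀ l, AllP Q l → pmt S l = true →
    ∃ M W, Q M W ∧ Nat.land S M = W := by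
  intro l
  induction l with
  | nil => intro _ h; exact absurd h (by simp [pmt])
  | cons M W l ih =>
    rintro ⟨h1, h2⟩ h
    have h3 : pmt S (Pl.cons M W l) = cond (Nat.beq (Nat.land S M) W) true (pmt S l) := rfl
    rw [h3] at h
    cases hb : Nat.beq (Nat.land S M) W
    · rw [hb, cond_false] at h
      exact ih h2 h
    · exact ⟨M, W, h1, Nat.eq_of_beq_eq_true hb⟩

theorem memb_sound {k : ℕ} : ∀ L : List ℕ, memb k L = true → k ∈ L := by
  intro L
  induction L with
  | nil => intro h; exact absurd h (by simp [memb])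
  | cons a L ih =>
    intro h
    have h1 : memb k (a :: L) = cond (Nat.beq k a) true (memb k L) := rfl
    rw [h1] at h
    cases hb : Nat.beq k a
    · rw [hb, cond_false] at h
      exact List.mem_cons_of_mem _ (ih h)
    · rw [Nat.eq_of_beq_eq_true hb]
      exact List.mem_cons_self

theorem mkl_sound {A n K : ℕ} {Q : ℕ → ℕ → Prop} {f : Pl → Bool}
    (hQ : ∀ q p M, q < K → X p q = n → (∀ y, M.testBit y = true ↔ ∃ i, i < K ∧ X p i = y) →
      (∀ i j, i < j → j < K → X p i ≠ X p j) → Nat.shiftRight M (Nat.succ n) = 0 →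
      (∀ i, i < K → X p i = n ∨ Nat.land (row A (X p i)) (Nat.sub M (bit n)) =
        Nat.land (nbm p K i) (Nat.sub M (bit n))) →
      Q (Nat.sub M (bit n)) (Nat.land (nbm p K q) (Nat.sub M (bit n)))) :
    ∀ c l, AllP Q l → mkl A n K c l f = true → ∃ l', AllP Q l' ∧ f l' = true := by
  intro c
  induction c with
  | nil => intro l hl h; exact ⟨l, hl, h⟩
  | ex => intro l hl h; exact absurd h (by simp [mkl])
  | st _ _ _ _ _ => intro l hl h; exact absurd h (by simp [mkl])
  | ch _ _ _ _ _ => intro l hl h; exact absurd h (by simp [mkl])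
  | pa q p c ih =>
    intro l hl h
    have h1 : mkl A n K (Ct.pa q p c) l f = and (Nat.ble (Nat.succ q) K) (and (Nat.beq (X p q) n)
      (mk p K (fun M => fc (Nat.sub M (bit n)) fun M' =>
        and (Nat.beq (Nat.shiftRight M (Nat.succ n)) 0) (and (chk A n p K M' K)
          (fc (Nat.land (nbm p K q) M') fun W => mkl A n K c (Pl.cons M' W l) f))) 0)) := rfl
    rw [h1, Bool.and_eq_true, Bool.and_eq_true] at h
    obtain ⟨h2, h3, h4⟩ := h
    obtain ⟨M, m1, m2, m3, _⟩ := mk_sound _ _ h4
    rw [fc_eq, fc_eq, Bool.and_eq_true, Bool.and_eq_true] at m1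
    obtain ⟨m5, m6, m7⟩ := m1
    refine ih _ (show AllP Q (Pl.cons _ _ l) from ⟨?_, hl⟩) m7
    refine hQ q p M (Nat.le_of_ble_eq_true h2) (Nat.eq_of_beq_eq_true h3) (fun y => ?_) m3
      (Nat.eq_of_beq_eq_true m5) (chk_sound _ m6)
    rw [m2]
    simp

/-- the sets of neighbours are enumerated -/
theorem en_sound {A n : ℕ} {leaf : ℕ → ℕ → Bool} {Q P0 : ℕ → Prop}
    (hQ : ∀ i j, Q i → Q j → i ≠ j → (row A i).testBit j = false ∧
      ∀ k, (row A i).testBit k = true → (row A j).testBit k = true → False) :
    ∀ i S NS B, (∀ j, S.testBit j = true ↔ Q j ∧ (i ≤ j ∨ P0 j)) →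
      (∀ k, NS.testBit k = true ↔ ∃ j, (Q j ∧ (i ≤ j ∨ P0 j)) ∧ (row A j).testBit k = true) →
      (∀ m, B.testBit m = true ↔ A.testBit m = true ∨
        ∃ j, (Q j ∧ (i ≤ j ∨ P0 j)) ∧ (m = 32 * j + n ∨ m = 32 * n + j)) →
      en A n leaf i S NS B = true →
      ∃ S' B', (∀ j, S'.testBit j = true ↔ Q j) ∧
        (∀ m, B'.testBit m = true ↔ A.testBit m = true ∨
          ∃ j, Q j ∧ (m = 32 * j + n ∨ m = 32 * n + j)) ∧ leaf S' B' = true := by
  intro i
  induction i with
  | zero =>
    intro S NS B h1 _ h3 h
    refine ⟨S, B, fun j => ?_, fun m => ?_, h⟩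
    · rw [h1]
      simp
    · rw [h3]
      simp
  | succ i ih =>
    intro S NS B h1 h2 h3 h
    have h4 : en A n leaf (i + 1) S NS B = and (en A n leaf i S NS B) (fc (row A i) fun r =>
      cond (Nat.beq (Nat.land r (Nat.lor S NS)) 0)
        (fc (Nat.lor S (bit i)) fun S' => fc (Nat.lor NS r) fun NS' =>
          fc (Nat.lor B (Nat.lor (bit (Nat.add (Nat.mul 32 i) n))
            (bit (Nat.add (Nat.mul 32 n) i)))) fun B' => en A n leaf i S' NS' B') true) := rfl
    rw [h4, Bool.and_eq_true] at h
    obtain ⟨h5, h6⟩ := h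
    simp only [fc_eq] at h6
    by_cases hi : Q i ∧ ¬ P0 i
    · obtain ⟨q1, q2⟩ := hi
      have hb : Nat.beq (Nat.land (row A i) (Nat.lor S NS)) 0 = true := by
        have h7 : Nat.land (row A i) (Nat.lor S NS) = 0 := by
          apply Nat.eq_of_testBit_eq
          intro k
          rw [land_tb, lor_tb]
          cases hk : (row A i).testBit k
          · simp
          · have hS : S.testBit k = false := by
              by_contra hc
              rw [Bool.not_eq_false, h1] at hc
              have hne : i ≠ k := by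
                rintro rfl
                rcases hc.2 with h8 | h8
                · omega
                · exact q2 h8
              have := (hQ i k q1 hc.1 hne).1
              rw [hk] at this
              exact absurd this (by simp)
            have hNS : NS.testBit k = false := by
              by_contra hc
              rw [Bool.not_eq_false, h2] at hc
              obtain ⟨j, ⟨hj, hj2⟩, hj3⟩ := hc
              have hne : i ≠ j := by
                rintro rfl
                rcases hj2 with h8 | h8
                · omega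
                · exact q2 h8
              exact (hQ i j q1 hj hne).2 k hk hj3
            rw [hS, hNS]
            simp
        rw [h7]
        rfl
      rw [hb, cond_true] at h6
      refine ih _ _ _ ?_ ?_ ?_ h6
      · intro j
        rw [lor_tb, Bool.or_eq_true, h1, bit_tb]
        constructor
        · rintro (⟨h8, h9 | h9⟩ | rfl)
          · exact ⟨h8, Or.inl (by omega)⟩
          · exact ⟨h8, Or.inr h9⟩
          · exact ⟨q1, Or.inl le_rfl⟩
        · rintro ⟨h8, h9 | h9⟩
          · by_cases hij : j = i
            · exact Or.inr hij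
            · exact Or.inl ⟨h8, Or.inl (by omega)⟩
          · exact Or.inl ⟨h8, Or.inr h9⟩
      · intro k
        rw [lor_tb, Bool.or_eq_true, h2]
        constructor
        · rintro (⟨j, ⟨h8, h9⟩, h10⟩ | h8)
          · exact ⟨j, ⟨h8, h9.imp (fun h => by omega) id⟩, h10⟩
          · exact ⟨i, ⟨q1, Or.inl le_rfl⟩, h8⟩
        · rintro ⟨j, ⟨h8, h9⟩, h10⟩
          by_cases hij : j = i
          · exact Or.inr (hij ▸ h10)
          · exact Or.inl ⟨j, ⟨h8, h9.imp (fun h => by omega) id⟩, h10⟩
      · intro m
        rw [lor_tb, lor_tb, Bool.or_eq_true, Bool.or_eq_true, h3, bit_tb, bit_tb]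
        have e1 : Nat.add (Nat.mul 32 i) n = 32 * i + n := rfl
        have e2 : Nat.add (Nat.mul 32 n) i = 32 * n + i := rfl
        rw [e1, e2]
        constructor
        · rintro ((h8 | ⟨j, ⟨h8, h9⟩, h10⟩) | h8)
          · exact Or.inl h8
          · exact Or.inr ⟨j, ⟨h8, h9.imp (fun h => by omega) id⟩, h10⟩
          · exact Or.inr ⟨i, ⟨q1, Or.inl le_rfl⟩, h8⟩
        · rintro (h8 | ⟨j, ⟨h8, h9⟩, h10⟩)
          · exact Or.inl (Or.inl h8)
          · by_cases hij : j = i
            · exact Or.inr (hij ▸ h10)
            · exact Or.inl (Or.inr ⟨j, ⟨h8, h9.imp (fun h => by omega) id⟩, h10⟩)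
    · have heq : ∀ j, Q j → ((i ≤ j ∨ P0 j) ↔ (i + 1 ≤ j ∨ P0 j)) := by
        intro j hj
        constructor
        · rintro (h8 | h8)
          · by_cases hij : j = i
            · subst hij
              right
              by_contra hc
              exact hi ⟨hj, hc⟩
            · exact Or.inl (by omega)
          · exact Or.inr h8
        · rintro (h8 | h8)
          · exact Or.inl (by omega)
          · exact Or.inr h8
      refine ih _ _ _ ?_ ?_ ?_ h5
      · intro j
        rw [h1]
        exact and_congr_right fun hj => (heq j hj).symm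
      · intro k
        rw [h2]
        exact exists_congr fun j => and_congr_left fun _ =>
          and_congr_right fun hj => (heq j hj).symm
      · intro m
        rw [h3]
        exact or_congr Iff.rfl (exists_congr fun j => and_congr_left fun _ =>
          and_congr_right fun hj => (heq j hj).symm)

end Pool.Agent.Q163.FL.SR
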