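import Pool.Agent.Q163.FL.Sr2

/-!
Exhaustive search for graphs of girth at least five and minimum degree at least three without long
induced paths: correctness of the search.
-/

set_option autoImplicit false
set_option linter.unusedSectionVars false

namespace Pool.Agent.Q163.FL.SR

open Finset

variable {V : Type} [Fintype V] [DecidableEq V]

/-- girth at least five, no degrees one and two, no induced path on `K` vertices, edges in one
component -/
structure KK (H : SimpleGraph V) (K : ℕ) : Prop where
  g : Q116.FF.Girth5 H
  d3 : ∀ v u, H.Adj v u → 3 ≤ (Nb H v).card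
  pk : ¬ IP H.Adj K
  conn : ∀ X : V → Prop, (∀ u v, H.Adj u v → X u → X v) → ∀ u v u' v', H.Adj u v → X u →
    H.Adj u' v' → X u'

/-- the state `A` on `n` vertices is an induced subgraph -/
structure Emb (H : SimpleGraph V) (n A : ℕ) (f : ℕ → V) : Prop where
  inj : ∀ i j, i < n → j < n → f i = f j → i = j
  adj : ∀ i j, i < n → j < n → (A.testBit (32 * i + j) = true ↔ H.Adj (f i) (f j))
  bd : ∀ m, A.testBit m = true → m / 32 < n ∧ m % 32 < n

/-- at most sixteen vertices are not isolated -/
def Concl (H : SimpleGraph V) : Prop := ∃ A : Finset V, A.card ≤ 16 ∧ ∀ u v, H.Adj u v → u ∈ A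

/-- the state is treated -/
def Good (H : SimpleGraph V) (n A : ℕ) : Prop := ∀ f, Emb H n A f → Concl H

variable {H : SimpleGraph V} {K : ℕ}

theorem Emb.row {n A : ℕ} {f : ℕ → V} (h : Emb H n A f) (hn : n ≤ 30) {i j : ℕ} (hi : i < n)
    (hj : j < n) : (row A i).testBit j = true ↔ H.Adj (f i) (f j) := by
  rw [row_tb' (by omega), h.adj i j hi hj]

theorem Emb.row_lt {n A : ℕ} {f : ℕ → V} (h : Emb H n A f) {i j : ℕ}
    (hj : (SR.row A i).testBit j = true) : i < n ∧ j < n := by
  rw [row_tb, Bool.and_eq_true, decide_eq_true_eq] at hj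
  have h1 := h.bd _ hj.1
  have h2 := hj.2
  omega

/-- the new vertex -/
theorem ext_fun {n : ℕ} {f : ℕ → V} {w : V} {i : ℕ} (hi : i < n) :
    (if i = n then w else f i) = f i := if_neg (by omega)

theorem path_ok {n A : ℕ} {f : ℕ → V} (he : Emb H n A f) (hn : n ≤ 30) {w : V}
    (hw : ∀ i, i < n → f i ≠ w) (q p M : ℕ) (hq : q < K) (hqn : X p q = n)
    (hM : ∀ y, M.testBit y = true ↔ ∃ i, i < K ∧ X p i = y)
    (hd : ∀ i j, i < j → j < K → X p i ≠ X p j) (hsh : Nat.shiftRight M (Nat.succ n) = 0)
    (hc : ∀ i, i < K → X p i = n ∨ Nat.land (row A (X p i)) (Nat.sub M (bit n)) =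
        Nat.land (nbm p K i) (Nat.sub M (bit n)))
    (S : ℕ) (hS : ∀ j, S.testBit j = true ↔ j < n ∧ H.Adj w (f j))
    (hSM : Nat.land S (Nat.sub M (bit n)) = Nat.land (nbm p K q) (Nat.sub M (bit n))) :
    IP H.Adj K := by
  have hMlt : M < 2 ^ (n + 1) := by
    have h1 : M / 2 ^ (n + 1) = 0 := by
      rw [← Nat.shiftRight_eq_div_pow]
      exact hsh
    rcases (Nat.div_eq_zero_iff).1 h1 with h2 | h2
    · exact absurd h2 (by positivity)
    · exact h2
  have hMn : M.testBit n = true := (hM n).2 ⟨q, hq, hqn⟩
  have hM' : ∀ y, (Nat.sub M (bit n)).testBit y = true ↔ M.testBit y = true ∧ y ≠ n :=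
    sub_tb hMn hMlt
  set M' := Nat.sub M (bit n) with hM'def
  have hle : ∀ i, i < K → X p i < n + 1 := by
    intro i hi
    by_contra hcon
    have h1 : M.testBit (X p i) = true := (hM _).2 ⟨i, hi, rfl⟩
    have h2 : M < 2 ^ (X p i) := hMlt.trans_le (Nat.pow_le_pow_right (by norm_num) (by omega))
    rw [Nat.testBit_lt_two_pow h2] at h1
    exact absurd h1 (by simp)
  have hdd : ∀ i j, i < K → j < K → X p i = X p j → i = j := by
    intro i j hi hj hij
    rcases Nat.lt_trichotomy i j with h1 | h1 | h1
    · exact absurd hij (hd i j h1 hj)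
    · exact h1
    · exact absurd hij.symm (hd j i h1 hi)
  have hin : ∀ i, i < K → X p i ≠ n → M'.testBit (X p i) = true := fun i hi hne =>
    (hM' _).2 ⟨(hM _).2 ⟨i, hi, rfl⟩, hne⟩
  -- equality of masks gives equality of bits
  have hmask : ∀ a b y, Nat.land a M' = Nat.land b M' → M'.testBit y = true →
      (a.testBit y = true ↔ b.testBit y = true) := by
    intro a b y hab hy
    have h1 : (Nat.land a M').testBit y = (Nat.land b M').testBit y := by rw [hab]
    rw [land_tb, land_tb, hy, Bool.and_true, Bool.and_true] at h1
    rw [h1]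
  have hnb : ∀ i j, i < K → j < K → ((nbm p K i).testBit (X p j) = true ↔
      (j + 1 = i ∨ j = i + 1)) := by
    intro i j hi hj
    rw [nbm_tb]
    constructor
    · rintro (⟨h1, h2⟩ | ⟨h1, h2⟩)
      · have := hdd j (i - 1) hj (by omega) h2
        omega
      · have := hdd j (i + 1) hj (by omega) h2
        omega
    · rintro (h1 | h1)
      · left
        refine ⟨by omega, ?_⟩
        rw [show i - 1 = j by omega]
      · right
        refine ⟨by omega, ?_⟩
        rw [← h1]
  have hlt : ∀ i, i < K → X p i ≠ n → X p i < n := by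
    intro i hi hne
    have := hle i hi
    omega
  refine ⟨fun i => if X p i = n then w else f (X p i), fun i j hij hj => ?_⟩
  have hi : i < K := by omega
  have hne := hd i j hij hj
  beta_reduce
  by_cases h1 : X p i = n
  · have h2 : X p j ≠ n := fun h => hne (h1.trans h.symm)
    have hiq : i = q := hdd i q hi hq (h1.trans hqn.symm)
    rw [if_pos h1, if_neg h2]
    refine ⟨(hw _ (hlt j hj h2)).symm, ?_⟩
    have h3 := hS (X p j)
    rw [hmask _ _ _ hSM (hin j hj h2), hnb q j hq hj] at h3
    constructor
    · intro h4
      have := h3.2 ⟨hlt j hj h2, h4⟩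
      omega
    · intro h4
      exact (h3.1 (by omega)).2
  · have hi' := hlt i hi h1
    by_cases h2 : X p j = n
    · have hjq : j = q := hdd j q hj hq (h2.trans hqn.symm)
      rw [if_neg h1, if_pos h2]
      refine ⟨hw _ hi', ?_⟩
      have h3 := hS (X p i)
      rw [hmask _ _ _ hSM (hin i hi h1), hnb q i hq hi] at h3
      constructor
      · intro h4
        have := h3.2 ⟨hi', h4.symm⟩
        omega
      · intro h4
        exact (h3.1 (by omega)).2.symm
    · rw [if_neg h1, if_neg h2]
      have hj' := hlt j hj h2
      refine ⟨fun h => hne (he.inj _ _ hi' hj' h), ?_⟩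
      rw [← he.row hn hi' hj', hmask _ _ _ ((hc i hi).resolve_left h1) (hin j hj h2),
        hnb i j hi hj]
      omega

theorem emb_new {n A B : ℕ} {f : ℕ → V} (he : Emb H n A f) (hn : n ≤ 30) {w : V}
    (hw : ∀ i, i < n → f i ≠ w)
    (hB : ∀ m, B.testBit m = true ↔ A.testBit m = true ∨
      ∃ j, (j < n ∧ H.Adj w (f j)) ∧ (m = 32 * j + n ∨ m = 32 * n + j)) :
    Emb H (n + 1) B (fun i => if i = n then w else f i) := by
  refine ⟨?_, ?_, ?_⟩
  · intro i j hi hj h
    beta_reduce at h
    by_cases h1 : i = n
    · by_cases h2 : j = n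
      · omega
      · rw [if_pos h1, if_neg h2] at h
        exact absurd h.symm (hw j (by omega))
    · by_cases h2 : j = n
      · rw [if_neg h1, if_pos h2] at h
        exact absurd h (hw i (by omega))
      · rw [if_neg h1, if_neg h2] at h
        exact he.inj i j (by omega) (by omega) h
  · intro i j hi hj
    rw [hB]
    have hA : A.testBit (32 * i + j) = true → i < n ∧ j < n := by
      intro h
      have := he.bd _ h
      omega
    by_cases h1 : i = n
    · subst h1
      by_cases h2 : j = i
      · subst h2
        rw [if_pos rfl]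
        constructor
        · rintro (h3 | ⟨k, ⟨h3, _⟩, h4⟩)
          · have := hA h3
            omega
          · omega
        · intro h3
          exact absurd rfl h3.ne
      · rw [if_pos rfl, if_neg h2]
        constructor
        · rintro (h3 | ⟨k, ⟨h3, h5⟩, h4⟩)
          · have := hA h3
            omega
          · have : k = j := by omega
            rwa [this] at h5
        · intro h3
          exact Or.inr ⟨j, ⟨by omega, h3⟩, Or.inr rfl⟩
    · by_cases h2 : j = n
      · subst h2
        rw [if_neg h1, if_pos rfl]
        constructor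
        · rintro (h3 | ⟨k, ⟨h3, h5⟩, h4⟩)
          · have := hA h3
            omega
          · have : k = i := by omega
            rw [this] at h5
            exact h5.symm
        · intro h3
          exact Or.inr ⟨i, ⟨by omega, h3.symm⟩, Or.inl rfl⟩
      · rw [if_neg h1, if_neg h2]
        rw [← he.adj i j (by omega) (by omega)]
        constructor
        · rintro (h3 | ⟨k, ⟨h3, _⟩, h4⟩)
          · exact h3
          · omega
        · exact Or.inl
  · intro m hm
    rcases (hB m).1 hm with h1 | ⟨j, ⟨h1, _⟩, h2 | h2⟩
    · have := he.bd m h1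
      omega
    · omega
    · omega

theorem leaf_sound (hK : KK H K) {n A : ℕ} {f : ℕ → V} (he : Emb H n A f) (hn : n ≤ 30) {w : V}
    (hw : ∀ i, i < n → f i ≠ w) {ih : ℕ → Ct → Bool}
    (hih : ∀ B c, ih B c = true → Good H (n + 1) B) {ch : Ct} {l : Pl}
    (hl : AllP (fun M W => ∀ S, (∀ j, S.testBit j = true ↔ j < n ∧ H.Adj w (f j)) →
      Nat.land S M = W → IP H.Adj K) l) {S B : ℕ}
    (hS : ∀ j, S.testBit j = true ↔ j < n ∧ H.Adj w (f j))
    (hB : ∀ m, B.testBit m = true ↔ A.testBit m = true ∨
      ∃ j, (j < n ∧ H.Adj w (f j)) ∧ (m = 32 * j + n ∨ m = 32 * n + j))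
    (h : leaf ih ch l S B = true) : Concl H := by
  unfold leaf at h
  cases hc : look S ch with
  | none =>
    rw [hc] at h
    obtain ⟨M, W, h1, h2⟩ := pmt_sound l hl h
    exact absurd (h1 S hS h2) hK.pk
  | some c =>
    rw [hc] at h
    exact hih B c h _ (emb_new he hn hw hB)

theorem search_sound (hK : KK H K) {L : List ℕ} (hL : ∀ k ∈ L, Good H (k % 32) (k / 32)) :
    ∀ fuel n A c, search L K fuel n A c = true → Good H n A := by
  intro fuel
  induction fuel with
  | zero => intro n A c h; exact absurd h (by simp [search])
  | succ fuel ih =>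
    intro n A c h f he
    have h1 : search L K (fuel + 1) n A c = and (Nat.ble n 30)
      (Ct.casesOn (motive := fun _ => Bool) c false
      (memb (Nat.add (Nat.mul 32 A) n) L)
      (fun u P ch => mkl A n K P Pl.nil fun l => cond (Nat.ble (Nat.succ u) n)
        (fc (row A u) fun r => and (two2 r)
          (en A n (fun S B => leaf (search L K fuel (Nat.succ n)) ch l S B) n (bit u) r
            (Nat.lor A (Nat.lor (bit (Nat.add (Nat.mul 32 u) n))
              (bit (Nat.add (Nat.mul 32 n) u))))))
        (and (and (Nat.ble n 16) (Nat.ble 1 A))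
          (en A n (fun S B => cond (Nat.beq S 0) true
            (leaf (search L K fuel (Nat.succ n)) ch l S B)) n 0 0 A)))
      (fun _ _ _ => false) (fun _ _ _ => false)) := rfl
    rw [h1, Bool.and_eq_true] at h
    obtain ⟨h2, h3⟩ := h
    have hn : n ≤ 30 := Nat.le_of_ble_eq_true h2
    cases c with
    | nil => exact absurd h3 (by simp)
    | ex =>
      have h4 := hL _ (memb_sound L h3)
      have e1 : Nat.add (Nat.mul 32 A) n = 32 * A + n := rfl
      rw [e1, show (32 * A + n) % 32 = n by omega, show (32 * A + n) / 32 = A by omega] at h4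
      exact h4 f he
    | ch _ _ _ => exact absurd h3 (by simp)
    | pa _ _ _ => exact absurd h3 (by simp)
    | st u P ch =>
      have main : ∀ w : V, (∀ i, i < n → f i ≠ w) → ∃ l, AllP (fun M W => ∀ S,
          (∀ j, S.testBit j = true ↔ j < n ∧ H.Adj w (f j)) →
          Nat.land S M = W → IP H.Adj K) l ∧ cond (Nat.ble (Nat.succ u) n)
        (fc (row A u) fun r => and (two2 r)
          (en A n (fun S B => leaf (search L K fuel (Nat.succ n)) ch l S B) n (bit u) r
            (Nat.lor A (Nat.lor (bit (Nat.add (Nat.mul 32 u) n))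
              (bit (Nat.add (Nat.mul 32 n) u))))))
        (and (and (Nat.ble n 16) (Nat.ble 1 A))
          (en A n (fun S B => cond (Nat.beq S 0) true
            (leaf (search L K fuel (Nat.succ n)) ch l S B)) n 0 0 A)) = true := by
        intro w hw
        refine mkl_sound ?_ P Pl.nil trivial h3
        intro q p M hq hqn hM hd hsh hc S hS hSM
        exact path_ok he hn hw q p M hq hqn hM hd hsh hc S hS hSM
      have hQ : ∀ w : V, (∀ i, i < n → f i ≠ w) → ∀ i j, (i < n ∧ H.Adj w (f i)) →
          (j < n ∧ H.Adj w (f j)) → i ≠ j → (row A i).testBit j = false ∧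
          ∀ k, (row A i).testBit k = true → (row A j).testBit k = true → False := by
        rintro w hw i j ⟨hi, hwi⟩ ⟨hj, hwj⟩ hij
        refine ⟨?_, fun k hk1 hk2 => ?_⟩
        · by_contra hc
          rw [Bool.not_eq_false, he.row hn hi hj] at hc
          exact hK.g.tri w (f i) (f j) hwi hc hwj.symm
        · have hk := (he.row_lt hk1).2
          rw [he.row hn hi hk] at hk1
          rw [he.row hn hj hk] at hk2
          exact hK.g.quad w (f i) (f k) (f j) (hw k hk).symm (fun h => hij (he.inj i j hi hj h)) hwi
            hk1 hk2.symm hwj.symm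
      cases hu : Nat.ble (Nat.succ u) n with
      | true =>
        have hun : u < n := Nat.le_of_ble_eq_true hu
        -- the new vertex
        have hex : two2 (row A u) = true → ∃ w, (∀ i, i < n → f i ≠ w) ∧ H.Adj (f u) w := by
          intro ht
          obtain ⟨t1, a, b, t2⟩ := two2_sound ht
          obtain ⟨j, hj⟩ := Nat.exists_testBit_of_ne_zero t1
          have hjn := (he.row_lt hj).2
          have hadj := (he.row hn hun hjn).1 hj
          have hcard := hK.d3 _ _ hadj
          have h5 : ∃ w ∈ Nb H (f u), w ≠ f a ∧ w ≠ f b := by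
            by_contra hcon
            push Not at hcon
            have h6 : Nb H (f u) ⊆ {f a, f b} := by
              intro w hw
              rw [mem_insert, mem_singleton]
              by_cases h7 : w = f a
              · exact Or.inl h7
              · exact Or.inr (hcon w hw h7)
            have h7 := card_le_card h6
            have h8 := card_le_two (a := f a) (b := f b)
            omega
          obtain ⟨w, hw, hwa, hwb⟩ := h5
          refine ⟨w, fun i hi hc => ?_, mem_Nb.1 hw⟩
          have h6 : (row A u).testBit i = true := by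
            rw [he.row hn hun hi, hc]
            exact mem_Nb.1 hw
          rcases t2 i h6 with rfl | rfl
          · exact hwa hc.symm
          · exact hwb hc.symm
        have ht2 : two2 (row A u) = true := by
          obtain ⟨l, _, h5⟩ := mkl_sound (Q := fun _ _ => True) (fun _ _ _ _ _ _ _ _ _ => trivial)
            P Pl.nil trivial h3
          rw [hu, cond_true, fc_eq, Bool.and_eq_true] at h5
          exact h5.1
        obtain ⟨w, hw, huw⟩ := hex ht2
        obtain ⟨l, hl, h5⟩ := main w hw
        rw [hu, cond_true, fc_eq, Bool.and_eq_true] at h5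
        obtain ⟨_, h6⟩ := h5
        obtain ⟨S, B, hS, hB, hleaf⟩ := en_sound (Q := fun j => j < n ∧ H.Adj w (f j))
          (P0 := fun j => j = u) (hQ w hw) n _ _ _ (fun j => by
            rw [bit_tb]
            constructor
            · rintro rfl
              exact ⟨⟨hun, huw.symm⟩, Or.inr rfl⟩
            · rintro ⟨⟨h7, _⟩, h8 | h8⟩
              · omega
              · exact h8) (fun k => by
            constructor
            · intro h7
              exact ⟨u, ⟨⟨hun, huw.symm⟩, Or.inr rfl⟩, h7⟩
            · rintro ⟨j, ⟨⟨h7, _⟩, h8 | h8⟩, h9⟩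
              · omega
              · rw [← h8]
                exact h9) (fun m => by
            rw [lor_tb, lor_tb, Bool.or_eq_true, Bool.or_eq_true, bit_tb, bit_tb]
            have e1 : Nat.add (Nat.mul 32 u) n = 32 * u + n := rfl
            have e2 : Nat.add (Nat.mul 32 n) u = 32 * n + u := rfl
            rw [e1, e2]
            refine or_congr Iff.rfl ⟨fun h7 => ⟨u, ⟨⟨hun, huw.symm⟩, Or.inr rfl⟩, h7⟩, ?_⟩
            rintro ⟨j, ⟨⟨h7, _⟩, h8 | h8⟩, h9⟩
            · omega
            · rw [← h8]
              exact h9) h6
        exact leaf_sound hK he hn hw (fun B c => ih (n + 1) B c) hl hS hB hleaf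
      | false =>
        by_cases hX : ∀ x y, H.Adj x y → (∃ i, i < n ∧ f i = x) → ∃ i, i < n ∧ f i = y
        · obtain ⟨l, _, h5⟩ := mkl_sound (Q := fun _ _ => True) (fun _ _ _ _ _ _ _ _ _ => trivial)
            P Pl.nil trivial h3
          rw [hu, cond_false, Bool.and_eq_true, Bool.and_eq_true] at h5
          obtain ⟨⟨h6, h7⟩, _⟩ := h5
          have hn16 : n ≤ 16 := Nat.le_of_ble_eq_true h6
          have hA0 : 1 ≤ A := Nat.le_of_ble_eq_true h7
          obtain ⟨m, hm⟩ := Nat.exists_testBit_of_ne_zero (show A ≠ 0 by omega)
          have hb := he.bd m hm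
          have hadj : H.Adj (f (m / 32)) (f (m % 32)) := by
            rw [← he.adj _ _ hb.1 hb.2, Nat.div_add_mod]
            exact hm
          refine ⟨(range n).image f, card_image_le.trans (by rw [card_range]; exact hn16), ?_⟩
          intro x y hxy
          obtain ⟨i, hi, hix⟩ := hK.conn (fun x => ∃ i, i < n ∧ f i = x) hX _ _ x y hadj
            ⟨_, hb.1, rfl⟩ hxy
          exact mem_image.2 ⟨i, mem_range.2 hi, hix⟩
        · push Not at hX
          obtain ⟨x, w, hxw, ⟨i0, hi0, rfl⟩, hw⟩ := hX
          obtain ⟨l, hl, h5⟩ := main w hw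
          rw [hu, cond_false, Bool.and_eq_true] at h5
          obtain ⟨_, h6⟩ := h5
          obtain ⟨S, B, hS, hB, hleaf⟩ := en_sound (Q := fun j => j < n ∧ H.Adj w (f j))
            (P0 := fun j => False) (hQ w hw) n _ _ _ (fun j => by
              rw [Nat.zero_testBit]
              constructor
              · intro h7
                exact absurd h7 (by simp)
              · rintro ⟨⟨h7, _⟩, h8 | h8⟩
                · omega
                · exact h8.elim) (fun k => by
              rw [Nat.zero_testBit]
              constructor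
              · intro h7
                exact absurd h7 (by simp)
              · rintro ⟨j, ⟨⟨h7, _⟩, h8 | h8⟩, _⟩
                · omega
                · exact h8.elim) (fun m => by
              constructor
              · intro h7
                exact Or.inl h7
              · rintro (h7 | ⟨j, ⟨⟨h7, _⟩, h8 | h8⟩, _⟩)
                · exact h7
                · omega
                · exact h8.elim) h6
          have hS0 : Nat.beq S 0 = false := by
            cases hh : Nat.beq S 0
            · rfl
            · have h7 := (hS i0).2 ⟨hi0, hxw.symm⟩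
              rw [Nat.eq_of_beq_eq_true hh] at h7
              simp at h7
          rw [hS0, cond_false] at hleaf
          exact leaf_sound hK he hn hw (fun B c => ih (n + 1) B c) hl hS hB hleaf

end Pool.Agent.Q163.FL.SR
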