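import Pool.Agent.Q163.FL.Sd8
import Pool.Agent.Q163.FL.Sd9d
import Pool.Agent.Q163.FL.P6c

/-!
Multigraphs without induced paths on nine vertices.
-/

set_option autoImplicit false
set_option linter.unusedSectionVars false

namespace Pool.Agent.Q163.FL.SR

open Finset

section

variable {V : Type} [Fintype V] [DecidableEq V] {H : SimpleGraph V}

theorem path_emb {n A : ℕ}
    (h1 : ∀ i < n, ∀ j < n, (A.testBit (32 * i + j) = true ↔ (j = i + 1 ∨ i = j + 1)))
    (h2 : A < 2 ^ (32 * n)) (h3 : ∀ m < 32 * n, A.testBit m = true → m % 32 < n)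
    {p : ℕ → V} (hp : ∀ i j, i < j → j < n → p i ≠ p j ∧ (H.Adj (p i) (p j) ↔ j = i + 1)) :
    Emb H n A p := by
  refine ⟨?_, ?_, ?_⟩
  · intro i j hi hj h
    rcases Nat.lt_trichotomy i j with h4 | h4 | h4
    · exact absurd h (hp i j h4 hj).1
    · exact h4
    · exact absurd h.symm (hp j i h4 hi).1
  · intro i j hi hj
    rw [h1 i hi j hj]
    rcases Nat.lt_trichotomy i j with h4 | h4 | h4
    · rw [(hp i j h4 hj).2]
      omega
    · subst h4
      constructor
      · intro h5
        omega
      · intro h5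
        exact absurd rfl h5.ne
    · rw [H.adj_comm, (hp j i h4 hi).2]
      omega
  · intro m hm
    have h4 : m < 32 * n := by
      by_contra hc
      have h5 : A < 2 ^ m := h2.trans_le (Nat.pow_le_pow_right (by norm_num) (by omega))
      rw [Nat.testBit_lt_two_pow h5] at hm
      exact absurd hm (by simp)
    exact ⟨by omega, h3 m h4 hm⟩

theorem step {n A : ℕ} (hA : (∀ i < n, ∀ j < n, (A.testBit (32 * i + j) = true ↔
      (j = i + 1 ∨ i = j + 1))) ∧ A < 2 ^ (32 * n) ∧ ∀ m < 32 * n, A.testBit m = true → m % 32 < n)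
    (hg : KK H (n + 1) → Good H n A) (hr : KK H n → Concl H) (hK : KK H (n + 1)) : Concl H := by
  by_cases h : IP H.Adj n
  · obtain ⟨p, hp⟩ := h
    exact hg hK p (path_emb hA.1 hA.2.1 hA.2.2 hp)
  · exact hr ⟨hK.g, hK.d3, h, hK.conn⟩

theorem concl_two (hK : KK H 2) : Concl H := by
  refine ⟨∅, by simp, fun u v huv => absurd ?_ hK.pk⟩
  refine ⟨fun i => if i = 0 then u else v, fun i j hij hj => ?_⟩
  have h1 : i = 0 := by omega
  have h2 : j = 1 := by omega
  subst h1
  subst h2
  simp [huv, huv.ne]

theorem concl_nine (hK : KK H 9) : Concl H := by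
  have h2 := @concl_two V _ _ H
  have h3 := step (H := H) (n := 2) (by decide +kernel) g3_0 h2
  have h4 := step (H := H) (n := 3) (by decide +kernel) g4_0 h3
  have h5 := step (H := H) (n := 4) (by decide +kernel) g5_0 h4
  have h6 := step (H := H) (n := 5) (by decide +kernel) g6_0 h5
  have h7 := step (H := H) (n := 6) (by decide +kernel) g7_0 h6
  have h8 := step (H := H) (n := 7) (by decide +kernel) g8_0 h7
  exact step (H := H) (n := 8) (by decide +kernel) g9_35 h8 hK

end

end Pool.Agent.Q163.FL.SR
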