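import Pool.Agent.Q163.FL.Dq
import Pool.Agent.Q116.FF.Wf

/-!
Flows with values in a prescribed set: from nowhere-zero 4-flows and the Petersen graph to all
graphs of a class which is closed under quotients.
-/

set_option autoImplicit false

namespace Pool.Agent.Q163.FL

open Finset Pool.Agent.TH362.TF Pool.Agent.TH362.TF.Four Pool.Agent.TH362.TF.Str
open Q116.FF (WF Val pnb ex ex_map ex_sum outv mrg nl nl_lt two_other pnb_ne padj_pnb
  pnb_inj)

set_option linter.unusedSectionVars false

variable {V E : Type} [Fintype V] [DecidableEq V] [DecidableEq E] {A : Type} [AddCommGroup A]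

/-- a class of multigraphs which is closed under quotients, and in which the dichotomy holds -/
structure QC (P : (E → V) → (E → V) → Finset E → Prop) : Prop where
  quot : ∀ (s t : E → V) (S : Finset E), P s t S → ∀ f : V → V,
    P (fun e => f (s e)) (fun e => f (t e)) S
  or : ∀ (s t : E → V) (S : Finset E), P s t S → NZ s t S ∨ PQ s t S

theorem qc_dq : QC (V := V) (E := E) DQ := ⟨fun _ _ _ h f => h.quot f, fun _ _ _ h => h.or⟩

theorem piece1 {P : (E → V) → (E → V) → Finset E → Prop} {W : Set A} {s t : E → V} {S : Finset E} {κ : V → Fin 10} (hκ : IsPQ s t S κ)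
    (hP : QC P) (h : P s t S)
    (ih : ∀ (s' t' : E → V), nl s' t' S < nl s t S → P s' t' S → WF W s' t' S) (k : Fin 10) :
    ∃ φ : E → A, (∀ e ∈ S, φ e ∈ W) ∧ ∀ v, κ v = k → ex s t S φ v = 0 := by
  classical
  obtain ⟨l, l', h1, h2, h3, h4⟩ := two_other k
  obtain ⟨e, he, hj⟩ := hκ.2 l l' h4
  set T : Finset V := univ.filter (fun v => κ v ≠ k) with hT
  have hs : s e ∈ T := by
    rw [hT, mem_filter]
    refine ⟨mem_univ _, ?_⟩
    rcases hj with ⟨h5, _⟩ | ⟨h5, _⟩ <;> rw [h5] <;> assumption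
  have ht : t e ∈ T := by
    rw [hT, mem_filter]
    refine ⟨mem_univ _, ?_⟩
    rcases hj with ⟨_, h5⟩ | ⟨_, h5⟩ <;> rw [h5] <;> assumption
  have hne : s e ≠ t e := by
    intro hc
    apply h3
    rcases hj with ⟨h5, h6⟩ | ⟨h5, h6⟩
    · rw [← h5, ← h6, hc]
    · rw [← h5, ← h6, hc]
  have hlt := nl_lt (a := s e) he hne hs ht (Or.inl ⟨rfl, rfl⟩)
  obtain ⟨φ, hφ, hφ0⟩ := ih _ _ hlt (hP.quot _ _ _ h (mrg T (s e)))
  refine ⟨φ, hφ, fun v hv => ?_⟩
  rw [← hφ0 v]
  have hvT : v ∉ T := by
    rw [hT, mem_filter]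
    rintro ⟨_, h5⟩
    exact h5 hv
  have key : ∀ x, mrg T (s e) x = v ↔ x = v := by
    intro x
    unfold mrg
    by_cases hx : x ∈ T
    · rw [if_pos hx]
      constructor
      · rintro rfl; exact absurd hs hvT
      · rintro rfl; exact absurd hx hvT
    · rw [if_neg hx]
  unfold ex
  refine sum_congr rfl fun x _ => ?_
  simp only [key]

theorem piece2 {P : (E → V) → (E → V) → Finset E → Prop} {W : Set A} (D : Val A W) {s t : E → V} {S : Finset E} {κ : V → Fin 10}
    (hκ : IsPQ s t S κ) (hP : QC P) (h : P s t S)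
    (ih : ∀ (s' t' : E → V), nl s' t' S < nl s t S → P s' t' S → WF W s' t' S) (k : Fin 10) :
    ∃ φ : E → A, (∀ e ∈ S, φ e ∈ W) ∧ (∀ v, κ v = k → ex s t S φ v = 0) ∧
      ∀ e ∈ S, ∀ j, Joins κ s t k (pnb k j) e → (κ (s e) = k → φ e = D.p k (pnb k j)) ∧
        (κ (t e) = k → φ e = - D.p k (pnb k j)) := by
  classical
  obtain ⟨φ, h1, h2⟩ := piece1 hκ hP h ih k
  have hE : ∀ j : Fin 3, ∃ e, e ∈ S ∧ Joins κ s t k (pnb k j) e := by
    intro j
    obtain ⟨e, he, hj⟩ := hκ.2 k (pnb k j) (padj_pnb k j)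
    exact ⟨e, he, hj⟩
  choose e he using hE
  have hcut := cut_pq hκ k e he
  have hcard := hκ.1 k
  rw [hcut] at hcard
  have hinj : Function.Injective e := by
    intro i j hij
    have h3 := (he i).2
    have h4 := (he j).2
    rw [hij] at h3
    apply pnb_inj k
    have n1 := pnb_ne k i
    have n2 := pnb_ne k j
    rcases h3 with ⟨a1, a2⟩ | ⟨a1, a2⟩ <;> rcases h4 with ⟨b1, b2⟩ | ⟨b1, b2⟩
    · rw [← a2, ← b2]
    · exact absurd (b1.symm.trans a1) n2
    · exact absurd (a1.symm.trans b1) n1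
    · rw [← a1, ← b1]
  have hout : ∑ j, outv s κ k φ (e j) = 0 := by
    have h3 : ∑ v ∈ univ.filter (fun v => κ v = k), ex s t S φ v = 0 :=
      sum_eq_zero fun v hv => h2 v (mem_filter.1 hv).2
    rw [ex_sum] at h3
    have h4 : ∑ x ∈ S, ((if κ (t x) = k then φ x else 0) - (if κ (s x) = k then φ x else 0)) =
        ∑ x ∈ cut s t S (fun v => decide (κ v = k)),
          ((if κ (t x) = k then φ x else 0) - (if κ (s x) = k then φ x else 0)) := by
      symm
      apply sum_subset
      · exact filter_subset _ _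
      · intro x hx hx'
        unfold cut at hx'
        rw [mem_filter, not_and, not_not] at hx'
        have h5 := hx' hx
        by_cases h6 : κ (s x) = k <;> by_cases h7 : κ (t x) = k <;> simp_all
    rw [h4, hcut, sum_image (fun i _ j _ h => hinj h)] at h3
    rw [← neg_eq_zero, ← sum_neg_distrib, ← h3]
    refine sum_congr rfl fun j _ => ?_
    unfold outv
    have n1 := pnb_ne k j
    rcases (he j).2 with ⟨a1, a2⟩ | ⟨a1, a2⟩
    · rw [if_pos a1, if_pos a1, if_neg (show ¬ κ (t (e j)) = k by rw [a2]; exact n1), zero_sub]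
    · rw [if_neg (show ¬ κ (s (e j)) = k by rw [a1]; exact n1),
        if_neg (show ¬ κ (s (e j)) = k by rw [a1]; exact n1), if_pos a2, neg_neg, sub_zero]
  have hW : ∀ j, outv s κ k φ (e j) ∈ W := by
    intro j
    unfold outv
    split_ifs
    · exact h1 _ (he j).1
    · exact D.neg _ (h1 _ (he j).1)
  obtain ⟨σ, hσ1, hσ2, hσ3⟩ := D.hom _ hW hout
  obtain ⟨τ, hτ1, hτ2, hτ3⟩ := D.hom _ (fun j => D.pmem k j) (D.psum k)
  refine ⟨fun x => (σ.trans τ.symm) (φ x), fun x hx => hτ2 _ (hσ1 _ (h1 x hx)), fun v hv => ?_, ?_⟩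
  · rw [ex_map, h2 v hv, map_zero]
  · intro x hx j hj
    have hxe : x = e j := by
      have := (pq_join hκ (pnb_ne k j).symm (he j).1 (he j).2).2 x hx hj
      exact this
    subst hxe
    have h5 : (σ.trans τ.symm) (outv s κ k φ (e j)) = D.p k (pnb k j) := by
      show τ.symm (σ _) = _
      rw [hσ3 j, ← hτ3 j, AddEquiv.symm_apply_apply]
    have n1 := pnb_ne k j
    constructor
    · intro h6
      unfold outv at h5
      rw [if_pos h6] at h5
      exact h5
    · intro h6
      have h7 : κ (s (e j)) ≠ k := by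
        rcases hj with ⟨a1, a2⟩ | ⟨a1, a2⟩
        · exact absurd (a2.symm.trans h6) n1
        · rw [a1]; exact n1
      unfold outv at h5
      rw [if_neg h7, map_neg] at h5
      show (σ.trans τ.symm) (φ (e j)) = _
      rw [← h5, neg_neg]

theorem wf_of_qc {P : (E → V) → (E → V) → Finset E → Prop} (hP : QC P) {W : Set A} (D : Val A W)
    (hnz : ∀ (s t : E → V) (S : Finset E), NZ s t S → WF W s t S) :
    ∀ (s t : E → V) (S : Finset E), P s t S → WF W s t S := by
  intro s t S h
  induction hn : nl s t S using Nat.strong_induction_on generalizing s t with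
  | _ n ih =>
    subst hn
    rcases hP.or _ _ _ h with h1 | ⟨κ, hκ⟩
    · exact hnz s t S h1
    have hp := fun k => piece2 D hκ hP h (fun s' t' hlt hd => ih _ hlt s' t' hd rfl) k
    choose φ p1 p2 p3 using hp
    have hjn : ∀ e ∈ S, κ (s e) ≠ κ (t e) → ∃ j, pnb (κ (s e)) j = κ (t e) := by
      intro e he hne
      exact Q116.FF.padj_ex _ _ (pq_join hκ hne he (Or.inl ⟨rfl, rfl⟩)).1
    refine ⟨fun e => if κ (s e) = κ (t e) then φ (κ (s e)) e else D.p (κ (s e)) (κ (t e)),
      fun e he => ?_, fun v => ?_⟩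
    · beta_reduce
      split_ifs with h2
      · exact p1 _ e he
      · obtain ⟨j, hj⟩ := hjn e he h2
        rw [← hj]
        exact D.pmem _ j
    · rw [← p2 (κ v) v rfl]
      unfold ex
      refine sum_congr rfl fun e he => ?_
      congr 1
      · by_cases h2 : t e = v
        · rw [if_pos h2, if_pos h2]
          beta_reduce
          split_ifs with h3
          · rw [h3, h2]
          · obtain ⟨j, hj⟩ := hjn e he h3
            have h5 : ∃ j', pnb (κ (t e)) j' = κ (s e) := by
              have h6 := pq_join hκ (Ne.symm h3) he (Or.inr ⟨rfl, rfl⟩)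
              exact Q116.FF.padj_ex _ _ h6.1
            obtain ⟨j', hj'⟩ := h5
            have h4 := (p3 (κ (t e)) e he j' (Or.inr ⟨hj'.symm, rfl⟩)).2 rfl
            rw [← h2, h4, ← D.panti, hj']
        · rw [if_neg h2, if_neg h2]
      · by_cases h2 : s e = v
        · rw [if_pos h2, if_pos h2]
          beta_reduce
          split_ifs with h3
          · rw [h2]
          · obtain ⟨j, hj⟩ := hjn e he h3
            have h4 := (p3 (κ (s e)) e he j (Or.inl ⟨rfl, hj.symm⟩)).1 rfl
            rw [← hj, ← h4, h2]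
        · rw [if_neg h2, if_neg h2]

end Pool.Agent.Q163.FL
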