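import Pool.Agent.Q163.FL.Tr
import Pool.Agent.Q116.FF.V6
import Pool.Agent.Q116.FF.Cnv

/-!
Six even subgraphs which cover each edge four times, for the graphs dominated by three vertices up
to chains of short circuits.
-/

set_option autoImplicit false
set_option linter.unusedSectionVars false

namespace Pool.Agent.Q163.FL

open Finset Pool.Agent.TH362.TF Pool.Agent.TH362.TF.Four

variable {V E : Type} [Fintype V] [DecidableEq V] [Fintype E] [DecidableEq E]

theorem wf6 {s t : E → V} {S : Finset E} (h : DQ s t S) : Q116.FF.WF Q116.FF.W6 s t S :=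
  wf_of_qc qc_dq Q116.FF.val6 Q116.FF.nz6 s t S h

end Pool.Agent.Q163.FL
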